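import Pool.Agent.H40.TB.Spec

/-!
The curves `A¹ → Y(O)` and the orbifold curves.
-/

set_option autoImplicit false
set_option linter.unusedSectionVars false
set_option linter.overlappingInstances false

open FF MvPolynomial Pool.Agent.TH122.AB

namespace Pool.Agent.H40.TB

namespace Orb

variable {F : Type} [Field F] [Algebra ℂ F] (O : Orb F)
variable {K : Type} [Field K] [Algebra ℂ K] [Algebra F K] [IsScalarTower ℂ F K]
  {t : Fin (O.r + 1) → K} (h : Gens (k := F) t)

include h in
/-- Points given by parameters. -/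
theorem isPt_ev {z : O.σ → ℂ} {l : O.ι} (hl : aeval z (O.Q l) ≠ 0) {l' : O.σ}
    (hl' : z l' ≠ 0) {u : Fin O.r → ℂ} {γ : (Σ i, O.τ i) → ℂ}
    (hrel : (O.bundle t h).Rel (O.ev z u γ)) (hg : ∀ i, ∃ j, γ ⟨i, j⟩ ≠ 0) :
    (O.bundle t h).IsPt (O.ev z u γ) := by
  choose f hf using hg
  refine ⟨?_, hrel, (l, l', f), ?_⟩
  · intro h0
    have := congrFun h0 none
    exact one_ne_zero (α := ℂ) this
  · change aeval (O.ev z u γ) (O.cQ (l, l', f)) ≠ 0
    rw [aeval_cQ']
    refine mul_ne_zero (mul_ne_zero (mul_ne_zero ?_ ?_) ?_) ?_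
    · exact one_ne_zero (α := ℂ)
    · exact hl
    · exact hl'
    · exact Finset.prod_ne_zero_iff.2 fun i _ => hf i

/-- Orbifold curves can be lifted to the torus bundle. -/
theorem a1_up (hO : O.OrbA1) : (O.bundle t h).A1 := by
  classical
  obtain ⟨n, G, hG, hG0, hc⟩ := hO
  have h1 : (rename (fun l => (some (Sum.inl l) : O.Idx)) G *
      ∏ i, X (some (Sum.inr (Sum.inl i)))).IsHomogeneous (n + O.r) := by
    refine hG.rename_isHomogeneous.mul ?_
    have h1 := IsHomogeneous.prod (R := ℂ) (Finset.univ : Finset (Fin O.r))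
      (fun i => (X (some (Sum.inr (Sum.inl i))) : MvPolynomial O.Idx ℂ))
      (fun _ => 1) (fun i _ => isHomogeneous_X _ _)
    simpa using h1
  have h2 : aeval (O.cy t) (rename (fun l => (some (Sum.inl l) : O.Idx)) G *
      ∏ i, X (some (Sum.inr (Sum.inl i)))) ≠ 0 := by
    rw [map_mul, map_prod, O.aeval_rename_cy t hG]
    simp only [aeval_X]
    refine mul_ne_zero (mul_ne_zero (pow_ne_zero _ (Gens.t_ne h 0)) ?_) ?_
    · rwa [Ne, map_eq_zero]
    · exact Finset.prod_ne_zero_iff.2 fun i _ => Gens.t_ne h i.succ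
  refine ⟨n + O.r, rename (fun l => (some (Sum.inl l) : O.Idx)) G *
    ∏ i, X (some (Sum.inr (Sum.inl i))), h1, h2, ?_⟩
  · intro (x : O.Idx → ℂ) hx (hxG : aeval x (rename (fun l => (some (Sum.inl l) : O.Idx)) G *
      ∏ i, X (some (Sum.inr (Sum.inl i)))) ≠ 0)
    obtain ⟨hc0, -, -, -⟩ := O.isPt_bundle h hx
    set c : ℂ := x none with hcdef
    -- the affine coordinates
    have hx' := hx.smul (V := O.bundle t h) (inv_ne_zero hc0)
    set x' : O.Idx → ℂ := fun i => c⁻¹ * x i with hx'def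
    have hx'n : x' none = 1 := inv_mul_cancel₀ hc0
    obtain ⟨-, hz, hγ, hrel⟩ := O.isPt_bundle h (x := x') hx'
    have hxG' := hxG
    rw [map_mul, aeval_rename, map_prod] at hxG'
    simp only [aeval_X] at hxG'
    have hz1 : aeval (fun l => x' (some (Sum.inl l))) G ≠ 0 := by
      rw [hx'def]
      simp only
      rw [hom_aeval hG]
      exact mul_ne_zero (pow_ne_zero _ (inv_ne_zero hc0)) (left_ne_zero_of_mul hxG')
    have hu : ∀ i, x' (some (Sum.inr (Sum.inl i))) ≠ 0 := fun i =>
      mul_ne_zero (inv_ne_zero hc0)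
        (Finset.prod_ne_zero_iff.1 (right_ne_zero_of_mul hxG') i (Finset.mem_univ i))
    obtain ⟨T, ⟨⟨hT1, hT2⟩, hT3⟩, hT0⟩ := hc _ hz hz1
    choose p g hp0 hpg hg using hT3
    have hT0' : (fun i => (T i).eval 0) = fun l => x' (some (Sum.inl l)) := funext hT0
    have hrel' : ∀ i j, (p i).eval 0 ^ O.mult i * (g i j).eval 0 =
        x' (some (Sum.inr (Sum.inl i))) ^ O.mult i * x' (some (Sum.inr (Sum.inr ⟨i, j⟩))) := by
      intro i j
      have h1 := hrel i j
      rw [hx'n, one_pow, one_pow, mul_one, mul_one, ← hT0', ← eval_aeval, hpg] at h1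
      rw [Polynomial.eval_mul, Polynomial.eval_pow] at h1
      rw [h1]
      ring
    have hp : ∀ i, (p i).eval 0 ≠ 0 := by
      intro i h0
      obtain ⟨j, hj⟩ := hγ i
      have h1 := hrel' i j
      rw [h0, zero_pow (O.mult_pos i).ne', zero_mul] at h1
      exact mul_ne_zero (pow_ne_zero _ (hu i)) hj h1.symm
    let κ : Fin O.r → ℂ := fun i => x' (some (Sum.inr (Sum.inl i))) / (p i).eval 0
    have hκ : ∀ i, κ i ≠ 0 := fun i => div_ne_zero (hu i) (hp i)
    let p' : Fin O.r → Polynomial ℂ := fun i => Polynomial.C (κ i) * p i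
    let g' : (Σ i, O.τ i) → Polynomial ℂ := fun j =>
      Polynomial.C ((κ j.1)⁻¹ ^ O.mult j.1) * g j.1 j.2
    have hrelT : O.Rel T := QVar.rel_curve hT1
    have hpg' : ∀ i j, aeval T (O.G i j) = p' i ^ O.mult i * g' ⟨i, j⟩ := by
      intro i j
      simp only [p', g']
      rw [hpg, mul_pow, ← Polynomial.C_pow]
      have h1 : Polynomial.C (κ i ^ O.mult i) * Polynomial.C ((κ i)⁻¹ ^ O.mult i) = 1 := by
        rw [← Polynomial.C_mul, ← mul_pow, mul_inv_cancel₀ (hκ i), one_pow, Polynomial.C_1]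
      calc p i ^ O.mult i * g i j = (Polynomial.C (κ i ^ O.mult i) *
          Polynomial.C ((κ i)⁻¹ ^ O.mult i)) * (p i ^ O.mult i * g i j) := by rw [h1, one_mul]
        _ = _ := by ring
    have hp'0 : ∀ i, p' i ≠ 0 := fun i => mul_ne_zero (by simpa using hκ i) (hp0 i)
    have hrelS : (O.bundle t h).Rel (O.ev T p' g') := O.rel_ev h hrelT hp'0 hpg'
    have hevs : ∀ s : ℂ, (fun i => (O.ev T p' g' i).eval s) =
        O.ev (fun l => (T l).eval s) (fun i => (p' i).eval s) (fun j => (g' j).eval s) := by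
      intro s
      funext i
      rcases i with _ | l | i | j
      · exact Polynomial.eval_one
      · rfl
      · rfl
      · rfl
    refine ⟨fun i => Polynomial.C c * O.ev T p' g' i, ⟨fun s => ?_, ?_⟩, fun i => ?_⟩
    · have h1 : (O.bundle t h).IsPt (fun i => (O.ev T p' g' i).eval s) := by
        obtain ⟨h2, -, l, hl⟩ := hT1 s
        obtain ⟨l', hl'⟩ : ∃ l', (T l').eval s ≠ 0 := by
          by_contra hcon
          push Not at hcon
          exact h2 (funext hcon)
        have h3 : (O.bundle t h).Rel (O.ev (fun l => (T l).eval s) (fun i => (p' i).eval s)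
            (fun j => (g' j).eval s)) := by
          intro m f hf h0
          have h4 := hrelS m f hf h0
          have h5 := congrArg (Polynomial.eval s) h4
          rw [Polynomial.eval_zero] at h5
          have h6 := eval_aeval (O.ev T p' g') f s
          rw [hevs s] at h6
          exact h6.symm.trans h5
        have h4 := O.isPt_ev h (z := fun l => (T l).eval s) hl hl' h3 (fun i => by
          obtain ⟨j, hj⟩ := hg i s
          refine ⟨j, ?_⟩
          simp only [g']
          rw [Polynomial.eval_mul, Polynomial.eval_C]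
          exact mul_ne_zero (pow_ne_zero _ (inv_ne_zero (hκ i))) hj)
        rw [← hevs s] at h4
        exact h4
      have h2 := h1.smul (V := O.bundle t h) hc0
      simpa using h2
    · obtain ⟨s, hs⟩ := hT2
      refine ⟨s, fun c' h0 => hs 1 ?_⟩
      have h1 := congrFun h0 none
      have h2 : O.ev T p' g' none = 1 := rfl
      simp only [h2, mul_one, Polynomial.eval_C] at h1
      have hc1 : c' = 1 := by
        have h3 : (1 - c') * c = 0 := by linear_combination h1
        rcases mul_eq_zero.1 h3 with h4 | h4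
        · linear_combination -h4
        · exact absurd h4 hc0
      funext l
      have h3 := congrFun h0 (some (Sum.inl l))
      have h4 : O.ev T p' g' (some (Sum.inl l)) = T l := rfl
      simp only [h4, Polynomial.eval_mul, Polynomial.eval_C, hc1, one_mul] at h3
      rw [one_mul]
      exact mul_left_cancel₀ hc0 h3
    · have hxx : ∀ i, c * x' i = x i := fun i => by
        rw [hx'def]
        simp only
        rw [← mul_assoc, mul_inv_cancel₀ hc0, one_mul]
      rw [Polynomial.eval_mul, Polynomial.eval_C, ← hxx]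
      congr 1
      have h1 := congrFun (hevs 0) i
      rw [h1]
      rcases i with _ | l | i | ⟨i, j⟩
      · exact hx'n.symm
      · exact hT0 l
      · change (p' i).eval 0 = _
        simp only [p', κ, Polynomial.eval_mul, Polynomial.eval_C]
        exact div_mul_cancel₀ _ (hp i)
      · change (g' ⟨i, j⟩).eval 0 = _
        simp only [g', κ, Polynomial.eval_mul, Polynomial.eval_C]
        have h2 := hrel' i j
        have h3 := pow_ne_zero (O.mult i) (hu i)
        rw [inv_div, div_pow, div_mul_eq_mul_div, h2, mul_div_cancel_left₀ _ h3]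

/-- The curves on the torus bundle give orbifold curves. -/
theorem a1_down (hY : (O.bundle t h).A1) : O.OrbA1 := by
  classical
  obtain ⟨n, G', -, hG0', hc⟩ := hY
  have hG0 : aeval (O.cy t) (G' : MvPolynomial O.Idx ℂ) ≠ 0 := hG0'
  obtain ⟨N, B, hB⟩ := O.clear G'
  have hBt := hB K (fun l => t 0 * algebraMap F K (O.y l)) (fun i => t i.succ)
    (fun j => t 0 ^ O.degG j.1 * algebraMap F K (aeval O.y (O.G j.1 j.2)) /
      t j.1.succ ^ O.mult j.1) (fun i j => O.compat h i j)
  rw [← O.cy_eq t] at hBt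
  have hBt0 : aeval (Sum.elim (fun l => t 0 * algebraMap F K (O.y l)) (fun i => t i.succ)) B ≠ 0 := by
    rw [hBt]
    exact mul_ne_zero (pow_ne_zero _ (Finset.prod_ne_zero_iff.2 fun i _ => Gens.t_ne h i.succ)) hG0
  obtain ⟨μ, hμ⟩ : ∃ μ, aeval O.y (coeff μ (O.Φ B)) ≠ 0 := by
    by_contra hcon
    push Not at hcon
    apply hBt0
    rw [O.Φ_eval (fun l => algebraMap F K (O.y l)) t B, eval₂_eq']
    refine Finset.sum_eq_zero fun μ _ => ?_
    have h4 : ((aeval (fun l => algebraMap F K (O.y l)) : MvPolynomial O.σ ℂ →ₐ[ℂ] K) :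
        MvPolynomial O.σ ℂ →+* K) (coeff μ (O.Φ B)) = algebraMap F K (aeval O.y (coeff μ (O.Φ B))) :=
      MvPolynomial.aeval_algebraMap_apply K O.y _
    rw [h4, hcon, map_zero, zero_mul]
  choose j0 hj0 using O.G_ne
  refine ⟨μ 0 + ∑ i, O.degG i, coeff μ (O.Φ B) * ∏ i, O.G i (j0 i),
    (O.Φ_hom B μ).mul (IsHomogeneous.prod _ _ _ fun i _ => O.homG i (j0 i)), ?_, ?_⟩
  · rw [map_mul, map_prod]
    exact mul_ne_zero hμ (Finset.prod_ne_zero_iff.2 fun i _ => hj0 i)
  intro z hz hzG
  rw [map_mul, map_prod] at hzG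
  have hz0 := left_ne_zero_of_mul hzG
  have hzg : ∀ i, aeval z (O.G i (j0 i)) ≠ 0 := fun i =>
    Finset.prod_ne_zero_iff.1 (right_ne_zero_of_mul hzG) i (Finset.mem_univ i)
  -- the parameters
  set R : MvPolynomial (Fin (O.r + 1)) ℂ :=
    map ((aeval z : MvPolynomial O.σ ℂ →ₐ[ℂ] ℂ) : MvPolynomial O.σ ℂ →+* ℂ) (O.Φ B) with hR
  have hR0 : R ≠ 0 := by
    intro h0
    have h1 := congrArg (coeff μ) h0
    rw [hR, coeff_map, coeff_zero] at h1
    exact hz0 h1
  obtain ⟨a, ha⟩ : ∃ a : Fin (O.r + 1) → ℂ, eval a (R * ∏ i, X i) ≠ 0 := by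
    by_contra hcon
    push Not at hcon
    have h1 : R * ∏ i, X i = 0 := MvPolynomial.funext fun a => by rw [hcon a, map_zero]
    exact mul_ne_zero hR0 (Finset.prod_ne_zero_iff.2 fun i _ => X_ne_zero i) h1
  rw [map_mul, map_prod] at ha
  simp only [eval_X] at ha
  have haR := left_ne_zero_of_mul ha
  have ha0 : ∀ i, a i ≠ 0 := fun i =>
    Finset.prod_ne_zero_iff.1 (right_ne_zero_of_mul ha) i (Finset.mem_univ i)
  let γ : (Σ i, O.τ i) → ℂ := fun j =>
    a 0 ^ O.degG j.1 * aeval z (O.G j.1 j.2) / a j.1.succ ^ O.mult j.1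
  have hcomp : ∀ i j, aeval (fun l => a 0 * z l) (O.G i j) =
      a i.succ ^ O.mult i * γ ⟨i, j⟩ := by
    intro i j
    simp only [γ]
    rw [hom_aeval (O.homG i j), mul_div_cancel₀ _ (pow_ne_zero _ (ha0 i.succ))]
  set x : O.Idx → ℂ := O.ev (fun l => a 0 * z l) (fun i => a i.succ) γ with hx
  have hzrel : O.Rel z := hz.2.1
  have hrel : (O.bundle t h).Rel x := O.rel_ev h (hzrel.smul (a 0)) (fun i => ha0 i.succ) hcomp
  obtain ⟨l, hl⟩ := hz.2.2
  obtain ⟨l', hl'⟩ : ∃ l', z l' ≠ 0 := by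
    by_contra hcon
    push Not at hcon
    exact hz.1 (funext hcon)
  have hxpt : (O.bundle t h).IsPt x := O.isPt_ev h (l := l) (by
      rw [hom_aeval (O.hom l)]
      exact mul_ne_zero (pow_ne_zero _ (ha0 0)) hl) (l' := l') (mul_ne_zero (ha0 0) hl') hrel
    (fun i => ⟨j0 i, div_ne_zero (mul_ne_zero (pow_ne_zero _ (ha0 0)) (hzg i))
      (pow_ne_zero _ (ha0 i.succ))⟩)
  have hxG : aeval x (G' : MvPolynomial O.Idx ℂ) ≠ 0 := by
    intro h0
    have h1 := hB ℂ _ _ γ hcomp
    rw [← hx, h0, mul_zero] at h1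
    apply haR
    rw [O.Φ_eval z a B] at h1
    rw [hR, eval_map]
    exact h1
  obtain ⟨S0, ⟨hS10, hS20⟩, hS00⟩ := hc x hxpt hxG
  set S : O.Idx → Polynomial ℂ := S0 with hSdef
  have hS1 : ∀ s : ℂ, (O.bundle t h).IsPt (fun i => (S i).eval s) := hS10
  have hS2 : ∃ s : ℂ, ∀ c : ℂ, (fun i : O.Idx => (S i).eval s) ≠ fun i => c * (S i).eval 0 := hS20
  have hS0 : ∀ i : O.Idx, (S i).eval 0 = x i := hS00
  -- the coordinate `1`
  have hnone : ∀ s : ℂ, (S none).eval s = 1 := by
    intro s
    rw [const_of_ne (fun s => (O.isPt_bundle h (hS1 s)).1) s, hS0]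
    rfl
  have hpt : ∀ s : ℂ, O.IsPt (fun l => (S (some (Sum.inl l))).eval s) := fun s =>
    (O.isPt_bundle h (hS1 s)).2.1
  have hgam : ∀ s : ℂ, ∀ i, ∃ j, (S (some (Sum.inr (Sum.inr ⟨i, j⟩)))).eval s ≠ 0 := fun s =>
    (O.isPt_bundle h (hS1 s)).2.2.1
  have hrl : ∀ (s : ℂ) i j, aeval (fun l => (S (some (Sum.inl l))).eval s) (O.G i j) =
      (S (some (Sum.inr (Sum.inl i)))).eval s ^ O.mult i *
        (S (some (Sum.inr (Sum.inr ⟨i, j⟩)))).eval s := by
    intro s i j
    have h1 := (O.isPt_bundle h (hS1 s)).2.2.2 i j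
    simp only [hnone s, one_pow, mul_one] at h1
    rw [h1]
    ring
  have hai := inv_ne_zero (ha0 0)
  let T : O.σ → Polynomial ℂ := fun l => Polynomial.C (a 0)⁻¹ * S (some (Sum.inl l))
  have hTs : ∀ (s : ℂ), (fun l => (T l).eval s) =
      fun l => (a 0)⁻¹ * (S (some (Sum.inl l))).eval s := by
    intro s
    funext l
    simp [T]
  have hT0 : ∀ l, (T l).eval 0 = z l := by
    intro l
    have h1 := congrFun (hTs 0) l
    rw [h1, hS0]
    change (a 0)⁻¹ * (a 0 * z l) = z l
    rw [← mul_assoc, inv_mul_cancel₀ (ha0 0), one_mul]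
  have hT1 : ∀ s : ℂ, O.IsPt fun l => (T l).eval s := by
    intro s
    rw [hTs]
    exact (hpt s).smul hai
  refine ⟨T, ⟨⟨hT1, ?_⟩, fun i => ?_⟩, hT0⟩
  · by_contra hcon
    push Not at hcon
    -- the curve is constant
    let p : Polynomial ℂ := Polynomial.C (z l')⁻¹ * T l'
    have hTc : ∀ s l, (T l).eval s = z l := by
      have h1 : ∀ s : ℂ, ∃ c : ℂ, ∀ l, (T l).eval s = c * z l := by
        intro s
        obtain ⟨c, hc'⟩ := hcon s
        refine ⟨c, fun l => ?_⟩
        have h2 := congrFun hc' l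
        rw [h2, hT0]
      choose c hc' using h1
      have hpc : ∀ s, p.eval s = c s := by
        intro s
        simp only [p, Polynomial.eval_mul, Polynomial.eval_C]
        rw [hc' s l', mul_comm (c s), ← mul_assoc, inv_mul_cancel₀ hl', one_mul]
      have hp0 : ∀ s, p.eval s ≠ 0 := by
        intro s h0
        rw [hpc] at h0
        apply (hT1 s).1
        funext l
        rw [hc' s l, h0, zero_mul]
        rfl
      intro s l
      rw [hc' s l, ← hpc, const_of_ne hp0 s]
      have h3 : p.eval 0 = 1 := by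
        simp only [p, Polynomial.eval_mul, Polynomial.eval_C]
        rw [hT0, inv_mul_cancel₀ hl']
      rw [h3, one_mul]
    have hSc : ∀ s l, (S (some (Sum.inl l))).eval s = a 0 * z l := by
      intro s l
      rw [← hTc s l]
      have h1 := congrFun (hTs s) l
      rw [h1, ← mul_assoc, mul_inv_cancel₀ (ha0 0), one_mul]
    have hSc' : ∀ s, (fun l => (S (some (Sum.inl l))).eval s) = fun l => a 0 * z l :=
      fun s => funext (hSc s)
    have hSu : ∀ s i, (S (some (Sum.inr (Sum.inl i)))).eval s = a i.succ := by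
      intro s i
      have h1 : ∀ s : ℂ, (S (some (Sum.inr (Sum.inl i)))).eval s ≠ 0 := by
        intro s h0
        have h2 := hrl s i (j0 i)
        rw [hSc' s, h0, zero_pow (O.mult_pos i).ne', zero_mul, hom_aeval (O.homG i _)] at h2
        exact mul_ne_zero (pow_ne_zero _ (ha0 0)) (hzg i) h2
      rw [const_of_ne h1 s, hS0]
      rfl
    obtain ⟨s, hs⟩ := hS2
    apply hs 1
    funext i
    rw [one_mul, hS0]
    rcases i with _ | l | i | ⟨i, j⟩
    · exact hnone s
    · exact hSc s l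
    · exact hSu s i
    · have h1 := hrl s i j
      rw [hSc' s, hSu, hcomp] at h1
      exact (mul_left_cancel₀ (pow_ne_zero _ (ha0 i.succ)) h1).symm
  · refine ⟨S (some (Sum.inr (Sum.inl i))), fun j => Polynomial.C ((a 0)⁻¹ ^ O.degG i) *
      S (some (Sum.inr (Sum.inr ⟨i, j⟩))), ?_, fun j => ?_, fun s => ?_⟩
    · intro h0
      have h1 := hS0 (some (Sum.inr (Sum.inl i)))
      rw [h0, Polynomial.eval_zero] at h1
      exact ha0 i.succ h1.symm
    · apply Polynomial.funext
      intro s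
      rw [eval_aeval, hTs, hom_aeval (O.homG i j), hrl]
      simp only [Polynomial.eval_mul, Polynomial.eval_pow, Polynomial.eval_C]
      ring
    · obtain ⟨j, hj⟩ := hgam s i
      refine ⟨j, ?_⟩
      simp only [Polynomial.eval_mul, Polynomial.eval_C]
      exact mul_ne_zero (pow_ne_zero _ hai) hj

theorem a1_iff : (O.bundle t h).A1 ↔ O.OrbA1 := ⟨O.a1_down h, O.a1_up h⟩

end Orb

end Pool.Agent.H40.TB
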