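import Pool.Agent.H40.TB.Kod

/-!
The torus bundle of an orbifold: definition, and the places with a centre on it.
-/

set_option autoImplicit false
set_option linter.unusedSectionVars false
set_option linter.overlappingInstances false

open FF MvPolynomial Pool.Agent.W603.LV Pool.Agent.TH122.AB Pool.Agent.W619.PQ Pool.Agent.W619.TW
  Pool.Agent.W602.GT

namespace Pool.Agent.H40.TB

section mo

variable {F ι : Type} [Field F] [Finite ι] {o : F → ℤ} {f : ι → F}

theorem mo_spec (h : ∃ i, f i ≠ 0) :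
    (∃ i, f i ≠ 0 ∧ o (f i) = mo o f) ∧ ∀ i, f i ≠ 0 → mo o f ≤ o (f i) := by
  set S : Set ℤ := {n : ℤ | ∃ i, f i ≠ 0 ∧ o (f i) = n} with hS
  have hfin : S.Finite := by
    refine (Set.finite_range (fun i => o (f i))).subset ?_
    rintro n ⟨i, -, hi⟩
    exact ⟨i, hi⟩
  have hne : S.Nonempty := by
    obtain ⟨i, hi⟩ := h
    exact ⟨o (f i), i, hi, rfl⟩
  have hbdd := hfin.bddBelow
  exact ⟨Int.csInf_mem hne hbdd, fun i hi => csInf_le hbdd ⟨i, hi, rfl⟩⟩

theorem mo_eq {n : ℤ} (h1 : ∃ i, f i ≠ 0 ∧ o (f i) = n) (h2 : ∀ i, f i ≠ 0 → n ≤ o (f i)) :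
    mo o f = n := by
  obtain ⟨i, hi, hi'⟩ := h1
  obtain ⟨⟨j, hj, hj'⟩, h3⟩ := mo_spec (o := o) ⟨i, hi⟩
  apply le_antisymm
  · rw [← hi']; exact h3 i hi
  · rw [← hj']; exact h2 j hj

theorem mo_mul (h : ∃ i, f i ≠ 0) {e : ℤ} (he : 0 < e) :
    mo (fun x => e * o x) f = e * mo o f := by
  obtain ⟨⟨j, hj, hj'⟩, h3⟩ := mo_spec (o := o) h
  refine mo_eq ⟨j, hj, by rw [hj']⟩ fun i hi => mul_le_mul_of_nonneg_left (h3 i hi) he.le

theorem mo_zero (h : ∃ i, f i ≠ 0) (h0 : ∀ x, x ≠ 0 → o x = 0) : mo o f = 0 := by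
  obtain ⟨i, hi⟩ := h
  exact mo_eq ⟨i, hi, h0 _ hi⟩ fun i hi => (h0 _ hi).ge

end mo

/-- homogeneous polynomials -/
theorem hom_aeval {σ R : Type} [Fintype σ] [CommRing R] [Algebra ℂ R] {n : ℕ}
    {p : MvPolynomial σ ℂ} (hp : p.IsHomogeneous n) (c : R) (x : σ → R) :
    aeval (fun i => c * x i) p = c ^ n * aeval x p := by
  rw [aeval_def, eval₂_eq', aeval_def, eval₂_eq', Finset.mul_sum]
  refine Finset.sum_congr rfl fun m hm => ?_
  have h1 : ∑ i, m i = n := by
    by_contra h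
    apply MvPolynomial.mem_support_iff.1 hm
    apply hp.coeff_eq_zero
    rwa [Finsupp.degree_eq_sum]
  have h2 : ∏ i, (c * x i) ^ m i = c ^ n * ∏ i, x i ^ m i := by
    rw [← h1, ← Finset.prod_pow_eq_pow_sum, ← Finset.prod_mul_distrib]
    exact Finset.prod_congr rfl fun i _ => mul_pow _ _ _
  rw [h2]
  ring

theorem hom_ge {σ K : Type} [Fintype σ] [Field K] [Algebra ℂ K] {n : ℕ} {p : MvPolynomial σ ℂ}
    (hp : p.IsHomogeneous n) {P : Place ℂ K} {M : ℤ} {x : σ → K} (hx : ∀ i, Ge P M (x i)) :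
    Ge P (n * M) (aeval x p) := by
  rw [aeval_def, eval₂_eq']
  refine Ge.sum _ _ fun m hm => ?_
  have h1 : ∑ i, m i = n := by
    by_contra h
    apply MvPolynomial.mem_support_iff.1 hm
    apply hp.coeff_eq_zero
    rwa [Finsupp.degree_eq_sum]
  have h2 : Ge P (∑ i, (m i : ℤ) * M) (∏ i, x i ^ m i) :=
    Ge.prod _ _ _ fun i _ => (hx i).pow (m i)
  have h3 : ∑ i, (m i : ℤ) * M = n * M := by
    rw [← Finset.sum_mul, ← h1]
    push_cast
    rfl
  rw [h3] at h2
  simpa using (Ge.const (P := P) (coeff m p)).mul h2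

namespace Orb

variable {F : Type} [Field F] [Algebra ℂ F] (O : Orb F)

/-- the indices of the coordinates of the torus bundle -/
abbrev Idx : Type := Option (O.σ ⊕ Fin O.r ⊕ (Σ i, O.τ i))

section

variable {K : Type} [Field K] [Algebra ℂ K] [Algebra F K] [IsScalarTower ℂ F K]

/-- The coordinates of the torus bundle: `1`, `z = t 0 • y`, `t 1, …, t r` and
`G i j (z) / t i ^ mult i`. -/
noncomputable def cy (t : Fin (O.r + 1) → K) : O.Idx → K
  | none => 1
  | some (Sum.inl l) => t 0 * algebraMap F K (O.y l)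
  | some (Sum.inr (Sum.inl i)) => t i.succ
  | some (Sum.inr (Sum.inr j)) => t 0 ^ O.degG j.1 * algebraMap F K (aeval O.y (O.G j.1 j.2)) /
      t j.1.succ ^ O.mult j.1

/-- The forms whose common zeros are removed: one of the forms `Q l`, one of the coordinates of
`V` and, for each `i`, one of the functions `G i j (z) / t i ^ mult i` are not zero. -/
noncomputable def cQ (q : O.ι × O.σ × (∀ i, O.τ i)) : MvPolynomial O.Idx ℂ :=
  X none * rename (fun l => some (Sum.inl l)) (O.Q q.1) * X (some (Sum.inl q.2.1)) *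
    ∏ i, X (some (Sum.inr (Sum.inr ⟨i, q.2.2 i⟩)))

theorem cQ_hom (q : O.ι × O.σ × (∀ i, O.τ i)) :
    (O.cQ q).IsHomogeneous (1 + O.deg q.1 + 1 + O.r) := by
  refine (((isHomogeneous_X _ _).mul ((O.hom q.1).rename_isHomogeneous)).mul
    (isHomogeneous_X _ _)).mul ?_
  have h1 := IsHomogeneous.prod (R := ℂ) (Finset.univ : Finset (Fin O.r))
    (fun i => (X (some (Sum.inr (Sum.inr ⟨i, q.2.2 i⟩))) : MvPolynomial O.Idx ℂ))
    (fun _ => 1) (fun i _ => isHomogeneous_X _ _)
  simpa using h1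

theorem aeval_rename_cy (t : Fin (O.r + 1) → K) {n : ℕ} {p : MvPolynomial O.σ ℂ}
    (hp : p.IsHomogeneous n) :
    aeval (O.cy t) (rename (fun l => some (Sum.inl l)) p) =
      t 0 ^ n * algebraMap F K (aeval O.y p) := by
  rw [aeval_rename]
  have h1 : (O.cy t ∘ fun l => some (Sum.inl l)) = fun l => t 0 * algebraMap F K (O.y l) := rfl
  rw [h1, hom_aeval hp]
  exact congrArg (t 0 ^ n * ·) (MvPolynomial.aeval_algebraMap_apply K O.y p)

theorem aeval_cQ (t : Fin (O.r + 1) → K) (q : O.ι × O.σ × (∀ i, O.τ i)) :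
    aeval (O.cy t) (O.cQ q) = t 0 ^ O.deg q.1 * algebraMap F K (aeval O.y (O.Q q.1)) *
      (t 0 * algebraMap F K (O.y q.2.1)) *
      ∏ i, O.cy t (some (Sum.inr (Sum.inr ⟨i, q.2.2 i⟩))) := by
  rw [cQ, map_mul, map_mul, map_mul, aeval_rename_cy O t (O.hom q.1), map_prod]
  simp only [aeval_X]
  have h1 : O.cy t none = 1 := rfl
  rw [h1, one_mul]
  rfl

theorem cy_g_ne {t : Fin (O.r + 1) → K} (h : Gens (k := F) t) {i : Fin O.r} {j : O.τ i} :
    O.cy t (some (Sum.inr (Sum.inr ⟨i, j⟩))) ≠ 0 ↔ aeval O.y (O.G i j) ≠ 0 := by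
  have h1 := Gens.t_ne h 0
  have h2 := Gens.t_ne h i.succ
  change t 0 ^ O.degG i * algebraMap F K (aeval O.y (O.G i j)) / t i.succ ^ O.mult i ≠ 0 ↔ _
  constructor
  · intro h3 h4
    apply h3
    rw [h4]
    simp
  · intro h3
    have h4 : algebraMap F K (aeval O.y (O.G i j)) ≠ 0 := by rwa [Ne, map_eq_zero]
    exact div_ne_zero (mul_ne_zero (pow_ne_zero _ h1) h4) (pow_ne_zero _ h2)

/-- The torus bundle `Y(O)` over the orbifold, a quasi-affine variety with the function field
`F (t 0, …, t r)`: the closure of the image of `t ↦ (1, t 0 y, t i, G i j (t 0 y) / t i ^ mult i)`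
minus the common zeros of the forms `cQ`. -/
noncomputable def bundle (t : Fin (O.r + 1) → K) (h : Gens (k := F) t) : QVar K where
  σ := O.Idx
  y := O.cy t
  y_ne := ⟨none, one_ne_zero⟩
  gen := by
    set E := IntermediateField.adjoin ℂ {z : K | ∃ i j, z = O.cy t i / O.cy t j} with hE
    have h1 : ∀ i, O.cy t i ∈ E := by
      intro i
      apply IntermediateField.subset_adjoin
      refine ⟨i, none, ?_⟩
      have : O.cy t none = 1 := rfl
      rw [this, div_one]
    have h0 := Gens.t_ne h 0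
    have h2 : ∀ f : F, algebraMap F K f ∈ E := by
      have h3 : IntermediateField.comap (IsScalarTower.toAlgHom ℂ F K) E = ⊤ := by
        rw [eq_top_iff, ← O.gen, IntermediateField.adjoin_le_iff]
        rintro z ⟨i, j, rfl⟩
        change algebraMap F K (O.y i / O.y j) ∈ E
        by_cases hj : O.y j = 0
        · rw [hj, div_zero, map_zero]
          exact E.zero_mem
        · have h4 : algebraMap F K (O.y j) ≠ 0 := by rwa [Ne, map_eq_zero]
          have h5 : algebraMap F K (O.y i / O.y j) =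
              O.cy t (some (Sum.inl i)) / O.cy t (some (Sum.inl j)) := by
            change _ = t 0 * algebraMap F K (O.y i) / (t 0 * algebraMap F K (O.y j))
            rw [map_div₀, mul_div_mul_left _ _ h0]
          rw [h5]
          exact div_mem (h1 _) (h1 _)
      intro f
      have : f ∈ IntermediateField.comap (IsScalarTower.toAlgHom ℂ F K) E := by
        rw [h3]; exact IntermediateField.mem_top
      exact this
    have h3 : ∀ i, t i ∈ E := by
      intro i
      refine Fin.cases ?_ (fun i => ?_) i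
      · obtain ⟨j, hj⟩ := O.y_ne
        have h4 : algebraMap F K (O.y j) ≠ 0 := by rwa [Ne, map_eq_zero]
        have h5 : t 0 = O.cy t (some (Sum.inl j)) / algebraMap F K (O.y j) := by
          change _ = t 0 * algebraMap F K (O.y j) / algebraMap F K (O.y j)
          rw [mul_div_cancel_right₀ _ h4]
        rw [h5]
        exact div_mem (h1 _) (h2 _)
      · exact h1 (some (Sum.inr (Sum.inl i)))
    have h4 : ∀ A : MvPolynomial (Fin (O.r + 1)) F, aeval t A ∈ E := by
      intro A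
      induction A using MvPolynomial.induction_on with
      | C a => rw [aeval_C]; exact h2 a
      | add p q hp hq => rw [map_add]; exact add_mem hp hq
      | mul_X p i hp => rw [map_mul, aeval_X]; exact mul_mem hp (h3 i)
    rw [eq_top_iff]
    intro z _
    obtain ⟨A, B, -, hz⟩ := h.gen z
    rw [hz]
    exact div_mem (h4 A) (h4 B)
  ι := O.ι × O.σ × (∀ i, O.τ i)
  Q := O.cQ
  deg q := 1 + O.deg q.1 + 1 + O.r
  hom := O.cQ_hom
  Q_ne := by
    classical
    obtain ⟨l, hl⟩ := O.Q_ne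
    obtain ⟨l', hl'⟩ := O.y_ne
    choose f hf using O.G_ne
    refine ⟨(l, l', f), ?_⟩
    rw [aeval_cQ]
    have h0 := Gens.t_ne h 0
    refine mul_ne_zero (mul_ne_zero (mul_ne_zero (pow_ne_zero _ h0) ?_) (mul_ne_zero h0 ?_)) ?_
    · rwa [Ne, map_eq_zero]
    · rwa [Ne, map_eq_zero]
    · exact Finset.prod_ne_zero_iff.2 fun i _ => (O.cy_g_ne h).2 (hf i)

theorem bundle_quasiAffine (t : Fin (O.r + 1) → K) (h : Gens (k := F) t) :
    (O.bundle t h).QuasiAffine := by
  refine ⟨none, fun q => ?_⟩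
  change X none ∣ O.cQ q
  rw [cQ, mul_assoc, mul_assoc]
  exact dvd_mul_right _ _

end

end Orb

end Pool.Agent.H40.TB
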