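import Pool.Agent.H40.TB.Bundle

/-!
The places with a centre on the torus bundle.
-/

set_option autoImplicit false
set_option linter.unusedSectionVars false
set_option linter.overlappingInstances false

open FF MvPolynomial Pool.Agent.W603.LV Pool.Agent.TH122.AB Pool.Agent.W619.PQ Pool.Agent.W619.TW
  Pool.Agent.W602.GT

namespace Pool.Agent.H40.TB

namespace Orb

variable {F : Type} [Field F] [Algebra ℂ F] (O : Orb F)
variable {K : Type} [Field K] [Algebra ℂ K] [Algebra F K] [IsScalarTower ℂ F K]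

/-- the orders of the functions on `V` -/
def oP (F : Type) [Field F] [Algebra F K] (P : Place ℂ K) (f : F) : ℤ := P.ord (algebraMap F K f)

theorem dv_nonneg (P : Place ℂ K) (i : Fin O.r) : 0 ≤ O.dv i (oP F P) := by
  have h1 := mo_spec (o := oP F P) (O.G_ne i)
  have h2 := mo_spec (o := oP F P) O.y_ne
  obtain ⟨⟨j, hj, hj'⟩, -⟩ := h1
  rw [dv, ← hj']
  have h3 := hom_ge (P := P) (M := mo (oP F P) O.y) (x := fun l => algebraMap F K (O.y l))
    (O.homG i j) (fun l => by
      by_cases hl : O.y l = 0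
      · left; rw [hl, map_zero]
      · right; exact h2.2 l hl)
  have h4 : aeval (fun l => algebraMap F K (O.y l)) (O.G i j) =
      algebraMap F K (aeval O.y (O.G i j)) := MvPolynomial.aeval_algebraMap_apply K O.y _
  rw [h4] at h3
  have h5 : algebraMap F K (aeval O.y (O.G i j)) ≠ 0 := by rwa [Ne, map_eq_zero]
  have h6 := h3.resolve_left h5
  change 0 ≤ P.ord (algebraMap F K (aeval O.y (O.G i j))) - _
  linarith

theorem Q_ge (P : Place ℂ K) (l : O.ι) (hl : aeval O.y (O.Q l) ≠ 0) :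
    O.deg l * mo (oP F P) O.y ≤ oP F P (aeval O.y (O.Q l)) := by
  have h2 := mo_spec (o := oP F P) O.y_ne
  have h3 := hom_ge (P := P) (M := mo (oP F P) O.y) (x := fun l => algebraMap F K (O.y l))
    (O.hom l) (fun l => by
      by_cases hl : O.y l = 0
      · left; rw [hl, map_zero]
      · right; exact h2.2 l hl)
  have h4 : aeval (fun l => algebraMap F K (O.y l)) (O.Q l) =
      algebraMap F K (aeval O.y (O.Q l)) := MvPolynomial.aeval_algebraMap_apply K O.y _
  rw [h4] at h3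
  have h5 : algebraMap F K (aeval O.y (O.Q l)) ≠ 0 := by rwa [Ne, map_eq_zero]
  exact h3.resolve_left h5

variable {t : Fin (O.r + 1) → K} (h : Gens (k := F) t)

include h in
theorem ord_z (P : Place ℂ K) {l : O.σ} (hl : O.y l ≠ 0) :
    O.cy t (some (Sum.inl l)) ≠ 0 ∧
      P.ord (O.cy t (some (Sum.inl l))) = P.ord (t 0) + oP F P (O.y l) := by
  have h1 : algebraMap F K (O.y l) ≠ 0 := by rwa [Ne, map_eq_zero]
  have h0 := Gens.t_ne h 0
  exact ⟨mul_ne_zero h0 h1, P.ord_mul h0 h1⟩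

include h in
theorem ord_g (P : Place ℂ K) {i : Fin O.r} {j : O.τ i} (hj : aeval O.y (O.G i j) ≠ 0) :
    P.ord (O.cy t (some (Sum.inr (Sum.inr ⟨i, j⟩)))) =
      O.degG i * P.ord (t 0) + oP F P (aeval O.y (O.G i j)) - O.mult i * P.ord (t i.succ) := by
  have h1 : algebraMap F K (aeval O.y (O.G i j)) ≠ 0 := by rwa [Ne, map_eq_zero]
  have h0 := Gens.t_ne h 0
  have h2 := Gens.t_ne h i.succ
  change P.ord (t 0 ^ O.degG i * algebraMap F K (aeval O.y (O.G i j)) / t i.succ ^ O.mult i) = _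
  rw [P.ord_div (mul_ne_zero (pow_ne_zero _ h0) h1) (pow_ne_zero _ h2),
    P.ord_mul (pow_ne_zero _ h0) h1, P.ord_pow, P.ord_pow]
  rfl

include h in
theorem ord_cQ (P : Place ℂ K) {q : O.ι × O.σ × (∀ i, O.τ i)} (h1 : aeval O.y (O.Q q.1) ≠ 0)
    (h2 : O.y q.2.1 ≠ 0) (h3 : ∀ i, aeval O.y (O.G i (q.2.2 i)) ≠ 0) :
    P.ord (aeval (O.cy t) (O.cQ q)) = (O.deg q.1 * P.ord (t 0) + oP F P (aeval O.y (O.Q q.1))) +
      (P.ord (t 0) + oP F P (O.y q.2.1)) +
      ∑ i, P.ord (O.cy t (some (Sum.inr (Sum.inr ⟨i, q.2.2 i⟩)))) := by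
  rw [aeval_cQ]
  have h0 := Gens.t_ne h 0
  have h4 : algebraMap F K (aeval O.y (O.Q q.1)) ≠ 0 := by rwa [Ne, map_eq_zero]
  have h5 : algebraMap F K (O.y q.2.1) ≠ 0 := by rwa [Ne, map_eq_zero]
  have h6 : ∀ i ∈ Finset.univ, O.cy t (some (Sum.inr (Sum.inr ⟨i, q.2.2 i⟩))) ≠ 0 :=
    fun i _ => (O.cy_g_ne h).2 (h3 i)
  rw [P.ord_mul (mul_ne_zero (mul_ne_zero (pow_ne_zero _ h0) h4) (mul_ne_zero h0 h5))
    (Finset.prod_ne_zero_iff.2 h6), P.ord_mul (mul_ne_zero (pow_ne_zero _ h0) h4)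
    (mul_ne_zero h0 h5), P.ord_mul (pow_ne_zero _ h0) h4, P.ord_mul h0 h5, P.ord_pow,
    ord_prod P _ _ h6]
  rfl

include h in
/-- the places with a centre on the torus bundle -/
theorem cen_iff (P : Place ℂ K) : (O.bundle t h).Cen P ↔
    (∃ l, aeval O.y (O.Q l) ≠ 0 ∧
      oP F P (aeval O.y (O.Q l)) = O.deg l * mo (oP F P) O.y) ∧
    P.ord (t 0) = - mo (oP F P) O.y ∧ ∀ i, O.mult i * P.ord (t i.succ) = O.dv i (oP F P) := by
  have hy := mo_spec (o := oP F P) O.y_ne
  have hG := fun i => mo_spec (o := oP F P) (O.G_ne i)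
  constructor
  · rintro ⟨q, hq1, hq2⟩
    change aeval (O.cy t) (O.cQ q) ≠ 0 at hq1
    change P.ord (aeval (O.cy t) (O.cQ q)) = ((1 + O.deg q.1 + 1 + O.r : ℕ) : ℤ) *
      mo P.ord (O.cy t) at hq2
    set M := mo P.ord (O.cy t) with hM
    have hsp := mo_spec (o := P.ord) (f := O.cy t) ⟨none, one_ne_zero⟩
    rw [← hM] at hsp
    have hM0 : M ≤ 0 := by
      have := hsp.2 none one_ne_zero
      have h1 : O.cy t none = 1 := rfl
      rwa [h1, P.ord_one] at this
    -- the factors are not zero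
    have hq1' := hq1
    rw [aeval_cQ] at hq1'
    have hA : aeval O.y (O.Q q.1) ≠ 0 := by
      intro h0
      apply hq1'
      rw [h0]
      simp
    have hB : O.y q.2.1 ≠ 0 := by
      intro h0
      apply hq1'
      rw [h0]
      simp
    have hC : ∀ i, aeval O.y (O.G i (q.2.2 i)) ≠ 0 := by
      intro i
      rw [← O.cy_g_ne h]
      exact Finset.prod_ne_zero_iff.1 (right_ne_zero_of_mul hq1') i (Finset.mem_univ i)
    rw [O.ord_cQ h P hA hB hC] at hq2
    have hz : ∀ l, O.y l ≠ 0 → M ≤ P.ord (t 0) + oP F P (O.y l) := by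
      intro l hl
      obtain ⟨h1, h2⟩ := O.ord_z h P hl
      rw [← h2]
      exact hsp.2 _ h1
    have hmz : M ≤ P.ord (t 0) + mo (oP F P) O.y := by
      obtain ⟨⟨j, hj, hj'⟩, -⟩ := hy
      rw [← hj']
      exact hz j hj
    have hQ := O.Q_ge P q.1 hA
    have hdeg : (0 : ℤ) ≤ O.deg q.1 := by positivity
    have hQ2 : (O.deg q.1 : ℤ) * M ≤ O.deg q.1 * P.ord (t 0) + oP F P (aeval O.y (O.Q q.1)) := by
      have h1 := mul_le_mul_of_nonneg_left hmz hdeg
      linarith
    have hg : ∀ i j, aeval O.y (O.G i j) ≠ 0 →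
        M ≤ P.ord (O.cy t (some (Sum.inr (Sum.inr ⟨i, j⟩)))) := fun i j hj =>
      hsp.2 _ ((O.cy_g_ne h).2 hj)
    have hsum : (O.r : ℤ) * M ≤ ∑ i, P.ord (O.cy t (some (Sum.inr (Sum.inr ⟨i, q.2.2 i⟩)))) := by
      have h1 : ∑ _i : Fin O.r, M ≤ ∑ i, P.ord (O.cy t (some (Sum.inr (Sum.inr ⟨i, q.2.2 i⟩)))) :=
        Finset.sum_le_sum fun i _ => hg i _ (hC i)
      simpa using h1
    have hzq := hz _ hB
    have hMz : M = 0 := by
      push_cast at hq2
      nlinarith
    rw [hMz] at hq2 hQ2 hzq hsum hmz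
    simp only [mul_zero] at hq2 hQ2 hsum
    have e1 : P.ord (t 0) + oP F P (O.y q.2.1) = 0 := by linarith
    have e2 : O.deg q.1 * P.ord (t 0) + oP F P (aeval O.y (O.Q q.1)) = 0 := by linarith
    have e3 : ∑ i, P.ord (O.cy t (some (Sum.inr (Sum.inr ⟨i, q.2.2 i⟩)))) = 0 := by linarith
    have e4 : ∀ i, P.ord (O.cy t (some (Sum.inr (Sum.inr ⟨i, q.2.2 i⟩)))) = 0 := by
      have h1 := (Finset.sum_eq_zero_iff_of_nonneg (s := Finset.univ)
        (f := fun i => P.ord (O.cy t (some (Sum.inr (Sum.inr ⟨i, q.2.2 i⟩)))))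
        (fun i _ => by
          have := hg i _ (hC i)
          rw [hMz] at this
          exact this)).1 e3
      exact fun i => h1 i (Finset.mem_univ i)
    have e5 : P.ord (t 0) = - mo (oP F P) O.y := by
      have := hy.2 _ hB
      linarith
    refine ⟨⟨q.1, hA, ?_⟩, e5, fun i => ?_⟩
    · rw [e5] at e2
      linarith
    · have h1 : mo (oP F P) (fun j => aeval O.y (O.G i j)) =
          O.mult i * P.ord (t i.succ) - O.degG i * P.ord (t 0) := by
        refine mo_eq ⟨q.2.2 i, hC i, ?_⟩ fun j hj => ?_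
        · have h2 := e4 i
          rw [O.ord_g h P (hC i)] at h2
          linarith
        · have h2 := hg i j hj
          rw [O.ord_g h P hj, hMz] at h2
          linarith
      rw [dv, h1, e5]
      ring
  · rintro ⟨⟨l, hl, hl'⟩, h0, hi⟩
    obtain ⟨⟨l', hl1, hl2⟩, -⟩ := id hy
    choose f hf using fun i => (hG i).1
    have hto : ∀ i : Fin O.r, 0 ≤ P.ord (t i.succ) := by
      intro i
      have h1 := O.dv_nonneg P i
      rw [← hi] at h1
      have h2 : (0 : ℤ) < O.mult i := by exact_mod_cast O.mult_pos i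
      by_contra h3
      push Not at h3
      nlinarith
    have hg0 : ∀ i j, aeval O.y (O.G i j) ≠ 0 →
        0 ≤ P.ord (O.cy t (some (Sum.inr (Sum.inr ⟨i, j⟩)))) := by
      intro i j hj
      rw [O.ord_g h P hj, h0, hi, dv]
      have h1 := (hG i).2 j hj
      linarith
    have hgf : ∀ i, P.ord (O.cy t (some (Sum.inr (Sum.inr ⟨i, f i⟩)))) = 0 := by
      intro i
      rw [O.ord_g h P (hf i).1, h0, hi, dv, (hf i).2]
      ring
    have hM : mo P.ord (O.cy t) = 0 := by
      refine mo_eq ⟨none, one_ne_zero, P.ord_one⟩ fun j hj => ?_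
      rcases j with _ | l | i | ⟨i, j⟩
      · exact P.ord_one.ge
      · have h1 : O.y l ≠ 0 := by
          intro h1
          apply hj
          change t 0 * algebraMap F K (O.y l) = 0
          rw [h1, map_zero, mul_zero]
        rw [(O.ord_z h P h1).2, h0]
        have := hy.2 l h1
        linarith
      · exact hto i
      · exact hg0 i j ((O.cy_g_ne h).1 hj)
    refine ⟨(l, l', f), ?_, ?_⟩
    · change aeval (O.cy t) (O.cQ (l, l', f)) ≠ 0
      rw [aeval_cQ]
      have h0 := Gens.t_ne h 0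
      refine mul_ne_zero (mul_ne_zero (mul_ne_zero (pow_ne_zero _ h0) ?_) (mul_ne_zero h0 ?_)) ?_
      · rwa [Ne, map_eq_zero]
      · rwa [Ne, map_eq_zero]
      · exact Finset.prod_ne_zero_iff.2 fun i _ => (O.cy_g_ne h).2 (hf i).1
    · change P.ord (aeval (O.cy t) (O.cQ (l, l', f))) = _ * mo P.ord (O.cy t)
      rw [hM, mul_zero, O.ord_cQ h P (q := (l, l', f)) hl hl1 (fun i => (hf i).1)]
      simp only
      rw [Finset.sum_eq_zero fun i _ => hgf i, hl', hl2, h0]
      ring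

end Orb

end Pool.Agent.H40.TB
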