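import Pool.Graph.R_seed8.W602.GT.KDefs

/-!
Quasi-projective varieties over `ℂ`, orbifolds, their log plurigenera and the curves `A¹ → V`:
definitions.
-/

set_option autoImplicit false

open FF MvPolynomial Pool.Agent.W602.GT

namespace Pool.Agent.H40.TB

section

variable {k K : Type} [Field k] [Field K] [Algebra k K]

/-- `ω` is a section of `m (K + Δ)` on all the models of the field `K` (of transcendence degree
`w`), where `δ P` is the coefficient of `Δ` at the prime divisor `P`: `ω` is a rational
`m`-canonical form, and `m δ P` bounds its pole order along `P`. -/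
def Sec (w m : ℕ) (δ : Place k K → ℚ) (ω : (Fin w → Derivation k K K) → K) : Prop :=
  IsPluri m ω ∧ ∀ P : Place k K, Divisorial w P → ∀ D : Fin w → Derivation k K K,
    (∀ i, DerReg P (D i)) → ω D = 0 ∨ -(m * δ P) ≤ (P.ord (ω D) : ℚ)

/-- All the sections of the `m (K + Δ)`, `m > 0`, are zero: the Kodaira dimension is `-∞`. -/
def NoSec (w : ℕ) (δ : Place k K → ℚ) : Prop :=
  ∀ m : ℕ, 0 < m → ∀ ω : (Fin w → Derivation k K K) → K, Sec w m δ ω → ∀ D, ω D = 0

/-- There are `n` linearly independent sections of `m (K + Δ)`. -/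
def PluriGe (w m : ℕ) (δ : Place k K → ℚ) (n : ℕ) : Prop :=
  ∃ ω : Fin n → (Fin w → Derivation k K K) → K, (∀ j, Sec w m δ (ω j)) ∧ LinearIndependent k ω

/-- The Kodaira dimension is at least `h`: for some `m > 0` there are sections of `m (K + Δ)` with
`h` algebraically independent ratios. -/
def KodQ (w : ℕ) (δ : Place k K → ℚ) (h : ℕ) : Prop :=
  ∃ m : ℕ, 0 < m ∧ ∃ ω : Fin (h + 1) → (Fin w → Derivation k K K) → K,
    (∀ j, Sec w m δ (ω j)) ∧
    ∃ D, ω 0 D ≠ 0 ∧ AlgebraicIndependent k (fun i : Fin h => ω i.succ D / ω 0 D)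

end

/-- the least order of those of the functions `f i` which are not zero -/
noncomputable def mo {F ι : Type} [Field F] (o : F → ℤ) (f : ι → F) : ℤ :=
  sInf {n : ℤ | ∃ i, f i ≠ 0 ∧ o (f i) = n}

/-- A quasi-projective variety over `ℂ` with the function field `F`, embedded in the projective
space with the homogeneous coordinates `X i`, `i ∈ σ`: its generic point is `y`, and it is the
closure of this point minus the common zeros of the forms `Q l`. -/
structure QVar (F : Type) [Field F] [Algebra ℂ F] where
  /-- the indices of the homogeneous coordinates -/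
  σ : Type
  [fin : Fintype σ]
  /-- the homogeneous coordinates of the generic point -/
  y : σ → F
  y_ne : ∃ j, y j ≠ 0
  gen : IntermediateField.adjoin ℂ {z : F | ∃ i j, z = y i / y j} = ⊤
  /-- the indices of the forms -/
  ι : Type
  /-- the forms whose common zeros are removed -/
  Q : ι → MvPolynomial σ ℂ
  /-- their degrees -/
  deg : ι → ℕ
  hom : ∀ l, (Q l).IsHomogeneous (deg l)
  Q_ne : ∃ l, aeval y (Q l) ≠ 0

attribute [instance] QVar.fin

namespace QVar

variable {F : Type} [Field F] [Algebra ℂ F] (V : QVar F)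

/-- `x` are homogeneous coordinates of a closed point of `V`. -/
def IsPt (x : V.σ → ℂ) : Prop :=
  x ≠ 0 ∧ (∀ (n : ℕ) (f : MvPolynomial V.σ ℂ), f.IsHomogeneous n → aeval V.y f = 0 →
    aeval x f = 0) ∧ ∃ l, aeval x (V.Q l) ≠ 0

/-- The polynomials `T` give a nonconstant morphism `A¹ → V`. -/
def IsCurve (T : V.σ → Polynomial ℂ) : Prop :=
  (∀ s : ℂ, V.IsPt fun i => (T i).eval s) ∧
    ∃ s : ℂ, ∀ c : ℂ, (fun i => (T i).eval s) ≠ fun i => c * (T i).eval 0

/-- `V` is `A¹`-uniruled: there is a nonconstant morphism `A¹ → V` through every point of `V`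
outside a hypersurface `G = 0`. -/
def A1 : Prop :=
  ∃ (n : ℕ) (G : MvPolynomial V.σ ℂ), G.IsHomogeneous n ∧ aeval V.y G ≠ 0 ∧
    ∀ x, V.IsPt x → aeval x G ≠ 0 → ∃ T, V.IsCurve T ∧ ∀ i, (T i).eval 0 = x i

/-- The place `v` has a centre on `V`: one of the forms `Q l` does not vanish at its centre on the
closure of `V`. -/
def Cen (v : Place ℂ F) : Prop :=
  ∃ l, aeval V.y (V.Q l) ≠ 0 ∧ v.ord (aeval V.y (V.Q l)) = V.deg l * mo v.ord V.y

open Classical in
/-- The coefficients of the boundary on all models: `1` for the prime divisors without centre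
on `V`. -/
noncomputable def bd (v : Place ℂ F) : ℚ := if V.Cen v then 0 else 1

/-- the dimension -/
noncomputable def dim (_ : QVar F) : ℕ := Cardinal.toNat (Algebra.trdeg ℂ F)

/-- The conjecture for `V`: `V` is `A¹`-uniruled if and only if its logarithmic Kodaira dimension
is `-∞`. -/
def Conj : Prop := V.A1 ↔ NoSec V.dim V.bd

/-- `V` is contained in one of the coordinate affine spaces. -/
def QuasiAffine : Prop := ∃ j, ∀ l, (X j : MvPolynomial V.σ ℂ) ∣ V.Q l

/-- `V` is smooth: at each point, there are `c` forms vanishing on `V` with linearly independent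
gradients, where `c` is the codimension. -/
def Smooth : Prop :=
  ∀ x, V.IsPt x → ∃ (c : ℕ) (f : Fin c → MvPolynomial V.σ ℂ) (n : Fin c → ℕ),
    c + V.dim + 1 = Fintype.card V.σ ∧ (∀ i, (f i).IsHomogeneous (n i) ∧ aeval V.y (f i) = 0) ∧
    LinearIndependent ℂ (fun (i : Fin c) (j : V.σ) => aeval x (pderiv j (f i)))

end QVar

/-- A variety `V` with the closed subschemes `D i` (for instance, effective divisors) of the
multiplicities `mult i`; `D i` is defined by the forms `G i j`, `j ∈ τ i`, of the same degree. -/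
structure Orb (F : Type) [Field F] [Algebra ℂ F] extends QVar F where
  /-- the number of the subschemes -/
  r : ℕ
  /-- the multiplicities -/
  mult : Fin r → ℕ
  mult_pos : ∀ i, 0 < mult i
  /-- the indices of the equations of `D i` -/
  τ : Fin r → Type
  [finτ : ∀ i, Fintype (τ i)]
  /-- the equations of `D i` -/
  G : ∀ i, τ i → MvPolynomial σ ℂ
  /-- the degree of the equations of `D i` -/
  degG : Fin r → ℕ
  homG : ∀ i j, (G i j).IsHomogeneous (degG i)
  G_ne : ∀ i, ∃ j, aeval y (G i j) ≠ 0

attribute [instance] Orb.finτ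

namespace Orb

variable {F : Type} [Field F] [Algebra ℂ F] (O : Orb F)

/-- the order of `D i` along a place with the order function `o` -/
noncomputable def dv (i : Fin O.r) (o : F → ℤ) : ℤ :=
  mo o (fun j => aeval O.y (O.G i j)) - O.degG i * mo o O.y

/-- the orbifold multiplicity of `v`: the least `e > 0` such that `mult i` divides `e v(D i)` for
all `i` -/
noncomputable def em (v : Place ℂ F) : ℕ :=
  sInf {e : ℕ | 0 < e ∧ ∀ i, (O.mult i : ℤ) ∣ e * O.dv i v.ord}

open Classical in
/-- The coefficients of the orbifold divisor on all models: `1 - 1 / e` where `e` is the orbifold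
multiplicity, and `1` for the prime divisors without centre on `V`. -/
noncomputable def δ (v : Place ℂ F) : ℚ := if O.Cen v then 1 - 1 / (O.em v : ℚ) else 1

/-- The curve `T : A¹ → V` is an orbifold curve: it is not contained in `D i`, and the divisor
`T^* D i` is divisible by `mult i`. -/
def IsOrbCurve (T : O.σ → Polynomial ℂ) : Prop :=
  O.IsCurve T ∧ ∀ i, ∃ (h : Polynomial ℂ) (g : O.τ i → Polynomial ℂ), h ≠ 0 ∧
    (∀ j, aeval T (O.G i j) = h ^ O.mult i * g j) ∧ ∀ s : ℂ, ∃ j, (g j).eval s ≠ 0

/-- There is a nonconstant orbifold curve `A¹ → V` through every point of `V` outside a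
hypersurface. -/
def OrbA1 : Prop :=
  ∃ (n : ℕ) (G : MvPolynomial O.σ ℂ), G.IsHomogeneous n ∧ aeval O.y G ≠ 0 ∧
    ∀ x, O.IsPt x → aeval x G ≠ 0 → ∃ T, O.IsOrbCurve T ∧ ∀ i, (T i).eval 0 = x i

/-- `V` is smooth, and the `D i` are smooth divisors, given by one equation each, which cross
normally: at each point of `V`, there are `c` forms vanishing on `V`, where `c` is the codimension,
such that their gradients and those of the equations `G i j` which vanish at the point are linearly
independent. -/
def SNC : Prop :=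
  (∀ i (j j' : O.τ i), j = j') ∧
  ∀ x, O.IsPt x → ∃ (c : ℕ) (f : Fin c → MvPolynomial O.σ ℂ) (n : Fin c → ℕ),
    c + O.dim + 1 = Fintype.card O.σ ∧ (∀ i, (f i).IsHomogeneous (n i) ∧ aeval O.y (f i) = 0) ∧
    LinearIndependent ℂ (Sum.elim (fun (i : Fin c) (j : O.σ) => aeval x (pderiv j (f i)))
      (fun (p : {p : Σ i, O.τ i // aeval x (O.G p.1 p.2) = 0}) (j : O.σ) =>
        aeval x (pderiv j (O.G p.1.1 p.1.2))))

/-- The orbifold version of the conjecture for `O`. -/
def OrbConj : Prop := O.OrbA1 ↔ NoSec O.dim O.δ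

end Orb

end Pool.Agent.H40.TB
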