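import Pool.Agent.H40.TB.Gauss
import Pool.Graph.R_seed8.W619.PQ.Dual

/-!
Derivations and toric places.
-/

set_option autoImplicit false
set_option linter.unusedSectionVars false
set_option linter.overlappingInstances false

open FF MvPolynomial Pool.Agent.W603.LV Pool.Agent.TH122.AB Pool.Agent.W619.PQ Pool.Agent.W619.TW

namespace Pool.Agent.H40.TB

variable {k F K : Type} [Field k] [Field F] [Field K] [Algebra k F] [Algebra k K] [Algebra F K]
  [IsScalarTower k F K] {s : ℕ} {t : Fin s → K}

theorem Gens.t_ne (h : Gens (k := F) t) (i : Fin s) : t i ≠ 0 := by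
  have := h.ne (X_ne_zero (R := F) i)
  rwa [aeval_X] at this

theorem prod_ne (h : Gens (k := F) t) (m : Fin s →₀ ℕ) : ∏ i, t i ^ m i ≠ 0 :=
  Finset.prod_ne_zero_iff.2 fun i _ => pow_ne_zero _ (Gens.t_ne h i)

theorem aeval_terms (t : Fin s → K) (p : MvPolynomial (Fin s) F) :
    aeval t p = ∑ m ∈ p.support, algebraMap F K (p.coeff m) * ∏ i, t i ^ m i := by
  rw [MvPolynomial.aeval_def, MvPolynomial.eval₂_eq']

theorem der_prod {D : Derivation k K K} {c : Fin s → K} (hD : ∀ i, D (t i) = c i * t i)
    (m : Fin s →₀ ℕ) : D (∏ i, t i ^ m i) = (∑ i, (m i : K) * c i) * ∏ i, t i ^ m i := by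
  classical
  have key : ∀ S : Finset (Fin s), D (∏ i ∈ S, t i ^ m i) =
      (∑ i ∈ S, (m i : K) * c i) * ∏ i ∈ S, t i ^ m i := by
    intro S
    induction S using Finset.induction_on with
    | empty => simp
    | insert a S ha ih =>
      rw [Finset.prod_insert ha, Finset.sum_insert ha, D.leibniz, ih, smul_eq_mul, smul_eq_mul]
      have h1 : D (t a ^ m a) = (m a : K) * c a * t a ^ m a := by
        rw [D.leibniz_pow, hD, smul_eq_mul, nsmul_eq_mul]
        rcases Nat.eq_zero_or_pos (m a) with h | h
        · rw [h]; simp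
        · obtain ⟨n, hn⟩ := Nat.exists_eq_succ_of_ne_zero h.ne'
          rw [hn]
          simp only [Nat.succ_eq_add_one, Nat.add_sub_cancel]
          push_cast
          ring
      rw [h1]
      ring
  exact key _

section

variable {o : F → ℤ} {a : Fin s → ℤ} {P : Place k K}

theorem IsTor.term (h : Gens (k := F) t) (ho : PreOrd k o) (hP : IsTor o a t P) {c : F} (hc : c ≠ 0)
    (m : Fin s →₀ ℕ) : algebraMap F K c * ∏ i, t i ^ m i ≠ 0 ∧
      P.ord (algebraMap F K c * ∏ i, t i ^ m i) = o c + ∑ i, (m i : ℤ) * a i := by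
  have h1 : algebraMap F K c ≠ 0 := by rwa [Ne, map_eq_zero]
  have h2 := prod_ne h m
  refine ⟨mul_ne_zero h1 h2, ?_⟩
  rw [P.ord_mul h1 h2, hP.ordF hc]
  congr 1
  have : ∀ S : Finset (Fin s), P.ord (∏ i ∈ S, t i ^ m i) = ∑ i ∈ S, (m i : ℤ) * a i := by
    intro S
    classical
    induction S using Finset.induction_on with
    | empty => simp [P.ord_one]
    | insert a' S ha ih =>
      rw [Finset.prod_insert ha, Finset.sum_insert ha, P.ord_mul (pow_ne_zero _ (Gens.t_ne h a'))
        (Finset.prod_ne_zero_iff.2 fun i _ => pow_ne_zero _ (Gens.t_ne h i)), ih, P.ord_pow,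
        hP.ordt ho]
  exact this _

/-- a derivation which does not lower the orders of the terms is logarithmic -/
theorem derLog_of_tor (h : Gens (k := F) t) (ho : PreOrd k o) (hP : IsTor o a t P)
    (D : Derivation k K K) (hF : ∀ f : F, f ≠ 0 → Ge P (o f) (D (algebraMap F K f)))
    {c : Fin s → K} (hc : ∀ i, Ge P 0 (c i)) (hD : ∀ i, D (t i) = c i * t i) (z : K) :
    P.Reg (D z / z) := by
  by_cases hz : z = 0
  · left; rw [hz, div_zero]
  have key : ∀ p : MvPolynomial (Fin s) F, p ≠ 0 → Ge P 0 (D (aeval t p) / aeval t p) := by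
    intro p hp
    have hne := h.ne hp
    have h1 : Ge P (gval o a p) (D (aeval t p)) := by
      rw [aeval_terms, map_sum]
      refine Ge.sum _ _ fun m hm => ?_
      have hm' := MvPolynomial.mem_support_iff.1 hm
      obtain ⟨h2, h3⟩ := hP.term h ho hm' m
      have h4 := gval_le o a hm'
      rw [wt] at h4
      rw [D.leibniz, der_prod hD, smul_eq_mul, smul_eq_mul]
      have hpo : P.ord (∏ i, t i ^ m i) = ∑ i, (m i : ℤ) * a i := by
        have hone : o (1 : F) = 0 := by
          have := ho.const 1 one_ne_zero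
          rwa [map_one] at this
        have := (hP.term h ho (one_ne_zero (α := F)) m).2
        rwa [map_one, one_mul, hone, zero_add] at this
      refine Ge.add ?_ ?_
      · have h5 : Ge P 0 (∑ i, (m i : K) * c i) := Ge.sum _ _ fun i _ => by
          have := (Ge.natCast (P := P) (m i)).mul (hc i)
          simpa using this
        have h6 : Ge P (gval o a p) (algebraMap F K (coeff m p) * ∏ i, t i ^ m i) :=
          Or.inr (by rw [h3]; exact h4)
        have h7 := h5.mul h6
        rw [zero_add] at h7
        convert h7 using 1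
        ring
      · have h5' : Ge P (∑ i, (m i : ℤ) * a i) (∏ i, t i ^ m i) := Or.inr hpo.ge
        have h5 := h5'.mul (hF _ hm')
        exact h5.mono (by omega)
    have h2 : Ge P (gval o a p) (aeval t p * (D (aeval t p) / aeval t p)) := by
      rwa [mul_div_cancel₀ _ hne]
    have h3 := Ge.of_mul hne h2
    rwa [hP p hp, sub_self] at h3
  obtain ⟨A, B, hB, hzAB⟩ := h.gen z
  have hA : A ≠ 0 := by
    rintro rfl
    apply hz
    rw [hzAB, map_zero, zero_div]
  have h1 : D z / z = D (aeval t A) / aeval t A - D (aeval t B) / aeval t B := by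
    have hA' := h.ne hA
    have hB' := h.ne hB
    have h2 := dlog_mul D hA' (inv_ne_zero hB')
    have h3 := dlog_zpow D hB' (-1)
    rw [zpow_neg_one] at h3
    rw [hzAB, div_eq_mul_inv (aeval t A), h2, h3]
    push_cast
    ring
  rw [h1]
  exact (key A hA).sub (key B hB)

/-- the derivation which multiplies the terms by their orders -/
theorem der_ord (h : Gens (k := F) t) (ho : PreOrd k o) (hP : IsTor o a t P)
    (D : Derivation k K K)
    (hF : ∀ f : F, f ≠ 0 → Ge P (o f + 1) (D (algebraMap F K f) - (o f : K) * algebraMap F K f))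
    (hD : ∀ i, D (t i) = (a i : K) * t i) {z : K} (hz : z ≠ 0) :
    Ge P 1 (D z / z - (P.ord z : K)) := by
  have key : ∀ p : MvPolynomial (Fin s) F, p ≠ 0 →
      Ge P 1 (D (aeval t p) / aeval t p - (P.ord (aeval t p) : K)) := by
    intro p hp
    have hne := h.ne hp
    set g := gval o a p with hg
    have h1 : Ge P (g + 1) (D (aeval t p) - (g : K) * aeval t p) := by
      rw [aeval_terms, map_sum, Finset.mul_sum, ← Finset.sum_sub_distrib]
      refine Ge.sum _ _ fun m hm => ?_
      have hm' := MvPolynomial.mem_support_iff.1 hm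
      obtain ⟨h2, h3⟩ := hP.term h ho hm' m
      have h4 := gval_le o a hm'
      have hpo : P.ord (∏ i, t i ^ m i) = ∑ i, (m i : ℤ) * a i := by
        have hone : o (1 : F) = 0 := by
          have := ho.const 1 one_ne_zero
          rwa [map_one] at this
        have := (hP.term h ho (one_ne_zero (α := F)) m).2
        rwa [map_one, one_mul, hone, zero_add] at this
      rw [wt] at h4
      have h5 : D (algebraMap F K (coeff m p) * ∏ i, t i ^ m i) -
          (g : K) * (algebraMap F K (coeff m p) * ∏ i, t i ^ m i) =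
          (D (algebraMap F K (coeff m p)) - (o (coeff m p) : K) * algebraMap F K (coeff m p)) *
            (∏ i, t i ^ m i) +
          ((o (coeff m p) + ∑ i, (m i : ℤ) * a i - g : ℤ) : K) *
            (algebraMap F K (coeff m p) * ∏ i, t i ^ m i) := by
        rw [D.leibniz, der_prod hD, smul_eq_mul, smul_eq_mul]
        push_cast
        ring
      rw [h5]
      refine Ge.add ?_ ?_
      · have h6 := (hF _ hm').mul (Or.inr hpo.ge : Ge P (∑ i, (m i : ℤ) * a i) (∏ i, t i ^ m i))
        exact h6.mono (by omega)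
      · by_cases h7 : o (coeff m p) + ∑ i, (m i : ℤ) * a i = g
        · left
          rw [h7, sub_self]
          simp
        · have h8 := (Ge.intCast (P := P) (o (coeff m p) + ∑ i, (m i : ℤ) * a i - g)).mul
            (Or.inr h3.ge : Ge P (o (coeff m p) + ∑ i, (m i : ℤ) * a i)
              (algebraMap F K (coeff m p) * ∏ i, t i ^ m i))
          exact h8.mono (by omega)
    have h2 : Ge P (g + 1) (aeval t p * (D (aeval t p) / aeval t p - (P.ord (aeval t p) : K))) := by
      rw [hP p hp, mul_sub, mul_div_cancel₀ _ hne]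
      convert h1 using 1
      ring
    have h3 := Ge.of_mul hne h2
    rw [hP p hp] at h3 ⊢
    exact h3.mono (by omega)
  obtain ⟨A, B, hB, hzAB⟩ := h.gen z
  have hA : A ≠ 0 := by
    rintro rfl
    apply hz
    rw [hzAB, map_zero, zero_div]
  have hA' := h.ne hA
  have hB' := h.ne hB
  have h1 : D z / z = D (aeval t A) / aeval t A - D (aeval t B) / aeval t B := by
    have h2 := dlog_mul D hA' (inv_ne_zero hB')
    have h3 := dlog_zpow D hB' (-1)
    rw [zpow_neg_one] at h3
    rw [hzAB, div_eq_mul_inv (aeval t A), h2, h3]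
    push_cast
    ring
  have h2 : D z / z - (P.ord z : K) = (D (aeval t A) / aeval t A - (P.ord (aeval t A) : K)) -
      (D (aeval t B) / aeval t B - (P.ord (aeval t B) : K)) := by
    rw [h1]
    have h3 : P.ord z = P.ord (aeval t A) - P.ord (aeval t B) := by
      rw [hzAB, P.ord_div hA' hB']
    rw [h3]
    push_cast
    ring
  rw [h2]
  exact (key A hA).sub (key B hB)

/-- the regular vector field which is transversal to the toric place -/
theorem pres_inv (h : Gens (k := F) t) (ho : PreOrd k o) (hP : IsTor o a t P)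
    (D : Derivation k K K)
    (hF : ∀ f : F, f ≠ 0 → Ge P (o f + 1) (D (algebraMap F K f) - (o f : K) * algebraMap F K f))
    (hD : ∀ i, D (t i) = (a i : K) * t i) {π : K} (hπ : P.ord π = 1) :
    Pres P (π⁻¹ • D) := by
  intro f hf
  have hπ0 : π ≠ 0 := by
    rintro rfl
    rw [P.ord_zero] at hπ
    omega
  by_cases hf0 : f = 0
  · rw [hf0, map_zero]
    exact P.reg_zero
  have hfo : 0 ≤ P.ord f := (P.reg_iff hf0).1 hf
  have h1 := der_ord h ho hP D hF hD hf0
  have h2 : Ge P 1 (D f) := by
    have h3 : D f = f * (D f / f - (P.ord f : K)) + (P.ord f : K) * f := by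
      field_simp
      ring
    rw [h3]
    refine Ge.add ?_ ?_
    · have h5 : Ge P 0 f := Or.inr hfo
      exact (h5.mul h1).mono (by omega)
    · by_cases h4 : P.ord f = 0
      · left
        rw [h4]
        simp
      · have h5 : Ge P (P.ord f) f := Or.inr le_rfl
        exact ((Ge.intCast (P := P) (P.ord f)).mul h5).mono (by omega)
  change P.Reg (π⁻¹ * D f)
  have h3 : Ge P (-1) π⁻¹ := Or.inr (by rw [P.ord_inv, hπ])
  have h4 : Ge P 0 (π⁻¹ * D f) := (h3.mul h2).mono (by omega)
  exact h4

end

/-- the place of an irreducible polynomial -/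
theorem pres_adic (h : Gens (k := F) t) {p : MvPolynomial (Fin s) F} (hp : Irreducible p)
    {v : Place k K} (hv : ∀ P, P ≠ 0 → 0 ≤ v.ord (aeval t P) ∧ (v.ord (aeval t P) = 0 ↔ ¬ p ∣ P))
    (D : Derivation k K K) (hD : ∀ P : MvPolynomial (Fin s) F, ∃ Q : MvPolynomial (Fin s) F,
      D (aeval t P) = aeval t Q) : Pres v D := by
  intro z hz
  by_cases hz0 : z = 0
  · rw [hz0, map_zero]
    exact v.reg_zero
  obtain ⟨P0, Q0, hQ0, hz1⟩ := h.gen z
  obtain ⟨P, Q, hQ, hcop, hz2⟩ : ∃ P Q : MvPolynomial (Fin s) F, Q ≠ 0 ∧ IsRelPrime P Q ∧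
      z = aeval t P / aeval t Q := by
    obtain ⟨a', b', c', hcop, ha, hb⟩ :=
      UniqueFactorizationMonoid.exists_reduced_factors' P0 Q0 hQ0
    refine ⟨a', b', ?_, hcop, ?_⟩
    · rintro rfl
      apply hQ0
      rw [← hb, mul_zero]
    · have hc' : c' ≠ 0 := by
        rintro rfl
        apply hQ0
        rw [← hb, zero_mul]
      have hcX := h.ne hc'
      rw [hz1, ← ha, ← hb, map_mul, map_mul, mul_div_mul_left _ _ hcX]
  have hP : P ≠ 0 := by
    intro h0
    apply hz0
    rw [hz2, h0, map_zero, zero_div]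
  have hpQ : ¬ p ∣ Q := by
    intro hpQ
    have hpP : ¬ p ∣ P := fun hpP => hp.not_isUnit (hcop hpP hpQ)
    have h2 := (hv P hP).2.2 hpP
    have h3 : 0 < v.ord (aeval t Q) := by
      have h4 := hv Q hQ
      rcases lt_or_eq_of_le h4.1 with h5 | h5
      · exact h5
      · exact absurd hpQ (h4.2.1 h5.symm)
    have h1 := hz
    rw [v.reg_iff hz0, hz2, v.ord_div (h.ne hP) (h.ne hQ), h2] at h1
    omega
  have hQ0' := (hv Q hQ).2.2 hpQ
  have hQne := h.ne hQ
  have hPne := h.ne hP
  have hpol : ∀ R : MvPolynomial (Fin s) F, v.Reg (aeval t R) := by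
    intro R
    by_cases hR : R = 0
    · rw [hR, map_zero]; exact v.reg_zero
    · exact Or.inr (hv R hR).1
  obtain ⟨P', hP'⟩ := hD P
  obtain ⟨Q', hQ'⟩ := hD Q
  have h1 : D z = (aeval t (P' * Q - P * Q')) * (aeval t Q)⁻¹ ^ 2 := by
    have h2 : D z = z * (D (aeval t P) / aeval t P - D (aeval t Q) / aeval t Q) := by
      have h3 := dlog_mul D hPne (inv_ne_zero hQne)
      have h4 := dlog_zpow D hQne (-1)
      rw [zpow_neg_one] at h4
      rw [h4, ← div_eq_mul_inv, ← hz2] at h3
      rw [div_eq_iff hz0] at h3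
      rw [h3]
      push_cast
      ring
    rw [h2, hP', hQ', hz2, map_sub, map_mul, map_mul]
    field_simp
  rw [h1]
  refine v.reg_mul (hpol _) ?_
  right
  rw [v.ord_pow, v.ord_inv, hQ0']
  simp

/-- a place trivial on `F`, as a place trivial on `k` -/
def restr (v : Place F K) : Place k K where
  ord := v.ord
  ord_zero := v.ord_zero
  ord_mul := v.ord_mul
  ord_add := v.ord_add
  ord_const := by
    intro c hc
    rw [IsScalarTower.algebraMap_apply k F K]
    exact v.ord_const (by rwa [Ne, map_eq_zero])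
  surj := v.surj

/-- the derivations of `K` -/
theorem exists_ext [CharZero k] (h : Gens (k := F) t) {d : ℕ} {y : Fin d → F}
    (hy : IsTranscendenceBasis k y) {E : Fin d → Derivation k F F}
    (hE : ∀ i j, E i (y j) = if i = j then 1 else 0) :
    ∃ (Et : Fin d → Derivation k K K) (θ : Fin s → Derivation k K K),
      (∀ i (f : F), Et i (algebraMap F K f) = algebraMap F K (E i f)) ∧ (∀ i l, Et i (t l) = 0) ∧
      (∀ l (f : F), θ l (algebraMap F K f) = 0) ∧
      (∀ l j, θ l (t j) = if l = j then t j else 0) := by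
  classical
  have hbt : IsTranscendenceBasis F t := by
    rw [h.ind.isTranscendenceBasis_iff_isAlgebraic]
    refine alg_adjoin fun z => ?_
    obtain ⟨A, B, hB, hz⟩ := h.gen z
    have h1 : z ∈ IntermediateField.adjoin F (Set.range t) := by
      rw [IntermediateField.mem_adjoin_range_iff]
      exact ⟨A, B, hz⟩
    exact isAlgebraic_algebraMap (⟨z, h1⟩ : IntermediateField.adjoin F (Set.range t))
  have hb := hy.sumElim_comp hbt
  choose G hG using fun j : Fin s ⊕ Fin d => exists_dual (k := k) _ hb j
  have hGy : ∀ i j, G (Sum.inr i) (algebraMap F K (y j)) = if i = j then 1 else 0 := by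
    intro i j
    have := hG (Sum.inr i) (Sum.inr j)
    simp only [Sum.elim_inr, Function.comp_apply, Sum.inr.injEq] at this
    rw [this]
    by_cases hij : i = j
    · subst hij; simp
    · rw [if_neg hij, if_neg (Ne.symm hij)]
  have hGyl : ∀ l j, G (Sum.inl l) (algebraMap F K (y j)) = 0 := by
    intro l j
    have := hG (Sum.inl l) (Sum.inr j)
    simpa using this
  refine ⟨fun i => G (Sum.inr i), fun l => t l • G (Sum.inl l), fun i f => ?_, fun i l => ?_,
    fun l f => ?_, fun l j => ?_⟩
  · have h1 := der_zero (((G (Sum.inr i)).compAlgebraMap F) -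
      ((Algebra.linearMap F K).compDer (E i))) y hy (fun j => by
        change G (Sum.inr i) (algebraMap F K (y j)) - algebraMap F K (E i (y j)) = 0
        rw [hGy, hE]
        by_cases hij : i = j
        · simp [hij]
        · simp [hij]) f
    change G (Sum.inr i) (algebraMap F K f) - algebraMap F K (E i f) = 0 at h1
    exact sub_eq_zero.1 h1
  · have := hG (Sum.inr i) (Sum.inl l)
    simpa using this
  · have h1 := der_zero ((G (Sum.inl l)).compAlgebraMap F) y hy (fun j => hGyl l j) f
    change t l * G (Sum.inl l) (algebraMap F K f) = 0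
    change G (Sum.inl l) (algebraMap F K f) = 0 at h1
    rw [h1, mul_zero]
  · change t l * G (Sum.inl l) (t j) = _
    have := hG (Sum.inl l) (Sum.inl j)
    simp only [Sum.elim_inl, Sum.inl.injEq] at this
    rw [this]
    by_cases hlj : l = j
    · subst hlj; simp
    · rw [if_neg hlj, if_neg (Ne.symm hlj), mul_zero]

end Pool.Agent.H40.TB
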