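import Pool.Agent.H40.TB.Der
import Pool.Graph.R_seed8.W602.GT.KDefs

/-!
Toric and adic places are prime divisors.
-/

set_option autoImplicit false
set_option linter.unusedSectionVars false
set_option linter.overlappingInstances false

open FF MvPolynomial Pool.Agent.W603.LV Pool.Agent.TH122.AB Pool.Agent.W619.PQ Pool.Agent.W619.TW
  Pool.Agent.W602.GT

namespace Pool.Agent.H40.TB

variable {k F K : Type} [Field k] [Field F] [Field K] [Algebra k F] [Algebra k K] [Algebra F K]
  [IsScalarTower k F K] {s : ℕ} {t : Fin s → K}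

theorem divisorial_of (P : Place k K) {w : ℕ} {ι : Type} [Fintype ι] (hc : Fintype.card ι = w - 1)
    (u : ι → K) (h : ∀ G : MvPolynomial ι k, G ≠ 0 → aeval u G ≠ 0 ∧ P.ord (aeval u G) = 0) :
    Divisorial w P := by
  let e : Fin (w - 1) ≃ ι := (finCongr hc.symm).trans (Fintype.equivFin ι).symm
  refine ⟨u ∘ e, fun G hG => ?_⟩
  have h1 : aeval (u ∘ e) G = aeval u (rename e G) := by rw [aeval_rename]
  rw [h1]
  exact h _ (by
    intro h0
    apply hG
    exact rename_injective e e.injective (by rw [h0, map_zero]))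

/-- the transcendence basis of `K` -/
theorem basis_all (h : Gens (k := F) t) {d : ℕ} {y : Fin d → F} (hy : IsTranscendenceBasis k y) :
    IsTranscendenceBasis k (Sum.elim t (algebraMap F K ∘ y)) := by
  have hbt : IsTranscendenceBasis F t := by
    rw [h.ind.isTranscendenceBasis_iff_isAlgebraic]
    refine alg_adjoin fun z => ?_
    obtain ⟨A, B, hB, hz⟩ := h.gen z
    have h1 : z ∈ IntermediateField.adjoin F (Set.range t) := by
      rw [IntermediateField.mem_adjoin_range_iff]
      exact ⟨A, B, hz⟩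
    exact isAlgebraic_algebraMap (⟨z, h1⟩ : IntermediateField.adjoin F (Set.range t))
  exact hy.sumElim_comp hbt

/-- polynomials without the variable `l` -/
theorem no_var (h : Gens (k := F) t) {d : ℕ} {y : Fin d → F} (hy : IsTranscendenceBasis k y)
    (l : Fin s) {G : MvPolynomial ({j : Fin s // j ≠ l} ⊕ Fin d) k} (hG : G ≠ 0) :
    ∃ G' : MvPolynomial (Fin s) F, G' ≠ 0 ∧
      aeval (Sum.elim (fun j : {j : Fin s // j ≠ l} => t j.1) (algebraMap F K ∘ y)) G = aeval t G' ∧
      ∀ m, G'.coeff m ≠ 0 → m l = 0 := by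
  classical
  have hb := basis_all h hy
  set u : {j : Fin s // j ≠ l} ⊕ Fin d → K :=
    Sum.elim (fun j : {j : Fin s // j ≠ l} => t j.1) (algebraMap F K ∘ y) with hu
  have hind : AlgebraicIndependent k u := by
    have h1 := hb.1.comp (Sum.map (fun j : {j : Fin s // j ≠ l} => j.1) (id : Fin d → Fin d)) (by
      exact Sum.map_injective.2 ⟨Subtype.val_injective, Function.injective_id⟩)
    have h2 : Sum.elim t (algebraMap F K ∘ y) ∘
        (Sum.map (fun j : {j : Fin s // j ≠ l} => j.1) (id : Fin d → Fin d)) = u := by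
      funext i
      rcases i with i | i <;> simp [hu]
    rwa [h2] at h1
  let φ : MvPolynomial ({j : Fin s // j ≠ l} ⊕ Fin d) k →ₐ[k] MvPolynomial (Fin s) F :=
    aeval (Sum.elim (fun j : {j : Fin s // j ≠ l} => (X j.1 : MvPolynomial (Fin s) F))
      (fun i => C (y i)))
  have hφ : ∀ G, aeval u G = aeval t (φ G) := by
    intro G
    have h1 : (aeval u : MvPolynomial ({j : Fin s // j ≠ l} ⊕ Fin d) k →ₐ[k] K) =
        ((aeval t : MvPolynomial (Fin s) F →ₐ[F] K).restrictScalars k).comp φ := by
      apply MvPolynomial.algHom_ext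
      intro i
      rcases i with i | i
      · simp [φ, hu]
      · simp [φ, hu]
    rw [h1]
    rfl
  have hne : aeval u G ≠ 0 := fun h0 => hG (hind (by rw [h0, map_zero]))
  refine ⟨φ G, ?_, hφ G, ?_⟩
  · intro h0
    apply hne
    rw [hφ, h0, map_zero]
  · have hmem : ∀ G, φ G ∈ MvPolynomial.supported F ({l}ᶜ : Set (Fin s)) := by
      intro G
      induction G using MvPolynomial.induction_on with
      | C a =>
        have : φ (C a) = algebraMap F (MvPolynomial (Fin s) F) (algebraMap k F a) := by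
          simp only [φ, aeval_C]
          rw [IsScalarTower.algebraMap_apply k F (MvPolynomial (Fin s) F)]
        rw [this]
        exact Subalgebra.algebraMap_mem _ _
      | add p q hp hq => rw [map_add]; exact add_mem hp hq
      | mul_X p i hp =>
        rw [map_mul]
        refine mul_mem hp ?_
        rcases i with i | i
        · have : φ (X (Sum.inl i)) = X i.1 := by simp [φ]
          rw [this]
          exact MvPolynomial.X_mem_supported.2 i.2
        · have : φ (X (Sum.inr i)) = algebraMap F (MvPolynomial (Fin s) F) (y i) := by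
            simp [φ, MvPolynomial.algebraMap_eq]
          rw [this]
          exact Subalgebra.algebraMap_mem _ _
    intro m hm
    by_contra hml
    have h1 := MvPolynomial.mem_supported.1 (hmem G)
    have h2 : l ∈ (φ G).vars := by
      rw [MvPolynomial.mem_vars_iff_mem_support]
      exact ⟨m, MvPolynomial.mem_support_iff.2 hm, Finsupp.mem_support_iff.2 hml⟩
    exact h1 h2 rfl

theorem card_ne (l : Fin s) (d : ℕ) :
    Fintype.card ({j : Fin s // j ≠ l} ⊕ Fin d) = d + s - 1 := by
  classical
  rw [Fintype.card_sum, Fintype.card_subtype_compl, Fintype.card_fin, Fintype.card_fin,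
    Fintype.card_unique]
  have := l.pos
  omega

/-- horizontal toric places -/
theorem divisorial_hor (h : Gens (k := F) t) {d : ℕ} {y : Fin d → F}
    (hy : IsTranscendenceBasis k y) (l : Fin s) {a : Fin s → ℤ} (ha : ∀ j, j ≠ l → a j = 0)
    {P : Place k K} (hP : IsTor (fun _ : F => (0 : ℤ)) a t P) : Divisorial (d + s) P := by
  refine divisorial_of P (card_ne l d)
    (Sum.elim (fun j : {j : Fin s // j ≠ l} => t j.1) (algebraMap F K ∘ y)) fun G hG => ?_
  obtain ⟨G', hG', h1, h2⟩ := no_var h hy l hG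
  rw [h1]
  refine ⟨h.ne hG', ?_⟩
  rw [hP G' hG']
  have hw : ∀ m, G'.coeff m ≠ 0 → wt (fun _ => 0) a G' m = 0 := by
    intro m hm
    rw [wt, zero_add]
    refine Finset.sum_eq_zero fun j _ => ?_
    by_cases hj : j = l
    · rw [hj, h2 m hm]
      simp
    · rw [ha j hj, mul_zero]
  obtain ⟨m, hm, -⟩ := gval_mem (fun _ => (0 : ℤ)) a hG'
  exact gval_eq _ _ hm (hw m hm) fun m hm => (hw m hm).ge

/-- adic places -/
theorem divisorial_adic (h : Gens (k := F) t) {d : ℕ} {y : Fin d → F}
    (hy : IsTranscendenceBasis k y) {p : MvPolynomial (Fin s) F} (hp : Irreducible p)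
    {v : Place k K} (hv : ∀ P, P ≠ 0 → 0 ≤ v.ord (aeval t P) ∧ (v.ord (aeval t P) = 0 ↔ ¬ p ∣ P)) :
    Divisorial (d + s) v := by
  classical
  -- a variable in `p`
  obtain ⟨m, hm, l, hl⟩ : ∃ m, p.coeff m ≠ 0 ∧ ∃ l, m l ≠ 0 := by
    by_contra hcon
    push Not at hcon
    have h1 : p = C (p.coeff 0) := by
      apply MvPolynomial.ext
      intro m
      rw [MvPolynomial.coeff_C]
      by_cases h0 : (0 : Fin s →₀ ℕ) = m
      · rw [if_pos h0, h0]
      · rw [if_neg h0]
        by_contra h2
        exact h0 (Finsupp.ext fun l => (hcon m h2 l).symm)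
    apply hp.not_isUnit
    rw [h1]
    have h2 : p.coeff 0 ≠ 0 := by
      intro h0
      apply hp.ne_zero
      rw [h1, h0, C_0]
    exact (isUnit_iff_ne_zero.2 h2).map C
  refine divisorial_of v (card_ne l d)
    (Sum.elim (fun j : {j : Fin s // j ≠ l} => t j.1) (algebraMap F K ∘ y)) fun G hG => ?_
  obtain ⟨G', hG', h1, h2⟩ := no_var h hy l hG
  rw [h1]
  refine ⟨h.ne hG', (hv G' hG').2.2 ?_⟩
  rintro ⟨R, hR⟩
  have hR0 : R ≠ 0 := by
    rintro rfl
    exact hG' (by rw [hR, mul_zero])
  have ho : PreOrd F (fun _ : F => (0 : ℤ)) := ⟨fun _ _ _ _ => rfl, fun _ _ _ _ _ => by simp,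
    fun _ _ => rfl⟩
  let a : Fin s → ℤ := fun j => if j = l then -1 else 0
  have hw : ∀ (q : MvPolynomial (Fin s) F) (m : Fin s →₀ ℕ), wt (fun _ => 0) a q m = -(m l : ℤ) := by
    intro q m
    rw [wt, zero_add, Finset.sum_eq_single l]
    · simp [a]
    · intro j _ hj
      simp [a, hj]
    · simp
  have h3 := gval_mul (k := F) ho a hp.ne_zero hR0
  rw [← hR] at h3
  obtain ⟨m1, hm1, h4⟩ := gval_mem (fun _ => (0 : ℤ)) a hG'
  rw [h4, hw, h2 m1 hm1] at h3
  have h5 := gval_le (fun _ => (0 : ℤ)) a hm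
  rw [hw] at h5
  obtain ⟨m2, hm2, h6⟩ := gval_mem (fun _ => (0 : ℤ)) a hR0
  rw [hw] at h6
  omega

/-- vertical toric places -/
theorem divisorial_ver (h : Gens (k := F) t) {d : ℕ} (hd : 0 < d) {v : Place k F}
    (hv : Divisorial d v) {e : ℕ} (he : 0 < e) {a : Fin s → ℤ}
    {P : Place k K} (hP : IsTor (fun f => (e : ℤ) * v.ord f) a t P) : Divisorial (d + s) P := by
  classical
  obtain ⟨u, hu⟩ := hv
  obtain ⟨π, hπ0, hπ⟩ := v.surj
  have hoe : (0 : ℤ) < e := by exact_mod_cast he
  let U : Fin s ⊕ Fin (d - 1) → K := Sum.elim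
    (fun l => t l ^ e * algebraMap F K (π ^ (-(a l)))) (algebraMap F K ∘ u)
  refine divisorial_of P (ι := Fin s ⊕ Fin (d - 1)) (by
    rw [Fintype.card_sum, Fintype.card_fin, Fintype.card_fin]
    omega) U fun G hG => ?_
  let H : MvPolynomial (Fin s) (MvPolynomial (Fin (d - 1)) k) :=
    MvPolynomial.sumAlgEquiv k (Fin s) (Fin (d - 1)) G
  have hH0 : H ≠ 0 := by
    intro h0
    apply hG
    exact (MvPolynomial.sumAlgEquiv k (Fin s) (Fin (d - 1))).injective (by
      rw [map_zero]; exact h0)
  have hUH : aeval U G = ∑ n ∈ H.support, algebraMap F K (aeval u (H.coeff n)) *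
      ∏ l, (t l ^ e * algebraMap F K (π ^ (-(a l)))) ^ n l := by
    have h1 : ∀ G : MvPolynomial (Fin s ⊕ Fin (d - 1)) k, aeval U G =
        eval₂ ((algebraMap F K).comp ((aeval u : MvPolynomial (Fin (d - 1)) k →ₐ[k] F) :
          MvPolynomial (Fin (d - 1)) k →+* F))
          (fun l => t l ^ e * algebraMap F K (π ^ (-(a l))))
          (MvPolynomial.sumAlgEquiv k (Fin s) (Fin (d - 1)) G) := by
      intro G
      induction G using MvPolynomial.induction_on with
      | C c =>
        rw [aeval_C]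
        rw [MvPolynomial.sumAlgEquiv_C_inl, eval₂_C]
        simp [IsScalarTower.algebraMap_apply k F K]
      | add p q hp hq => rw [map_add, map_add, eval₂_add, hp, hq]
      | mul_X p i hp =>
        rw [map_mul, map_mul, eval₂_mul, hp, aeval_X]
        congr 1
        rcases i with i | i
        · rw [MvPolynomial.sumAlgEquiv_X_inl, eval₂_X]
          rfl
        · rw [MvPolynomial.sumAlgEquiv_X_inr, eval₂_C]
          simp [U]
    rw [h1, eval₂_eq']
    rfl
  -- the polynomial in `t`
  let Q : MvPolynomial (Fin s) F := ∑ n ∈ H.support,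
    monomial (e • n) (aeval u (H.coeff n) * π ^ (-(∑ l, (n l : ℤ) * a l)))
  have hQ : aeval U G = aeval t Q := by
    rw [hUH, map_sum]
    refine Finset.sum_congr rfl fun n _ => ?_
    rw [aeval_monomial, Finsupp.prod_fintype _ _ (fun i => by rw [pow_zero])]
    have h1 : ∏ l, (t l ^ e * algebraMap F K (π ^ (-(a l)))) ^ n l =
        (∏ l, t l ^ (e * n l)) * algebraMap F K (π ^ (-(∑ l, (n l : ℤ) * a l))) := by
      have h2 : π ^ (-(∑ l, (n l : ℤ) * a l)) = ∏ l, (π ^ (-(a l))) ^ n l := by
        rw [← Finset.sum_neg_distrib]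
        have h3 : ∀ S : Finset (Fin s), π ^ (∑ l ∈ S, -((n l : ℤ) * a l)) =
            ∏ l ∈ S, (π ^ (-(a l))) ^ n l := by
          intro S
          induction S using Finset.induction_on with
          | empty => simp
          | insert b S hb ih =>
            rw [Finset.sum_insert hb, Finset.prod_insert hb, zpow_add₀ hπ0, ih]
            congr 1
            rw [← zpow_natCast, ← zpow_mul]
            congr 1
            ring
        exact h3 _
      rw [h2, map_prod, ← Finset.prod_mul_distrib]
      refine Finset.prod_congr rfl fun l _ => ?_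
      rw [mul_pow, map_pow, ← pow_mul]
    rw [h1, map_mul]
    have h4 : ∀ l, (e • n) l = e * n l := fun l => by simp
    simp only [h4]
    ring
  have hcoef : ∀ n, Q.coeff (e • n) = if n ∈ H.support then
      aeval u (H.coeff n) * π ^ (-(∑ l, (n l : ℤ) * a l)) else 0 := by
    intro n
    simp only [Q]
    rw [MvPolynomial.coeff_sum]
    have hinj : ∀ n' : Fin s →₀ ℕ, (e • n' = e • n) ↔ n' = n := by
      intro n'
      constructor
      · intro h1
        ext l
        have h2 := DFunLike.congr_fun h1 l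
        simp only [Finsupp.smul_apply, smul_eq_mul] at h2
        exact Nat.eq_of_mul_eq_mul_left he h2
      · rintro rfl; rfl
    by_cases hn : n ∈ H.support
    · rw [if_pos hn, Finset.sum_eq_single n]
      · rw [MvPolynomial.coeff_monomial, if_pos rfl]
      · intro n' _ hn'
        rw [MvPolynomial.coeff_monomial, if_neg]
        intro h1
        exact hn' ((hinj n').1 h1)
      · intro h1; exact absurd hn h1
    · rw [if_neg hn]
      refine Finset.sum_eq_zero fun n' hn' => ?_
      rw [MvPolynomial.coeff_monomial, if_neg]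
      intro h1
      exact hn (((hinj n').1 h1) ▸ hn')
  have hsupp : ∀ m, Q.coeff m ≠ 0 → ∃ n ∈ H.support, m = e • n := by
    intro m hm
    by_contra hcon
    push Not at hcon
    apply hm
    simp only [Q]
    rw [MvPolynomial.coeff_sum]
    refine Finset.sum_eq_zero fun n hn => ?_
    rw [MvPolynomial.coeff_monomial, if_neg]
    intro h1
    exact hcon n hn h1.symm
  have hterm : ∀ n ∈ H.support, aeval u (H.coeff n) * π ^ (-(∑ l, (n l : ℤ) * a l)) ≠ 0 ∧
      wt (fun f => (e : ℤ) * v.ord f) a Q (e • n) = 0 := by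
    intro n hn
    obtain ⟨h1, h2⟩ := hu (H.coeff n) (MvPolynomial.mem_support_iff.1 hn)
    have h3 := zpow_ne_zero (-(∑ l, (n l : ℤ) * a l)) hπ0
    refine ⟨mul_ne_zero h1 h3, ?_⟩
    rw [wt, hcoef, if_pos hn]
    rw [v.ord_mul h1 h3, h2, v.ord_zpow, hπ]
    have h4 : ∑ i, (((e • n) i : ℕ) : ℤ) * a i = e * ∑ i, (n i : ℤ) * a i := by
      rw [Finset.mul_sum]
      refine Finset.sum_congr rfl fun i _ => ?_
      simp only [Finsupp.smul_apply, smul_eq_mul]
      push_cast
      ring
    rw [h4]
    ring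
  obtain ⟨n0, hn0⟩ : H.support.Nonempty :=
    Finset.nonempty_iff_ne_empty.2 (by rwa [Ne, MvPolynomial.support_eq_empty])
  have hQ0 : Q.coeff (e • n0) ≠ 0 := by
    rw [hcoef, if_pos hn0]
    exact (hterm n0 hn0).1
  have hQne : Q ≠ 0 := by
    intro h0
    apply hQ0
    rw [h0, MvPolynomial.coeff_zero]
  rw [hQ]
  refine ⟨h.ne hQne, ?_⟩
  rw [hP Q hQne]
  refine gval_eq _ _ hQ0 (hterm n0 hn0).2 fun m hm => ?_
  obtain ⟨n, hn, rfl⟩ := hsupp m hm
  rw [(hterm n hn).2]

end Pool.Agent.H40.TB
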