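import Pool.Agent.H40.TB.Up

/-!
All the sections on `K = F(t)` come from `F`.
-/

set_option autoImplicit false
set_option linter.unusedSectionVars false
set_option linter.overlappingInstances false

open FF MvPolynomial Pool.Agent.W603.LV Pool.Agent.TH122.AB Pool.Agent.W619.PQ Pool.Agent.W619.TW
  Pool.Agent.W602.GT

namespace Pool.Agent.H40.TB

variable {k F K : Type} [Field k] [CharZero k] [Field F] [Field K] [Algebra k F] [Algebra k K]
  [Algebra F K] [IsScalarTower k F K] {s d : ℕ} {t : Fin s → K}

theorem matK_update' (b : Fin d → F) (D : Fin d ⊕ Fin s → Derivation k K K) (i : Fin d ⊕ Fin s)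
    (c : K) : (matK b t (Function.update D i (c • D i))).det = c * (matK b t D).det := by
  classical
  have h1 := matK_update (t := t) b D i (Pi.single i c)
  rw [Pi.single_eq_same] at h1
  rw [← h1]
  congr 3
  rw [Finset.sum_eq_single i]
  · rw [Pi.single_eq_same]
  · intro j _ hj
    rw [Pi.single_eq_of_ne hj, zero_smul]
  · simp

theorem poly_der (D : Derivation k K K)
    (h1 : ∀ f : F, ∃ Q : MvPolynomial (Fin s) F, D (algebraMap F K f) = aeval t Q)
    (h2 : ∀ l, ∃ Q : MvPolynomial (Fin s) F, D (t l) = aeval t Q) (A : MvPolynomial (Fin s) F) :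
    ∃ Q : MvPolynomial (Fin s) F, D (aeval t A) = aeval t Q := by
  induction A using MvPolynomial.induction_on with
  | C a => rw [aeval_C]; exact h1 a
  | add p q hp hq =>
    obtain ⟨P, hP⟩ := hp
    obtain ⟨Q, hQ⟩ := hq
    exact ⟨P + Q, by rw [map_add, map_add, hP, hQ, map_add]⟩
  | mul_X p i hp =>
    obtain ⟨P, hP⟩ := hp
    obtain ⟨Q, hQ⟩ := h2 i
    refine ⟨p * Q + X i * P, ?_⟩
    rw [map_mul, aeval_X, D.leibniz, hP, hQ, map_add, map_mul, map_mul, aeval_X, smul_eq_mul,
      smul_eq_mul]

theorem derReg_of_log' {P : Place k K} {D : Derivation k K K} (h : ∀ z, P.Reg (D z / z)) :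
    DerReg P D := by
  intro f hf
  by_cases h0 : f = 0
  · rw [h0, map_zero]
    exact P.reg_zero
  · have h3 := P.reg_mul (h f) hf
    rwa [div_mul_cancel₀ _ h0] at h3

theorem preord_zero : PreOrd k (fun _ : F => (0 : ℤ)) :=
  ⟨fun _ _ _ _ => rfl, fun _ _ _ _ _ => by simp, fun _ _ => rfl⟩

/-- The function is in `F`. -/
theorem mem_F (h : Gens (k := F) t) {b : Fin d → F} (hb : IsTranscendenceBasis k b)
    {E : Fin d → Derivation k F F} (hE : ∀ i j, E i (b j) = if i = j then 1 else 0) {m : ℕ}
    {δF : Place k F → ℚ} {δK : Place k K → ℚ} (hG : Good t d δF δK) {z : K}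
    (hz : SecH (d + s) m δK (matK b t) z) : ∃ c : F, z = algebraMap F K c := by
  classical
  have hm0 : (0 : ℚ) ≤ m := by positivity
  obtain ⟨Et, θ, h1, h2, h3, h4⟩ := exists_ext h hb hE
  have hdet : (matK b t (Sum.elim Et θ)).det = 1 := by
    rw [matK_frame h b h1 h2 h3 h4, mat_dual hE, Matrix.det_one, map_one]
  obtain ⟨B, hB⟩ : ∃ B : MvPolynomial (Fin s) F, z = aeval t B := by
    refine poly_of_reg h fun p hp v hvp hv => ?_
    set P : Place k K := restr v with hPdef
    have hT : ∀ f : F, f ≠ 0 → P.ord (algebraMap F K f) = 0 := fun f hf => v.ord_const hf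
    have hdiv : Divisorial (d + s) P := divisorial_adic (v := P) h hb hp hv
    have hEt : ∀ i, DerReg P (Et i) := fun i => pres_adic (v := P) h hp hv (Et i)
      (poly_der (Et i) (fun f => ⟨C (E i f), by rw [h1, aeval_C]⟩) (fun l => ⟨0, by
        rw [h2, map_zero]⟩))
    have hθ : ∀ l, DerReg P (θ l) := fun l => pres_adic (v := P) h hp hv (θ l)
      (poly_der (θ l) (fun f => ⟨0, by rw [h3, map_zero]⟩) (fun j => ⟨if l = j then X j else 0, by
        rw [h4]; split_ifs <;> simp⟩))
    by_cases hX : ∃ l, p ∣ (X l : MvPolynomial (Fin s) F)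
    · obtain ⟨l, hl⟩ := hX
      have hto : 1 ≤ P.ord (t l) := by
        have h5 := hv (X l) (X_ne_zero l)
        rw [aeval_X] at h5
        have h6 : P.ord (t l) ≠ 0 := fun h0 => h5.2.1 h0 hl
        have h7 : 0 ≤ P.ord (t l) := h5.1
        omega
      have htl := Gens.t_ne h l
      have hl' : DerReg P ((t l)⁻¹ • θ l) := pres_adic (v := P) h hp hv _
        (poly_der _ (fun f => ⟨0, by
          change (t l)⁻¹ * θ l (algebraMap F K f) = _
          rw [h3, mul_zero, map_zero]⟩) (fun j => ⟨if l = j then 1 else 0, by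
          change (t l)⁻¹ * θ l (t j) = _
          rw [h4]
          split_ifs with hlj
          · subst hlj
            rw [inv_mul_cancel₀ htl, map_one]
          · simp⟩))
      have h5 := hz P hdiv (Function.update (Sum.elim Et θ) (Sum.inr l)
        ((t l)⁻¹ • (Sum.elim Et θ : Fin d ⊕ Fin s → Derivation k K K) (Sum.inr l))) (by
          intro j
          by_cases hj : j = Sum.inr l
          · subst hj
            rw [Function.update_self]
            exact hl'
          · rw [Function.update_of_ne hj]
            rcases j with j | j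
            · exact hEt j
            · exact hθ j)
      rw [matK_update', hdet, mul_one, mul_comm z] at h5
      have h6 := GeQ.of_mul (pow_ne_zero m (inv_ne_zero htl)) h5
      rw [P.ord_pow, P.ord_inv] at h6
      have h7 := (hG.hor P hT).1
      have h8 : GeQ P 0 z := h6.mono (by
        push_cast
        have h9 : (1 : ℚ) ≤ P.ord (t l) := by exact_mod_cast hto
        have h10 := mul_le_mul_of_nonneg_left h7 hm0
        have h11 := mul_le_mul_of_nonneg_left h9 hm0
        linarith)
      rcases h8 with h8 | h8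
      · exact Or.inl h8
      · exact Or.inr (by exact_mod_cast h8)
    · push Not at hX
      have hto : ∀ l, P.ord (t l) = 0 := by
        intro l
        have h5 := hv (X l) (X_ne_zero l)
        rw [aeval_X] at h5
        exact h5.2.2 (hX l)
      have h5 := hz P hdiv (Sum.elim Et θ) (by
        intro j
        rcases j with j | j
        · exact hEt j
        · exact hθ j)
      rw [hdet, one_pow, mul_one] at h5
      have h7 := (hG.hor P hT).2 hto
      have h8 : GeQ P 0 z := h5.mono (by
        have h10 := mul_le_mul_of_nonneg_left h7 hm0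
        linarith)
      rcases h8 with h8 | h8
      · exact Or.inl h8
      · exact Or.inr (by exact_mod_cast h8)
  by_cases hB0 : B = 0
  · exact ⟨0, by rw [hB, hB0, map_zero, map_zero]⟩
  have hdeg : ∀ (l : Fin s) (n : Fin s →₀ ℕ), B.coeff n ≠ 0 → n l = 0 := by
    intro l n hn
    let a : Fin s → ℤ := fun j => if j = l then -1 else 0
    have ho := preord_zero (k := k) (F := F)
    obtain ⟨P, hP⟩ := exists_tor (K := K) h ho a ⟨1, X l, one_ne_zero, X_ne_zero l, by
      rw [gval_X ho, ← C_1, gval_C _ _ one_ne_zero]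
      simp [a]⟩
    have hT : ∀ f : F, f ≠ 0 → P.ord (algebraMap F K f) = 0 := fun f hf => hP.ordF hf
    have hta : ∀ j, P.ord (t j) = a j := fun j => hP.ordt ho j
    have hdiv : Divisorial (d + s) P := divisorial_hor h hb l (a := a) (by
      intro j hj
      simp [a, hj]) hP
    have hEt : ∀ i, DerReg P (Et i) := fun i => derReg_of_log'
      (derLog_of_tor h ho hP (Et i) (fun f hf => by
        rw [h1]
        by_cases h0 : E i f = 0
        · rw [h0, map_zero]; exact Ge.zero
        · exact Or.inr (hT _ h0).ge) (c := fun _ => 0) (fun _ => Ge.zero)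
        (fun j => by rw [h2, zero_mul]))
    have hθ : ∀ l, DerReg P (θ l) := fun l => derReg_of_log'
      (derLog_of_tor h ho hP (θ l) (fun f hf => by
        rw [h3]
        exact Ge.zero) (c := fun j => if l = j then 1 else 0) (fun j => by
          split_ifs
          · exact Ge.one
          · exact Ge.zero)
        (fun j => by rw [h4]; split_ifs <;> simp))
    have htl := Gens.t_ne h l
    have hπ : P.ord (t l)⁻¹ = 1 := by
      rw [P.ord_inv, hta]
      simp [a]
    have hl' : DerReg P (((t l)⁻¹)⁻¹ • ((-1 : K) • θ l)) := pres_inv h ho hP _ (fun f hf => by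
      change Ge P _ ((-1 : K) * θ l (algebraMap F K f) - _)
      rw [h3]
      left
      simp) (fun j => by
      change (-1 : K) * θ l (t j) = _
      rw [h4]
      by_cases hlj : l = j
      · subst hlj
        simp [a]
      · rw [if_neg hlj]
        simp [a, Ne.symm hlj]) hπ
    rw [smul_smul, inv_inv] at hl'
    have h5 := hz P hdiv (Function.update (Sum.elim Et θ) (Sum.inr l)
      ((t l * -1) • (Sum.elim Et θ : Fin d ⊕ Fin s → Derivation k K K) (Sum.inr l))) (by
        intro j
        by_cases hj : j = Sum.inr l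
        · subst hj
          rw [Function.update_self]
          exact hl'
        · rw [Function.update_of_ne hj]
          rcases j with j | j
          · exact hEt j
          · exact hθ j)
    rw [matK_update', hdet, mul_one, mul_comm z] at h5
    have htn : t l * -1 ≠ 0 := mul_ne_zero htl (by simp)
    have h6 := GeQ.of_mul (pow_ne_zero m htn) h5
    have hto : P.ord (t l * -1) = -1 := by
      rw [mul_neg_one, P.ord_neg, hta]
      simp [a]
    rw [P.ord_pow, hto] at h6
    have h7 := (hG.hor P hT).1
    have hz0 : z ≠ 0 := by rw [hB]; exact h.ne hB0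
    have h8 := h6.resolve_left hz0
    have h9 : (0 : ℚ) ≤ P.ord z := by
      push_cast at h8
      have h10 := mul_le_mul_of_nonneg_left h7 hm0
      linarith
    have h10 : 0 ≤ P.ord z := by exact_mod_cast h9
    rw [hB, hP B hB0] at h10
    have h11 := gval_le (fun _ : F => (0 : ℤ)) a hn
    have h12 : wt (fun _ : F => (0 : ℤ)) a B n = -(n l : ℤ) := by
      rw [wt, zero_add, Finset.sum_eq_single l]
      · simp [a]
      · intro j _ hj
        simp [a, hj]
      · simp
    rw [h12] at h11
    omega
  refine ⟨B.coeff 0, ?_⟩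
  have h5 : B = C (B.coeff 0) := by
    apply MvPolynomial.ext
    intro n
    rw [MvPolynomial.coeff_C]
    by_cases h0 : (0 : Fin s →₀ ℕ) = n
    · rw [if_pos h0, h0]
    · rw [if_neg h0]
      by_contra h6
      exact h0 (Finsupp.ext fun l => (hdeg l n h6).symm)
  rw [hB]
  conv_lhs => rw [h5]
  rw [aeval_C]

/-- the logarithmic derivative along a frame -/
theorem ord_der {v : Place k F} {D : Derivation k F F} (hD : Pres v D) {u : F} (hu0 : u ≠ 0)
    (hu : v.ord u = 1) (hDu : D u = 1) {f : F} (hf : f ≠ 0) :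
    Ge v (v.ord f + 1) (u * D f - (v.ord f : F) * f) := by
  have hg0 : f * u ^ (-v.ord f) ≠ 0 := mul_ne_zero hf (zpow_ne_zero _ hu0)
  have hgo : v.ord (f * u ^ (-v.ord f)) = 0 := by
    rw [v.ord_mul hf (zpow_ne_zero _ hu0), v.ord_zpow, hu]; ring
  have h2 := der_unit hD hgo
  rw [dlog_mul D hf (zpow_ne_zero _ hu0), dlog_zpow D hu0, hDu] at h2
  have h3 : Ge v 1 u := Or.inr hu.ge
  have h4 : Ge v (v.ord f) f := Or.inr le_rfl
  have h5 := (h4.mul h3).mul h2
  rw [add_zero] at h5
  convert h5 using 1
  push_cast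
  field_simp
  ring

/-- Sections on `K` are sections on `F`. -/
theorem down (h : Gens (k := F) t) (hd : Algebra.trdeg k F = d)
    (hfd : ∀ y : Fin d → F, IsTranscendenceBasis k y →
      FiniteDimensional (IntermediateField.adjoin k (Set.range y)) F)
    (b : Fin d → F) {m : ℕ} {δF : Place k F → ℚ}
    {δK : Place k K → ℚ} (hG : Good t d δF δK) {c : F}
    (hc : SecH (d + s) m δK (matK b t) (algebraMap F K c)) : SecH d m δF (mat b) c := by
  classical
  intro v hvd D hD
  have hm0 : (0 : ℚ) ≤ m := by positivity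
  obtain ⟨y, E, i0, hy, hE, hi0, hreg, hpres⟩ := pFRAME k F d hd hfd v hvd
  have hd0 : 0 < d := i0.pos
  have hu0 : y i0 ≠ 0 := hy.1.ne_zero i0
  have hmat : mat b D = mat y D * mat b E := by
    have h1 : D = fun i => ∑ j, (mat y D) i j • E j := by
      funext i
      exact der_expand hy hE (D i)
    conv_lhs => rw [h1]
    rw [mat_sum]
  have hyD : Ge v 0 (mat y D).det := ge_det v _ fun i j => hD i _ (hreg j)
  suffices hmain : GeQ v (-(m * δF v)) (c * (mat b E).det ^ m) by
    have h1 := hmain.mul (Ge.toQ (hyD.pow m))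
    rw [hmat, Matrix.det_mul]
    refine (h1.mono (q' := -(m * δF v)) (by push_cast; linarith)).imp (fun h2 => ?_) (fun h2 => ?_)
    · rw [← h2]; ring
    · convert h2 using 3
      ring
  obtain ⟨e, a, he, hs, hP⟩ := hG.ver v hvd
  have he' : (0 : ℤ) < e := by exact_mod_cast he
  have ho : PreOrd k (fun f : F => (e : ℤ) * v.ord f) := ⟨fun x z hx hz => by
      rw [v.ord_mul hx hz]; ring, fun x z hx hz hxz => by
      rw [← mul_min_of_nonneg _ _ he'.le]
      exact mul_le_mul_of_nonneg_left (v.ord_add hx hz hxz) he'.le, fun c hc => by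
      rw [v.ord_const hc, mul_zero]⟩
  obtain ⟨P, hPt⟩ := exists_tor (K := K) h ho a hs
  have hPo := hP P hPt
  have hPv : ∀ f : F, P.ord (algebraMap F K f) = e * v.ord f := by
    intro f
    by_cases hf : f = 0
    · rw [hf, map_zero, P.ord_zero, v.ord_zero, mul_zero]
    · exact hPt.ordF hf
  have hge : ∀ {n : ℤ} {f : F}, Ge v n f → Ge P (e * n) (algebraMap F K f) := by
    intro n f hf
    rcases hf with hf | hf
    · left; rw [hf, map_zero]
    · right; rw [hPv]; exact mul_le_mul_of_nonneg_left hf he'.le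
  have hdiv : Divisorial (d + s) P := divisorial_ver h hd0 hvd he hPt
  obtain ⟨Et, θ, h1, h2, h3, h4⟩ := exists_ext h hy hE
  obtain ⟨π, hπ0, hπ⟩ := P.surj
  have hEt : ∀ i, i ≠ i0 → DerReg P (Et i) := fun i hi => derReg_of_log'
    (derLog_of_tor h ho hPt (Et i) (fun f hf => by
      rw [h1]
      have h5 : v.Reg (E i f / f) := log_of_pres v (E i) (hpres i) hu0 hi0 (by
        rw [hE, if_neg hi, zero_div]; exact v.reg_zero) f
      have h6 : Ge v (v.ord f) f := Or.inr le_rfl
      have h7 := h6.mul (show Ge v 0 (E i f / f) from h5)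
      rw [mul_div_cancel₀ _ hf, add_zero] at h7
      exact hge h7) (c := fun _ => 0) (fun _ => Ge.zero)
      (fun j => by rw [h2, zero_mul]))
  have hθ : ∀ l, DerReg P (θ l) := fun l => derReg_of_log'
    (derLog_of_tor h ho hPt (θ l) (fun f hf => by
      rw [h3]
      exact Ge.zero) (c := fun j => if l = j then 1 else 0) (fun j => by
        split_ifs
        · exact Ge.one
        · exact Ge.zero)
      (fun j => by rw [h4]; split_ifs <;> simp))
  let Fr : Fin d ⊕ Fin s → Derivation k K K := Sum.elim Et θ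
  let c0 : Fin d ⊕ Fin s → K :=
    Sum.elim (fun i => if i = i0 then (e : K) * algebraMap F K (y i0) else 0) (fun l => (a l : K))
  set D0 : Derivation k K K := ∑ j, c0 j • Fr j with hD0
  have hDF : ∀ f : F, D0 (algebraMap F K f) = (e : K) * algebraMap F K (y i0 * E i0 f) := by
    intro f
    rw [hD0, sum_apply, Fintype.sum_sum_type, Finset.sum_eq_single i0]
    · simp only [c0, Fr, Sum.elim_inl, Sum.elim_inr, if_true, h1, h3, mul_zero,
        Finset.sum_const_zero, add_zero, map_mul]
      ring
    · intro i _ hi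
      simp only [c0, Sum.elim_inl, if_neg hi, zero_mul]
    · simp
  have hDt : ∀ j, D0 (t j) = (a j : K) * t j := by
    intro j
    rw [hD0, sum_apply, Fintype.sum_sum_type]
    rw [Finset.sum_eq_zero (fun i _ => by simp [Fr, h2]), zero_add, Finset.sum_eq_single j]
    · simp only [c0, Fr, Sum.elim_inr, h4, if_true]
    · intro l _ hl
      simp only [Fr, Sum.elim_inr, h4, if_neg hl, mul_zero]
    · simp
  have hN : DerReg P (π⁻¹ • D0) := pres_inv h ho hPt D0 (fun f hf => by
    rw [hDF]
    have h5 := ord_der (hpres i0) hu0 hi0 (by rw [hE, if_pos rfl]) hf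
    have h6 := (Ge.natCast (P := P) e).mul (hge h5)
    refine Ge.mono ?_ (N := 0 + e * (v.ord f + 1)) ?_
    · nlinarith
    · convert h6 using 1
      rw [map_sub, map_mul, map_mul, map_intCast]
      push_cast
      ring) hDt hπ
  have hN' : π⁻¹ • D0 = ∑ j, (π⁻¹ * c0 j) • Fr j := by
    rw [hD0, Finset.smul_sum]
    exact Finset.sum_congr rfl fun j _ => smul_smul _ _ _
  have h5 := hc P hdiv (Function.update Fr (Sum.inl i0) (∑ j, (π⁻¹ * c0 j) • Fr j)) (by
      intro j
      by_cases hj : j = Sum.inl i0
      · subst hj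
        rw [Function.update_self, ← hN']
        exact hN
      · rw [Function.update_of_ne hj]
        rcases j with j | j
        · exact hEt j (fun h0 => hj (by rw [h0]))
        · exact hθ j)
  rw [matK_update b Fr (Sum.inl i0) (fun j => π⁻¹ * c0 j), matK_frame h b h1 h2 h3 h4] at h5
  have hc0 : c0 (Sum.inl i0) = (e : K) * algebraMap F K (y i0) := by simp [c0]
  rw [hc0] at h5
  have hyK : algebraMap F K (y i0) ≠ 0 := by rwa [Ne, map_eq_zero]
  have heK : (e : K) = algebraMap k K (e : k) := by rw [map_natCast]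
  have hek : (e : k) ≠ 0 := by exact_mod_cast he.ne'
  have heK0 : (e : K) ≠ 0 := by rw [heK, Ne, map_eq_zero]; exact hek
  have heo : P.ord (e : K) = 0 := by rw [heK, P.ord_const hek]
  have hne : π⁻¹ * ((e : K) * algebraMap F K (y i0)) ≠ 0 :=
    mul_ne_zero (inv_ne_zero hπ0) (mul_ne_zero heK0 hyK)
  have hord : P.ord (π⁻¹ * ((e : K) * algebraMap F K (y i0))) = e - 1 := by
    rw [P.ord_mul (inv_ne_zero hπ0) (mul_ne_zero heK0 hyK), P.ord_mul heK0 hyK, P.ord_inv, hπ, heo,
      hPv, hi0]
    ring
  have h6 : algebraMap F K c * (π⁻¹ * ((e : K) * algebraMap F K (y i0)) *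
      algebraMap F K (mat b E).det) ^ m = (π⁻¹ * ((e : K) * algebraMap F K (y i0))) ^ m *
      algebraMap F K (c * (mat b E).det ^ m) := by
    rw [map_mul, map_pow]
    ring
  rw [h6] at h5
  have h7 := GeQ.of_mul (pow_ne_zero m hne) h5
  rw [P.ord_pow, hord] at h7
  rcases h7 with h7 | h7
  · left
    rwa [map_eq_zero] at h7
  · right
    rw [hPv] at h7
    push_cast at h7
    have heQ : (0 : ℚ) < e := by exact_mod_cast he
    have h8 := mul_le_mul_of_nonneg_left hPo hm0
    have h9 : (e : ℚ) * (-(m * δF v)) ≤ e * (v.ord (c * (mat b E).det ^ m) : ℚ) := by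
      linarith
    exact le_of_mul_le_mul_left h9 heQ

end Pool.Agent.H40.TB
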