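import Pool.Graph.R_seed8.TH122.AB.Plc
import Pool.Graph.R_seed8.W619.TW.Der

/-!
Toric places of a field of rational functions `K = F(t)`, over a valuation (or the trivial valuation)
of `F`: the order of a polynomial in the `t i` is the least order of its terms.
-/

set_option autoImplicit false
set_option linter.unusedSectionVars false

open FF MvPolynomial Pool.Agent.W603.LV Pool.Agent.TH122.AB

namespace Pool.Agent.H40.TB

variable {k F K : Type} [Field k] [Field F] [Field K] [Algebra k F] [Algebra k K] [Algebra F K]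
  [IsScalarTower k F K] {s : ℕ}

/-- a valuation of `F`, perhaps trivial or with a ramification index -/
structure PreOrd (k : Type) {F : Type} [Field k] [Field F] [Algebra k F] (o : F → ℤ) : Prop where
  mul : ∀ a b, a ≠ 0 → b ≠ 0 → o (a * b) = o a + o b
  add : ∀ a b, a ≠ 0 → b ≠ 0 → a + b ≠ 0 → min (o a) (o b) ≤ o (a + b)
  const : ∀ c : k, c ≠ 0 → o (algebraMap k F c) = 0

/-- the weight of a term -/
def wt (o : F → ℤ) (a : Fin s → ℤ) (p : MvPolynomial (Fin s) F) (m : Fin s →₀ ℕ) : ℤ :=
  o (p.coeff m) + ∑ i, (m i : ℤ) * a i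

open Classical in
/-- the least weight of the terms -/
noncomputable def gval (o : F → ℤ) (a : Fin s → ℤ) (p : MvPolynomial (Fin s) F) : ℤ :=
  if h : p.support.Nonempty then p.support.inf' h (wt o a p) else 0

theorem supp_ne {p : MvPolynomial (Fin s) F} (hp : p ≠ 0) : p.support.Nonempty :=
  Finset.nonempty_iff_ne_empty.2 (by rwa [Ne, MvPolynomial.support_eq_empty])

theorem gval_le (o : F → ℤ) (a : Fin s → ℤ) {p : MvPolynomial (Fin s) F} {m : Fin s →₀ ℕ}
    (hm : p.coeff m ≠ 0) : gval o a p ≤ wt o a p m := by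
  have hm' : m ∈ p.support := MvPolynomial.mem_support_iff.2 hm
  have h : p.support.Nonempty := ⟨m, hm'⟩
  rw [gval, dif_pos h]
  exact Finset.inf'_le _ hm'

theorem gval_mem (o : F → ℤ) (a : Fin s → ℤ) {p : MvPolynomial (Fin s) F} (hp : p ≠ 0) :
    ∃ m, p.coeff m ≠ 0 ∧ gval o a p = wt o a p m := by
  have h := supp_ne hp
  obtain ⟨m, hm, h1⟩ := Finset.exists_mem_eq_inf' h (wt o a p)
  refine ⟨m, MvPolynomial.mem_support_iff.1 hm, ?_⟩
  rw [gval, dif_pos h, h1]

theorem gval_eq (o : F → ℤ) (a : Fin s → ℤ) {p : MvPolynomial (Fin s) F} {c : ℤ} {m : Fin s →₀ ℕ}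
    (hm : p.coeff m ≠ 0) (h1 : wt o a p m = c) (h2 : ∀ m, p.coeff m ≠ 0 → c ≤ wt o a p m) :
    gval o a p = c := by
  have hp : p ≠ 0 := by rintro rfl; exact hm (MvPolynomial.coeff_zero m)
  apply le_antisymm
  · rw [← h1]; exact gval_le o a hm
  · obtain ⟨n, hn, h3⟩ := gval_mem o a hp
    rw [h3]; exact h2 n hn

/-- zero or of order at least `N` -/
def PG (o : F → ℤ) (N : ℤ) (f : F) : Prop := f = 0 ∨ N ≤ o f

theorem PreOrd.neg_one {o : F → ℤ} (ho : PreOrd k o) : o (-1) = 0 := by
  have h1 : (-1 : F) = algebraMap k F (-1) := by simp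
  rw [h1]
  exact ho.const _ (by simp)

theorem PG.add {o : F → ℤ} (ho : PreOrd k o) {N : ℤ} {f g : F} (hf : PG o N f) (hg : PG o N g) :
    PG o N (f + g) := by
  by_cases h1 : f = 0
  · rwa [h1, zero_add]
  by_cases h2 : g = 0
  · rwa [h2, add_zero]
  by_cases h3 : f + g = 0
  · exact Or.inl h3
  · right
    exact (le_min (hf.resolve_left h1) (hg.resolve_left h2)).trans (ho.add _ _ h1 h2 h3)

theorem PG.sum {o : F → ℤ} (ho : PreOrd k o) {N : ℤ} {ι : Type} (S : Finset ι) (f : ι → F)
    (h : ∀ i ∈ S, PG o N (f i)) : PG o N (∑ i ∈ S, f i) := by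
  classical
  induction S using Finset.induction_on with
  | empty => left; simp
  | insert a S ha ih =>
    rw [Finset.sum_insert ha]
    exact (h a (Finset.mem_insert_self a S)).add ho
      (ih fun i hi => h i (Finset.mem_insert_of_mem hi))

theorem add_big {o : F → ℤ} (ho : PreOrd k o) {f g : F} (hf : f ≠ 0) (hg : PG o (o f + 1) g) :
    f + g ≠ 0 ∧ o (f + g) = o f := by
  by_cases h0 : g = 0
  · rw [h0, add_zero]; exact ⟨hf, rfl⟩
  have hg' := hg.resolve_left h0
  have hne : o (-g) = o g := by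
    rw [← neg_one_mul, ho.mul _ _ (by simp) h0, ho.neg_one, zero_add]
  have h1 : f + g ≠ 0 := by
    intro h
    have h2 : f = -g := eq_neg_of_add_eq_zero_left h
    rw [h2, hne] at hg'
    omega
  refine ⟨h1, ?_⟩
  have h2 := ho.add f g hf h0 h1
  have h3 := ho.add (f + g) (-g) h1 (neg_ne_zero.2 h0) (by simpa using hf)
  rw [add_neg_cancel_right, hne] at h3
  rcases min_le_iff.1 h3 with h4 | h4
  · rcases min_le_iff.1 h2 with h5 | h5 <;> omega
  · omega

theorem wt_add_sum (a : Fin s → ℤ) (m n : Fin s →₀ ℕ) :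
    ∑ i, ((m + n) i : ℤ) * a i = ∑ i, (m i : ℤ) * a i + ∑ i, (n i : ℤ) * a i := by
  rw [← Finset.sum_add_distrib]
  refine Finset.sum_congr rfl fun i _ => ?_
  rw [Finsupp.add_apply]
  push_cast
  ring

theorem gval_mul {o : F → ℤ} (ho : PreOrd k o) (a : Fin s → ℤ) {p q : MvPolynomial (Fin s) F}
    (hp : p ≠ 0) (hq : q ≠ 0) : gval o a (p * q) = gval o a p + gval o a q := by
  classical
  set c1 := gval o a p with hc1
  set c2 := gval o a q with hc2
  -- the largest exponent with the least weight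
  have hmax : ∀ r : MvPolynomial (Fin s) F, r ≠ 0 → ∃ m, r.coeff m ≠ 0 ∧ wt o a r m = gval o a r ∧
      ∀ n, r.coeff n ≠ 0 → wt o a r n = gval o a r → toLex n ≤ toLex m := by
    intro r hr
    obtain ⟨m0, hm0, h0⟩ := gval_mem o a hr
    obtain ⟨m, hm, h1⟩ := Finset.exists_max_image (r.support.filter fun n => wt o a r n = gval o a r)
      (fun n => toLex n) ⟨m0, Finset.mem_filter.2 ⟨MvPolynomial.mem_support_iff.2 hm0, h0.symm⟩⟩
    rw [Finset.mem_filter] at hm
    exact ⟨m, MvPolynomial.mem_support_iff.1 hm.1, hm.2, fun n hn h2 => h1 n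
      (Finset.mem_filter.2 ⟨MvPolynomial.mem_support_iff.2 hn, h2⟩)⟩
  obtain ⟨m, hm, hm1, hm2⟩ := hmax p hp
  obtain ⟨n, hn, hn1, hn2⟩ := hmax q hq
  have hlow : ∀ l : Fin s →₀ ℕ, PG o (c1 + c2 - ∑ i, (l i : ℤ) * a i) ((p * q).coeff l) := by
    intro l
    rw [MvPolynomial.coeff_mul]
    refine PG.sum ho _ _ fun x hx => ?_
    rw [Finset.HasAntidiagonal.mem_antidiagonal] at hx
    by_cases h1 : p.coeff x.1 = 0
    · left; rw [h1, zero_mul]
    by_cases h2 : q.coeff x.2 = 0
    · left; rw [h2, mul_zero]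
    right
    rw [ho.mul _ _ h1 h2]
    have h3 := gval_le o a h1
    have h4 := gval_le o a h2
    rw [wt] at h3 h4
    rw [← hx, wt_add_sum]
    omega
  have hcoef : (p * q).coeff (m + n) ≠ 0 ∧ o ((p * q).coeff (m + n)) =
      o (p.coeff m) + o (q.coeff n) := by
    rw [MvPolynomial.coeff_mul]
    have hmem : (m, n) ∈ Finset.HasAntidiagonal.antidiagonal (m + n) :=
      Finset.HasAntidiagonal.mem_antidiagonal.2 rfl
    rw [← Finset.add_sum_erase _ _ hmem]
    have h0 := mul_ne_zero hm hn
    have h1 := ho.mul _ _ hm hn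
    rw [← h1]
    refine add_big ho h0 (PG.sum ho _ _ fun x hx => ?_)
    rw [Finset.mem_erase, Finset.HasAntidiagonal.mem_antidiagonal] at hx
    obtain ⟨hx1, hx2⟩ := hx
    by_cases h2 : p.coeff x.1 = 0
    · left; rw [h2, zero_mul]
    by_cases h3 : q.coeff x.2 = 0
    · left; rw [h3, mul_zero]
    right
    rw [ho.mul _ _ h2 h3, h1]
    have h4 := gval_le o a h2
    have h5 := gval_le o a h3
    have h6 := wt_add_sum a x.1 x.2
    rw [hx2, wt_add_sum] at h6
    by_contra hcon
    push Not at hcon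
    have h7 : wt o a p x.1 = gval o a p := by
      rw [wt] at h4 h5 hm1 hn1 ⊢
      omega
    have h8 : wt o a q x.2 = gval o a q := by
      rw [wt] at h4 h5 hm1 hn1 ⊢
      omega
    have h9 := hm2 x.1 h2 h7
    have h10 := hn2 x.2 h3 h8
    have h11 : toLex x.1 + toLex x.2 = toLex m + toLex n := by
      rw [← toLex_add, ← toLex_add, hx2]
    have h12 : toLex x.1 = toLex m := by
      rcases lt_or_eq_of_le h9 with h | h
      · exact absurd h11 (ne_of_lt (add_lt_add_of_lt_of_le h h10))
      · exact h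
    have h13 : x.1 = m := by simpa using h12
    have h14 : x.2 = n := by
      rw [h13] at hx2
      exact add_left_cancel hx2
    exact hx1 (Prod.ext h13 h14)
  refine gval_eq o a hcoef.1 ?_ fun l hl => ?_
  · rw [wt, hcoef.2, wt_add_sum]
    rw [wt] at hm1 hn1
    omega
  · have := (hlow l).resolve_left hl
    rw [wt]
    omega

theorem gval_add {o : F → ℤ} (ho : PreOrd k o) (a : Fin s → ℤ) {p q : MvPolynomial (Fin s) F}
    (hpq : p + q ≠ 0) : min (gval o a p) (gval o a q) ≤ gval o a (p + q) := by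
  obtain ⟨m, hm, h1⟩ := gval_mem o a hpq
  rw [h1, wt]
  rw [MvPolynomial.coeff_add] at hm ⊢
  have h2 : PG o (min (gval o a p) (gval o a q) - ∑ i, (m i : ℤ) * a i) (p.coeff m + q.coeff m) := by
    refine PG.add ho ?_ ?_
    · by_cases h : p.coeff m = 0
      · exact Or.inl h
      · right
        have := gval_le o a h
        rw [wt] at this
        have h3 := min_le_left (gval o a p) (gval o a q)
        omega
    · by_cases h : q.coeff m = 0
      · exact Or.inl h
      · right
        have := gval_le o a h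
        rw [wt] at this
        have h3 := min_le_right (gval o a p) (gval o a q)
        omega
  have := h2.resolve_left hm
  omega

theorem gval_C (o : F → ℤ) (a : Fin s → ℤ) {c : F} (hc : c ≠ 0) : gval o a (C c) = o c := by
  classical
  refine gval_eq o a (m := 0) (by rwa [MvPolynomial.coeff_C, if_pos rfl]) ?_ fun m hm => ?_
  · rw [wt, MvPolynomial.coeff_C, if_pos rfl]
    simp
  · rw [MvPolynomial.coeff_C] at hm
    have h : (0 : Fin s →₀ ℕ) = m := by
      by_contra h
      rw [if_neg h] at hm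
      exact hm rfl
    subst h
    rw [wt, MvPolynomial.coeff_C, if_pos rfl]
    simp

theorem gval_X {o : F → ℤ} (ho : PreOrd k o) (a : Fin s → ℤ) (i : Fin s) :
    gval o a (X i) = a i := by
  classical
  have h1 : o (1 : F) = 0 := by
    have := ho.const 1 one_ne_zero
    rwa [map_one] at this
  have hc : (X i : MvPolynomial (Fin s) F).coeff (Finsupp.single i 1) = 1 := by
    rw [MvPolynomial.coeff_X, if_pos rfl]
  have h2 : ∑ j, ((Finsupp.single i 1 : Fin s →₀ ℕ) j : ℤ) * a j = a i := by
    rw [Finset.sum_eq_single i]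
    · simp
    · intro j _ hj
      rw [Finsupp.single_eq_of_ne (by exact hj)]
      simp
    · simp
  refine gval_eq o a (m := Finsupp.single i 1) (by rw [hc]; exact one_ne_zero) ?_
    fun m hm => ?_
  · rw [wt, hc, h1, h2, zero_add]
  · rw [MvPolynomial.coeff_X] at hm
    have h : Finsupp.single i 1 = m := by
      by_contra h
      rw [if_neg h] at hm
      exact hm rfl
    subst h
    rw [wt, hc, h1, h2, zero_add]

/-- `P` is the toric place given by the orders `o` on `F` and `a i` of the `t i`. -/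
def IsTor (o : F → ℤ) (a : Fin s → ℤ) (t : Fin s → K) (P : Place k K) : Prop :=
  ∀ p : MvPolynomial (Fin s) F, p ≠ 0 → P.ord (aeval t p) = gval o a p

theorem exists_tor {t : Fin s → K} (h : Gens (k := F) t) {o : F → ℤ} (ho : PreOrd k o)
    (a : Fin s → ℤ) (hs : ∃ P Q : MvPolynomial (Fin s) F, P ≠ 0 ∧ Q ≠ 0 ∧
      gval o a P = gval o a Q + 1) :
    ∃ v : Place k K, IsTor o a t v := by
  classical
  choose num den hden hz using h.gen
  have hnum : ∀ z, z ≠ 0 → num z ≠ 0 := by
    intro z hz0 h0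
    apply hz0
    rw [hz z, h0, map_zero, zero_div]
  set ν : MvPolynomial (Fin s) F → ℤ := gval o a with hν
  have hmul : ∀ P Q, P ≠ 0 → Q ≠ 0 → ν (P * Q) = ν P + ν Q := fun P Q hP hQ => gval_mul ho a hP hQ
  have hadd : ∀ P Q, P + Q ≠ 0 → min (ν P) (ν Q) ≤ ν (P + Q) := fun P Q h => gval_add ho a h
  have hwd : ∀ (z : K) (P Q : MvPolynomial (Fin s) F), z ≠ 0 → Q ≠ 0 →
      z = aeval t P / aeval t Q → P ≠ 0 ∧ ν (num z) - ν (den z) = ν P - ν Q := by
    intro z P Q hz0 hQ hzPQ
    have hP : P ≠ 0 := by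
      intro h0
      apply hz0
      rw [hzPQ, h0, map_zero, zero_div]
    refine ⟨hP, ?_⟩
    have h1 : aeval t (num z * Q) = aeval t (P * den z) := by
      rw [map_mul, map_mul]
      have h3 := h.ne (hden z)
      have h4 := h.ne hQ
      have h5 : aeval t P / aeval t Q = aeval t (num z) / aeval t (den z) := by
        rw [← hzPQ]
        exact hz z
      rw [div_eq_div_iff h4 h3] at h5
      rw [← h5]
    have h2 := h.inj h1
    have h3 := congrArg ν h2
    rw [hmul _ _ (hnum z hz0) hQ, hmul _ _ hP (hden z)] at h3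
    linarith
  let w : K → ℤ := fun z => if z = 0 then 0 else ν (num z) - ν (den z)
  have hw : ∀ (z : K) (P Q : MvPolynomial (Fin s) F), z ≠ 0 → Q ≠ 0 →
      z = aeval t P / aeval t Q → w z = ν P - ν Q := by
    intro z P Q hz0 hQ hzPQ
    simp only [w, if_neg hz0]
    exact (hwd z P Q hz0 hQ hzPQ).2
  have ho1 : o (1 : F) = 0 := by
    have := ho.const 1 one_ne_zero
    rwa [map_one] at this
  have hone : ν 1 = 0 := by
    have := gval_C o a (one_ne_zero (α := F))
    rw [C_1, ho1] at this
    exact this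
  have hval : ∀ P, P ≠ 0 → w (aeval t P) = ν P := by
    intro P hP
    rw [hw (aeval t P) P 1 (h.ne hP) one_ne_zero (by rw [map_one, div_one]), hone, sub_zero]
  refine ⟨⟨w, if_pos rfl, ?_, ?_, ?_, ?_⟩, hval⟩
  · intro f g hf hg
    have hnf := hnum f hf
    have hng := hnum g hg
    rw [hw (f * g) (num f * num g) (den f * den g) (mul_ne_zero hf hg)
      (mul_ne_zero (hden f) (hden g)) (by
        rw [map_mul, map_mul]
        conv_lhs => rw [hz f, hz g]
        rw [div_mul_div_comm]), hw f _ _ hf (hden f) (hz f), hw g _ _ hg (hden g) (hz g),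
      hmul _ _ hnf hng, hmul _ _ (hden f) (hden g)]
    ring
  · intro f g hf hg hfg
    have hnf := hnum f hf
    have hng := hnum g hg
    have hdf := hden f
    have hdg := hden g
    have h1 : f + g = aeval t (num f * den g + num g * den f) / aeval t (den f * den g) := by
      rw [map_add, map_mul, map_mul, map_mul]
      conv_lhs => rw [hz f, hz g]
      have h3 := h.ne hdf
      have h4 := h.ne hdg
      field_simp
    have h2 := (hwd (f + g) _ _ hfg (mul_ne_zero hdf hdg) h1).1
    have h3 := hadd _ _ h2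
    rw [hw (f + g) _ _ hfg (mul_ne_zero hdf hdg) h1, hw f _ _ hf hdf (hz f),
      hw g _ _ hg hdg (hz g)]
    rw [hmul _ _ hnf hdg, hmul _ _ hng hdf] at h3
    rw [hmul _ _ hdf hdg]
    rcases min_le_iff.1 h3 with h4 | h4
    · exact le_trans (min_le_left _ _) (by linarith)
    · exact le_trans (min_le_right _ _) (by linarith)
  · intro c hc
    have h1 : algebraMap k K c = aeval t (C (algebraMap k F c)) := by
      rw [aeval_C, ← IsScalarTower.algebraMap_apply]
    have h2 : algebraMap k F c ≠ 0 := by rwa [Ne, map_eq_zero]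
    rw [h1, hval _ (by simpa using hc), hν, gval_C o a h2]
    exact ho.const c hc
  · obtain ⟨P, Q, hP, hQ, hPQ⟩ := hs
    refine ⟨aeval t P / aeval t Q, div_ne_zero (h.ne hP) (h.ne hQ), ?_⟩
    rw [hw _ P Q (div_ne_zero (h.ne hP) (h.ne hQ)) hQ rfl, hPQ]
    ring

section

variable {t : Fin s → K} {o : F → ℤ} {a : Fin s → ℤ} {P : Place k K}

theorem IsTor.ordF (hP : IsTor o a t P) {f : F} (hf : f ≠ 0) : P.ord (algebraMap F K f) = o f := by
  have := hP (C f) (by simpa using hf)
  rwa [aeval_C, gval_C o a hf] at this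

theorem IsTor.ordt (ho : PreOrd k o) (hP : IsTor o a t P) (i : Fin s) : P.ord (t i) = a i := by
  have := hP (X i) (X_ne_zero i)
  rwa [aeval_X, gval_X ho a i] at this

end

end Pool.Agent.H40.TB
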