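import Pool.Agent.H40.TB.Cen

/-!
The torus bundle has the log plurigenera of the orbifold.
-/

set_option autoImplicit false
set_option linter.unusedSectionVars false
set_option linter.overlappingInstances false

open FF MvPolynomial Pool.Agent.W603.LV Pool.Agent.TH122.AB Pool.Agent.W619.PQ Pool.Agent.W619.TW
  Pool.Agent.W602.GT

namespace Pool.Agent.H40.TB

namespace Orb

variable {F : Type} [Field F] [Algebra ℂ F] (O : Orb F)

theorem dv_mul (i : Fin O.r) {o : F → ℤ} {e : ℤ} (he : 0 < e) :
    O.dv i (fun x => e * o x) = e * O.dv i o := by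
  rw [dv, dv, mo_mul (O.G_ne i) he, mo_mul O.y_ne he]
  ring

theorem em_spec (v : Place ℂ F) :
    (0 < O.em v ∧ ∀ i, (O.mult i : ℤ) ∣ O.em v * O.dv i v.ord) ∧
    ∀ e : ℕ, 0 < e → (∀ i, (O.mult i : ℤ) ∣ e * O.dv i v.ord) → O.em v ≤ e := by
  have hne : {e : ℕ | 0 < e ∧ ∀ i, (O.mult i : ℤ) ∣ e * O.dv i v.ord}.Nonempty := by
    refine ⟨∏ i, O.mult i, Finset.prod_pos fun i _ => O.mult_pos i, fun i => ?_⟩
    have h1 : O.mult i ∣ ∏ i, O.mult i := Finset.dvd_prod_of_mem _ (Finset.mem_univ i)
    exact Dvd.dvd.mul_right (by exact_mod_cast h1) _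
  exact ⟨Nat.sInf_mem hne, fun e he h => Nat.sInf_le ⟨he, h⟩⟩

theorem δ_le (v : Place ℂ F) : O.δ v ≤ 1 := by
  classical
  rw [δ]
  split_ifs
  · have : (0 : ℚ) ≤ 1 / (O.em v : ℚ) := by positivity
    linarith
  · exact le_rfl

variable {K : Type} [Field K] [Algebra ℂ K] [Algebra F K] [IsScalarTower ℂ F K]
variable {t : Fin (O.r + 1) → K} (h : Gens (k := F) t)

include h in
theorem cen_trivial (P : Place ℂ K) (hT : ∀ f : F, f ≠ 0 → P.ord (algebraMap F K f) = 0) :
    (O.bundle t h).Cen P ↔ ∀ l, P.ord (t l) = 0 := by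
  rw [O.cen_iff h P]
  have h1 : mo (oP F P) O.y = 0 := mo_zero O.y_ne hT
  have h2 : ∀ i, O.dv i (oP F P) = 0 := by
    intro i
    have h3 : mo (oP F P) (fun j => aeval O.y (O.G i j)) = 0 := mo_zero (O.G_ne i) hT
    rw [dv, h1, h3]
    ring
  simp only [h1, h2]
  constructor
  · rintro ⟨-, h3, h4⟩ l
    refine Fin.cases (by simpa using h3) (fun i => ?_) l
    have h5 : (O.mult i : ℤ) ≠ 0 := by exact_mod_cast (O.mult_pos i).ne'
    exact (mul_eq_zero.1 (h4 i)).resolve_left h5
  · intro h3
    obtain ⟨l, hl⟩ := O.Q_ne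
    refine ⟨⟨l, hl, ?_⟩, ?_, fun i => ?_⟩
    · rw [mul_zero]; exact hT _ hl
    · rw [h3]; simp
    · rw [h3, mul_zero]

include h in
theorem good (d : ℕ) : Good t d O.δ (O.bundle t h).bd := by
  classical
  have hbd : ∀ P : Place ℂ K, (O.bundle t h).bd P = if (O.bundle t h).Cen P then 0 else 1 :=
    fun P => by rw [QVar.bd]
  have hover : ∀ (P : Place ℂ K) (v : Place ℂ F) (e : ℤ), 0 < e →
      (∀ f : F, P.ord (algebraMap F K f) = e * v.ord f) →
      mo (oP F P) O.y = e * mo v.ord O.y ∧ ∀ i, O.dv i (oP F P) = e * O.dv i v.ord := by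
    intro P v e he hv
    have h1 : oP F P = fun f => e * v.ord f := funext hv
    rw [h1]
    exact ⟨mo_mul O.y_ne he, fun i => O.dv_mul i he⟩
  refine ⟨?_, ?_, ?_, ?_⟩
  · rintro P v e ⟨he, hv⟩
    have he' : (0 : ℤ) < e := by exact_mod_cast he
    obtain ⟨h1, h2⟩ := hover P v e he' hv
    rw [hbd]
    by_cases hc : (O.bundle t h).Cen P
    · rw [if_pos hc]
      rw [O.cen_iff h P] at hc
      obtain ⟨⟨l, hl, hl'⟩, -, h3⟩ := hc
      have hv' : O.Cen v := by
        refine ⟨l, hl, ?_⟩
        rw [h1] at hl'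
        change P.ord (algebraMap F K _) = _ at hl'
        rw [hv] at hl'
        exact mul_left_cancel₀ he'.ne' (by rw [hl']; ring)
      rw [δ, if_pos hv']
      have h4 := (O.em_spec v).2 e he (fun i => ⟨P.ord (t i.succ), by rw [← h2, ← h3]⟩)
      have h5 := (O.em_spec v).1.1
      have h6 : (0 : ℚ) < O.em v := by exact_mod_cast h5
      have h7 : (O.em v : ℚ) ≤ e := by exact_mod_cast h4
      have h8 : (e : ℚ) * (1 - (1 - 1 / (O.em v : ℚ))) = e / O.em v := by ring
      rw [h8, sub_zero, le_div_iff₀ h6, one_mul]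
      exact h7
    · rw [if_neg hc]
      have h3 := O.δ_le v
      have h4 : (0 : ℚ) ≤ e := by positivity
      have := mul_nonneg h4 (sub_nonneg.2 h3)
      simpa using this
  · intro P hT
    rw [hbd]
    by_cases hc : (O.bundle t h).Cen P
    · left
      rw [if_pos hc]
      exact ⟨(O.cen_trivial h P hT).1 hc, le_rfl⟩
    · right
      rw [if_neg hc]
  · intro v _
    obtain ⟨π, hπ0, hπ⟩ := v.surj
    by_cases hv : O.Cen v
    · obtain ⟨⟨he, hdvd⟩, hmin⟩ := O.em_spec v
      set e := O.em v with hedef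
      have he' : (0 : ℤ) < e := by exact_mod_cast he
      choose b hb using hdvd
      let a : Fin (O.r + 1) → ℤ := Fin.cons (-(e * mo v.ord O.y)) b
      have ho : PreOrd ℂ (fun f : F => (e : ℤ) * v.ord f) := ⟨fun x z hx hz => by
        rw [v.ord_mul hx hz]; ring, fun x z hx hz hxz => by
        rw [← mul_min_of_nonneg _ _ he'.le]
        exact mul_le_mul_of_nonneg_left (v.ord_add hx hz hxz) he'.le, fun c hc => by
        rw [v.ord_const hc, mul_zero]⟩
      refine ⟨e, a, he, ?_, ?_⟩
      · -- the group of the values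
        let H : AddSubgroup ℤ :=
          { carrier := {z | ∃ A B : MvPolynomial (Fin (O.r + 1)) F, A ≠ 0 ∧ B ≠ 0 ∧
              gval (fun f => (e : ℤ) * v.ord f) a A = gval (fun f => (e : ℤ) * v.ord f) a B + z}
            zero_mem' := ⟨1, 1, one_ne_zero, one_ne_zero, by rw [add_zero]⟩
            add_mem' := by
              rintro z z' ⟨A, B, hA, hB, h1⟩ ⟨A', B', hA', hB', h2⟩
              refine ⟨A * A', B * B', mul_ne_zero hA hA', mul_ne_zero hB hB', ?_⟩
              rw [gval_mul ho a hA hA', gval_mul ho a hB hB', h1, h2]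
              ring
            neg_mem' := by
              rintro z ⟨A, B, hA, hB, h1⟩
              exact ⟨B, A, hB, hA, by rw [h1]; ring⟩ }
        have hone : gval (fun f => (e : ℤ) * v.ord f) a (1 : MvPolynomial (Fin (O.r + 1)) F) = 0 := by
          rw [← C_1, gval_C _ _ one_ne_zero, v.ord_one, mul_zero]
        have heH : (e : ℤ) ∈ H := ⟨C π, 1, by simpa using hπ0, one_ne_zero, by
          rw [gval_C _ _ hπ0, hπ, hone]; ring⟩
        have haH : ∀ i, a i ∈ H := fun i => ⟨X i, 1, X_ne_zero i, one_ne_zero, by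
          rw [gval_X ho, hone, zero_add]⟩
        obtain ⟨g, hg⟩ := Int.subgroup_cyclic H
        have hgdvd : ∀ z ∈ H, g ∣ z := by
          intro z hz
          rw [hg, AddSubgroup.mem_closure_singleton] at hz
          obtain ⟨n, hn⟩ := hz
          exact ⟨n, by rw [← hn, smul_eq_mul]; ring⟩
        obtain ⟨e1, he1⟩ := hgdvd _ heH
        have hg0 : g ≠ 0 := by
          rintro rfl
          rw [zero_mul] at he1
          omega
        have hle : e ≤ e1.natAbs := by
          apply hmin
          · apply Int.natAbs_pos.2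
            rintro rfl
            rw [mul_zero] at he1
            omega
          · intro i
            obtain ⟨b1, hb1⟩ := hgdvd _ (haH i.succ)
            have hb2 : b i = g * b1 := hb1
            have h1 : e1 * O.dv i v.ord = O.mult i * b1 := by
              have h2 := hb i
              rw [he1, hb2] at h2
              apply mul_left_cancel₀ hg0
              linarith
            have h3 : (O.mult i : ℤ) ∣ e1 * O.dv i v.ord := ⟨b1, h1⟩
            rcases Int.natAbs_eq e1 with h4 | h4
            · rwa [← h4]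
            · rw [h4] at h3
              rwa [neg_mul, dvd_neg] at h3
        have hg1 : g.natAbs = 1 := by
          have h1 : e = g.natAbs * e1.natAbs := by
            have := congrArg Int.natAbs he1
            rwa [Int.natAbs_mul, Int.natAbs_natCast] at this
          have h2 : 0 < g.natAbs := Int.natAbs_pos.2 hg0
          have h3 : 0 < e1.natAbs := lt_of_lt_of_le he hle
          nlinarith
        have h1H : (1 : ℤ) ∈ H := by
          rw [hg, AddSubgroup.mem_closure_singleton]
          rcases Int.natAbs_eq g with h4 | h4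
          · exact ⟨1, by rw [h4, hg1]; simp⟩
          · exact ⟨-1, by rw [h4, hg1]; simp⟩
        exact h1H
      · intro P hP
        have hPv : ∀ f : F, P.ord (algebraMap F K f) = e * v.ord f := by
          intro f
          by_cases hf : f = 0
          · rw [hf, map_zero, P.ord_zero, v.ord_zero, mul_zero]
          · exact hP.ordF hf
        obtain ⟨h1, h2⟩ := hover P v e he' hPv
        have hc : (O.bundle t h).Cen P := by
          rw [O.cen_iff h P]
          obtain ⟨l, hl, hl'⟩ := hv
          refine ⟨⟨l, hl, ?_⟩, ?_, fun i => ?_⟩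
          · rw [h1]
            change P.ord (algebraMap F K _) = _
            rw [hPv, hl']
            ring
          · rw [h1, hP.ordt ho]
            rfl
          · rw [h2, hb, hP.ordt ho]
            rfl
        rw [hbd, if_pos hc, δ, if_pos hv]
        have h6 : (0 : ℚ) < e := by exact_mod_cast he
        rw [← hedef]
        have h8 : (e : ℚ) * (1 - (1 - 1 / (e : ℚ))) = 1 := by field_simp; ring
        rw [h8, sub_zero]
    · refine ⟨1, fun _ => 0, one_pos, ⟨C π, 1, by simpa using hπ0, one_ne_zero, ?_⟩, fun P _ => ?_⟩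
      · rw [gval_C _ _ hπ0, hπ, ← C_1, gval_C _ _ one_ne_zero, v.ord_one]
        simp
      · rw [δ, if_neg hv, hbd]
        split_ifs <;> simp
  · intro P hT
    rw [hbd]
    refine ⟨by split_ifs <;> simp, fun h1 => ?_⟩
    rw [if_pos ((O.cen_trivial h P hT).2 h1)]

end Orb

end Pool.Agent.H40.TB
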