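import Pool.Agent.H40.TB.Gd
import Pool.Graph.R_seed8.W602.GT.Sys

/-!
The log plurigenera of the torus bundle.
-/

set_option autoImplicit false
set_option linter.unusedSectionVars false
set_option linter.overlappingInstances false

open FF MvPolynomial Pool.Agent.W603.LV Pool.Agent.TH122.AB Pool.Agent.W619.PQ Pool.Agent.W619.TW
  Pool.Agent.W602.GT

namespace Pool.Agent.H40.TB

theorem fd_basis' {k K : Type} [Field k] [CharZero k] [Field K] [Algebra k K]
    [Algebra.EssFiniteType k K] {n : ℕ} {Z : Fin n → K} (hZ : IsTranscendenceBasis k Z) :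
    FiniteDimensional (IntermediateField.adjoin k (Set.range Z)) K := by
  set K0 := IntermediateField.adjoin k (Set.range Z) with hK0
  have hess : Algebra.EssFiniteType K0 K := Algebra.EssFiniteType.of_comp k K0 K
  have halg : Algebra.IsAlgebraic K0 K := hZ.isAlgebraic_field
  obtain ⟨s, hs⟩ := IntermediateField.fg_top K0 K
  have h1 : FiniteDimensional K0 (IntermediateField.adjoin K0 (s : Set K)) :=
    IntermediateField.finiteDimensional_adjoin fun x _ => (halg.isAlgebraic x).isIntegral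
  rw [hs] at h1
  exact h1.equiv IntermediateField.topEquiv.toLinearEquiv

section

variable {F : Type} [Field F] [Algebra ℂ F]

theorem QVar.ess (V : QVar F) : Algebra.EssFiniteType ℂ F := by
  rw [← IntermediateField.fg_top_iff]
  have hfin : {z : F | ∃ i j, z = V.y i / V.y j}.Finite := by
    refine (Set.finite_range (fun p : V.σ × V.σ => V.y p.1 / V.y p.2)).subset ?_
    rintro z ⟨i, j, rfl⟩
    exact ⟨(i, j), rfl⟩
  exact ⟨hfin.toFinset, by rw [Set.Finite.coe_toFinset]; exact V.gen⟩

theorem QVar.trdeg (V : QVar F) : Algebra.trdeg ℂ F = V.dim := by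
  have := V.ess
  have h1 : Algebra.trdeg ℂ F < Cardinal.aleph0 := trdeg_lt_aleph0 ℂ F
  rw [QVar.dim, Cardinal.cast_toNat_of_lt_aleph0 h1]

end

namespace Orb

variable {F : Type} [Field F] [Algebra ℂ F] (O : Orb F)
variable {K : Type} [Field K] [Algebra ℂ K] [Algebra F K] [IsScalarTower ℂ F K]
variable {t : Fin (O.r + 1) → K} (h : Gens (k := F) t)

theorem dim_bundle : (O.bundle t h).dim = O.dim + (O.r + 1) := by
  have h1 := O.trdeg
  obtain ⟨b, hb⟩ := basis_of_trdeg h1
  have h2 := (zz_basis (k := ℂ) h hb).cardinalMk_eq_trdeg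
  have h3 : Algebra.trdeg ℂ K = ((O.bundle t h).dim : Cardinal) := (O.bundle t h).trdeg
  rw [h3] at h2
  simp only [Cardinal.mk_fintype, Fintype.card_fin] at h2
  exact_mod_cast h2.symm

theorem pluri_iff (m n : ℕ) :
    PluriGe O.dim m O.δ n ↔ PluriGe (O.bundle t h).dim m (O.bundle t h).bd n := by
  have h1 := O.trdeg
  obtain ⟨b, hb⟩ := basis_of_trdeg h1
  obtain ⟨E, hE⟩ : ∃ E : Fin O.dim → Derivation ℂ F F,
      ∀ i j, E i (b j) = if i = j then 1 else 0 := by
    choose G hG' using fun j : Fin O.dim => Pool.Agent.W619.PQ.exists_dual (k := ℂ) b hb j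
    refine ⟨G, fun i j => ?_⟩
    have := hG' i j
    rw [this]
    by_cases hij : i = j
    · subst hij; simp
    · rw [if_neg hij, if_neg (Ne.symm hij)]
  have := O.ess
  have h2 : Algebra.trdeg ℂ K = (O.dim + (O.r + 1) : ℕ) := by
    rw [← O.dim_bundle h]
    exact (O.bundle t h).trdeg
  rw [O.dim_bundle h]
  exact pluri_iff' h h1 h2 (fun y hy => fd_basis' hy) hb hE (O.good h _) m n

theorem kodQ_iff (n : ℕ) :
    KodQ O.dim O.δ n ↔ KodQ (O.bundle t h).dim (O.bundle t h).bd n := by
  have h1 := O.trdeg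
  obtain ⟨b, hb⟩ := basis_of_trdeg h1
  obtain ⟨E, hE⟩ : ∃ E : Fin O.dim → Derivation ℂ F F,
      ∀ i j, E i (b j) = if i = j then 1 else 0 := by
    choose G hG' using fun j : Fin O.dim => Pool.Agent.W619.PQ.exists_dual (k := ℂ) b hb j
    refine ⟨G, fun i j => ?_⟩
    have := hG' i j
    rw [this]
    by_cases hij : i = j
    · subst hij; simp
    · rw [if_neg hij, if_neg (Ne.symm hij)]
  have := O.ess
  have h2 : Algebra.trdeg ℂ K = (O.dim + (O.r + 1) : ℕ) := by
    rw [← O.dim_bundle h]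
    exact (O.bundle t h).trdeg
  rw [O.dim_bundle h]
  exact kod_iff' h h1 h2 (fun y hy => fd_basis' hy) hb hE (O.good h _) n

theorem noSec_iff : NoSec O.dim O.δ ↔ NoSec (O.bundle t h).dim (O.bundle t h).bd := by
  rw [nosec_iff_kod, nosec_iff_kod, O.kodQ_iff h]

end Orb

end Pool.Agent.H40.TB
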