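import Pool.Agent.H40.TB.Down

/-!
The spaces of sections on `F` and on `K = F(t)` are the same.
-/

set_option autoImplicit false
set_option linter.unusedSectionVars false
set_option linter.overlappingInstances false

open FF MvPolynomial Pool.Agent.W603.LV Pool.Agent.TH122.AB Pool.Agent.W619.PQ Pool.Agent.W619.TW
  Pool.Agent.W602.GT

namespace Pool.Agent.H40.TB

section

variable {k L X : Type} [Field k] [Field L] [Algebra k L]

/-- multiplication by a function -/
def mulLin (g : X → L) : L →ₗ[k] (X → L) where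
  toFun c := fun x => c * g x
  map_add' a b := by funext x; exact add_mul _ _ _
  map_smul' r a := by
    funext x
    simp only [Algebra.smul_mul_assoc, RingHom.id_apply, Pi.smul_apply]

theorem mulLin_ker {g : X → L} {x0 : X} (h : g x0 ≠ 0) :
    LinearMap.ker (mulLin (k := k) g) = ⊥ := by
  rw [LinearMap.ker_eq_bot']
  intro c hc
  have := congrFun hc x0
  exact (mul_eq_zero.1 this).resolve_right h

end

variable {k F K : Type} [Field k] [CharZero k] [Field F] [Field K] [Algebra k F] [Algebra k K]
  [Algebra F K] [IsScalarTower k F K] {s d : ℕ} {t : Fin s → K}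

/-- the coordinates of `K` -/
def zz (b : Fin d → F) (t : Fin s → K) : Fin (d + s) → K :=
  (Sum.elim (algebraMap F K ∘ b) t) ∘ finSumFinEquiv.symm

theorem zz_basis (h : Gens (k := F) t) {b : Fin d → F} (hb : IsTranscendenceBasis k b) :
    IsTranscendenceBasis k (zz b t) := by
  have hbt : IsTranscendenceBasis F t := by
    rw [h.ind.isTranscendenceBasis_iff_isAlgebraic]
    refine alg_adjoin fun z => ?_
    obtain ⟨A, B, hB, hz⟩ := h.gen z
    have h1 : z ∈ IntermediateField.adjoin F (Set.range t) := by
      rw [IntermediateField.mem_adjoin_range_iff]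
      exact ⟨A, B, hz⟩
    exact isAlgebraic_algebraMap (⟨z, h1⟩ : IntermediateField.adjoin F (Set.range t))
  have h1 := hb.sumElim_comp hbt
  refine (isTranscendenceBasis_equiv' ((Equiv.sumComm _ _).trans finSumFinEquiv) ?_).1 h1
  funext i
  rcases i with i | i <;> simp [zz]

theorem zz_det (h : Gens (k := F) t) (b : Fin d → F) (D : Fin (d + s) → Derivation k K K) :
    (mat (zz b t) D).det = (∏ l, t l) * (matK b t (D ∘ finSumFinEquiv)).det := by
  have h1 : (mat (zz b t) D).submatrix finSumFinEquiv finSumFinEquiv =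
      matK b t (D ∘ finSumFinEquiv) * Matrix.diagonal (Sum.elim (fun _ => 1) t) := by
    ext j i
    rw [Matrix.mul_diagonal, Matrix.submatrix_apply, mat, Matrix.of_apply, matK, Matrix.of_apply,
      zz, Function.comp_apply, Equiv.symm_apply_apply]
    rcases i with i | i
    · simp
    · simp only [Sum.elim_inr, Function.comp_apply]
      rw [div_mul_cancel₀ _ (Gens.t_ne h i)]
  rw [← Matrix.det_submatrix_equiv_self finSumFinEquiv, h1, Matrix.det_mul, Matrix.det_diagonal,
    Fintype.prod_sum_type]
  simp [mul_comm]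

section

variable (h : Gens (k := F) t) (hd : Algebra.trdeg k F = d)
    (hdK : Algebra.trdeg k K = (d + s : ℕ))
    (hfd : ∀ y : Fin d → F, IsTranscendenceBasis k y →
      FiniteDimensional (IntermediateField.adjoin k (Set.range y)) F)
    {b : Fin d → F} (hb : IsTranscendenceBasis k b)
    {E : Fin d → Derivation k F F} (hE : ∀ i j, E i (b j) = if i = j then 1 else 0)
    {δF : Place k F → ℚ} {δK : Place k K → ℚ} (hG : Good t d δF δK) (m : ℕ)

include hb hE in
theorem secF_iff (ω : (Fin d → Derivation k F F) → F) : Sec d m δF ω ↔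
    ∃ c, SecH d m δF (mat b) c ∧ ω = mulLin (k := k) (fun D => (mat b D).det ^ m) c := by
  rw [sec_iff hb hE]
  constructor
  · rintro ⟨h1, h2⟩
    exact ⟨_, h2, h1⟩
  · rintro ⟨c, h1, h2⟩
    have h3 : ω E = c := by
      rw [h2]
      change c * (mat b E).det ^ m = c
      rw [mat_dual hE, Matrix.det_one, one_pow, mul_one]
    rw [h3]
    exact ⟨h2, h1⟩

include h hd hdK hfd hb hE hG in
theorem secK_iff (ω : (Fin (d + s) → Derivation k K K) → K) : Sec (d + s) m δK ω ↔
    ∃ c, SecH d m δF (mat b) c ∧ ω = mulLin (k := k)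
      (fun D => (matK b t (D ∘ finSumFinEquiv)).det ^ m) (algebraMap F K c) := by
  classical
  have hzb := zz_basis (k := k) h hb
  obtain ⟨EK, hEK⟩ : ∃ EK : Fin (d + s) → Derivation k K K,
      ∀ i j, EK i (zz b t j) = if i = j then 1 else 0 := by
    choose G hG' using fun j : Fin (d + s) => exists_dual (k := k) (zz b t) hzb j
    refine ⟨G, fun i j => ?_⟩
    have := hG' i j
    rw [this]
    by_cases hij : i = j
    · subst hij; simp
    · rw [if_neg hij, if_neg (Ne.symm hij)]
  have hT : (∏ l, t l) ≠ 0 := Finset.prod_ne_zero_iff.2 fun l _ => Gens.t_ne h l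
  rw [sec_iff hzb hEK]
  have key : ∀ g : K, SecH (d + s) m δK (mat (zz b t)) g ↔
      SecH (d + s) m δK (matK b t) (g * (∏ l, t l) ^ m) := by
    intro g
    have h1 : ∀ D : Fin (d + s) → Derivation k K K, g * (mat (zz b t) D).det ^ m =
        g * (∏ l, t l) ^ m * (matK b t (D ∘ finSumFinEquiv)).det ^ m := by
      intro D
      rw [zz_det h, mul_pow]
      ring
    constructor
    · intro h2 P hP D hD
      have h3 := h2 P hP (D ∘ finSumFinEquiv.symm) (fun i => hD _)
      rw [h1] at h3
      have h4 : (D ∘ finSumFinEquiv.symm) ∘ finSumFinEquiv = D := by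
        funext i
        simp
      rwa [h4] at h3
    · intro h2 P hP D hD
      rw [h1]
      exact h2 P hP _ (fun i => hD _)
  constructor
  · rintro ⟨h1, h2⟩
    rw [key] at h2
    obtain ⟨c, hc⟩ := mem_F h hb hE hG h2
    rw [hc] at h2
    refine ⟨c, down h hd hfd b hG h2, ?_⟩
    rw [h1]
    funext D
    change ω EK * (mat (zz b t) D).det ^ m =
      algebraMap F K c * (matK b t (D ∘ finSumFinEquiv)).det ^ m
    rw [← hc, zz_det h, mul_pow]
    ring
  · rintro ⟨c, h1, h2⟩
    have h3 := up h hd hdK hfd hb hG h1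
    have h4 : ω EK * (∏ l, t l) ^ m = algebraMap F K c := by
      rw [h2]
      change algebraMap F K c * (matK b t (EK ∘ finSumFinEquiv)).det ^ m * (∏ l, t l) ^ m = _
      have h5 := zz_det h b EK
      rw [mat_dual hEK, Matrix.det_one] at h5
      rw [mul_assoc, ← mul_pow, mul_comm (matK b t (EK ∘ finSumFinEquiv)).det, ← h5, one_pow,
        mul_one]
    rw [← h4] at h3
    refine ⟨?_, (key _).2 h3⟩
    rw [h2]
    funext D
    change algebraMap F K c * (matK b t (D ∘ finSumFinEquiv)).det ^ m =
      (algebraMap F K c * (matK b t (EK ∘ finSumFinEquiv)).det ^ m) * (mat (zz b t) D).det ^ m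
    rw [zz_det h b D, mul_pow]
    have h5 := zz_det h b EK
    rw [mat_dual hEK, Matrix.det_one] at h5
    have h6 : (∏ l, t l) ^ m * (matK b t (EK ∘ finSumFinEquiv)).det ^ m = 1 := by
      rw [← mul_pow, ← h5, one_pow]
    calc algebraMap F K c * (matK b t (D ∘ finSumFinEquiv)).det ^ m =
        algebraMap F K c * (matK b t (D ∘ finSumFinEquiv)).det ^ m *
          ((∏ l, t l) ^ m * (matK b t (EK ∘ finSumFinEquiv)).det ^ m) := by rw [h6, mul_one]
      _ = _ := by ring

include h hb hE in
theorem exists_frameK : ∃ D : Fin (d + s) → Derivation k K K,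
    (matK b t (D ∘ finSumFinEquiv)).det = 1 := by
  obtain ⟨Et, θ, h1, h2, h3, h4⟩ := exists_ext h hb hE
  refine ⟨Sum.elim Et θ ∘ finSumFinEquiv.symm, ?_⟩
  have h5 : (Sum.elim Et θ ∘ finSumFinEquiv.symm) ∘ finSumFinEquiv = Sum.elim Et θ := by
    funext i
    simp
  rw [h5, matK_frame h b h1 h2 h3 h4, mat_dual hE, Matrix.det_one, map_one]

include h hd hdK hfd hb hE hG in
theorem pluri_iff' (r : ℕ) : PluriGe d m δF r ↔ PluriGe (d + s) m δK r := by
  have hF := mulLin_ker (k := k) (g := fun D : Fin d → Derivation k F F => (mat b D).det ^ m)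
    (x0 := E) (by rw [mat_dual hE, Matrix.det_one, one_pow]; exact one_ne_zero)
  obtain ⟨D1, hD1⟩ := exists_frameK h hb hE (k := k)
  have hK := mulLin_ker (k := k) (g := fun D : Fin (d + s) → Derivation k K K =>
    (matK b t (D ∘ finSumFinEquiv)).det ^ m)
    (x0 := D1) (by rw [hD1, one_pow]; exact one_ne_zero)
  let iF : F →ₗ[k] K := (IsScalarTower.toAlgHom k F K).toLinearMap
  have hi : LinearMap.ker iF = ⊥ := LinearMap.ker_eq_bot.2 (algebraMap F K).injective
  have key : ∀ c : Fin r → F, LinearIndependent k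
      (fun j => mulLin (k := k) (fun D : Fin d → Derivation k F F => (mat b D).det ^ m) (c j)) ↔
      LinearIndependent k (fun j => mulLin (k := k) (fun D : Fin (d + s) → Derivation k K K =>
        (matK b t (D ∘ finSumFinEquiv)).det ^ m) (algebraMap F K (c j))) := by
    intro c
    have h1 := LinearMap.linearIndependent_iff (v := c) _ hF
    have h2 := LinearMap.linearIndependent_iff (v := c) _ hi
    have h3 := LinearMap.linearIndependent_iff (v := iF ∘ c) _ hK
    exact h1.trans (h2.symm.trans h3.symm)
  constructor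
  · rintro ⟨ω, h1, h2⟩
    choose c hc hω using fun j => (secF_iff hb hE m (ω j)).1 (h1 j)
    refine ⟨fun j => mulLin (k := k) (fun D : Fin (d + s) → Derivation k K K =>
      (matK b t (D ∘ finSumFinEquiv)).det ^ m) (algebraMap F K (c j)), fun j => ?_, ?_⟩
    · exact (secK_iff h hd hdK hfd hb hE hG m _).2 ⟨c j, hc j, rfl⟩
    · rw [← key]
      convert h2 using 1
      funext j
      exact (hω j).symm
  · rintro ⟨ω, h1, h2⟩
    choose c hc hω using fun j => (secK_iff h hd hdK hfd hb hE hG m (ω j)).1 (h1 j)
    refine ⟨fun j => mulLin (k := k) (fun D : Fin d → Derivation k F F =>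
      (mat b D).det ^ m) (c j), fun j => ?_, ?_⟩
    · exact (secF_iff hb hE m _).2 ⟨c j, hc j, rfl⟩
    · rw [key]
      convert h2 using 1
      funext j
      exact (hω j).symm

include h hd hdK hfd hb hE hG in
theorem kod_iff' (r : ℕ) : KodQ d δF r ↔ KodQ (d + s) δK r := by
  obtain ⟨D1, hD1⟩ := exists_frameK h hb hE (k := k)
  have hED : (mat b E).det = 1 := by rw [mat_dual hE, Matrix.det_one]
  have hratio : ∀ {L : Type} [Field L] {x y z : L}, z ≠ 0 → x * z / (y * z) = x / y := by
    intro L _ x y z hz
    rw [mul_div_mul_right _ _ hz]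
  have halg : ∀ c : Fin (r + 1) → F,
      AlgebraicIndependent k (fun i : Fin r => c i.succ / c 0) ↔
      AlgebraicIndependent k (fun i : Fin r => algebraMap F K (c i.succ) / algebraMap F K (c 0)) := by
    intro c
    have h1 := AlgHom.algebraicIndependent_iff (x := fun i : Fin r => c i.succ / c 0)
      (IsScalarTower.toAlgHom k F K) (algebraMap F K).injective
    rw [← h1]
    have h2 : (IsScalarTower.toAlgHom k F K) ∘ (fun i : Fin r => c i.succ / c 0) =
        fun i : Fin r => algebraMap F K (c i.succ) / algebraMap F K (c 0) := by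
      funext i
      simp
    rw [h2]
  constructor
  · rintro ⟨m, hm, ω, h1, D, hD, h2⟩
    choose c hc hω using fun j => (secF_iff hb hE m (ω j)).1 (h1 j)
    have hv : ∀ j D, ω j D = c j * (mat b D).det ^ m := fun j D => congrFun (hω j) D
    rw [hv] at hD
    refine ⟨m, hm, fun j => mulLin (k := k) (fun D : Fin (d + s) → Derivation k K K =>
      (matK b t (D ∘ finSumFinEquiv)).det ^ m) (algebraMap F K (c j)), fun j => ?_, D1, ?_, ?_⟩
    · exact (secK_iff h hd hdK hfd hb hE hG m _).2 ⟨c j, hc j, rfl⟩
    · change algebraMap F K (c 0) * (matK b t (D1 ∘ finSumFinEquiv)).det ^ m ≠ 0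
      rw [hD1, one_pow, mul_one, Ne, map_eq_zero]
      exact left_ne_zero_of_mul hD
    · have h3 : (fun i : Fin r => ω i.succ D / ω 0 D) = fun i => c i.succ / c 0 := by
        funext i
        rw [hv, hv, hratio (right_ne_zero_of_mul hD)]
      rw [h3, halg] at h2
      have h4 : (fun i : Fin r => mulLin (k := k) (fun D : Fin (d + s) → Derivation k K K =>
          (matK b t (D ∘ finSumFinEquiv)).det ^ m) (algebraMap F K (c i.succ)) D1 /
          mulLin (k := k) (fun D : Fin (d + s) → Derivation k K K =>
          (matK b t (D ∘ finSumFinEquiv)).det ^ m) (algebraMap F K (c 0)) D1) =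
          fun i : Fin r => algebraMap F K (c i.succ) / algebraMap F K (c 0) := by
        funext i
        change algebraMap F K (c i.succ) * (matK b t (D1 ∘ finSumFinEquiv)).det ^ m /
          (algebraMap F K (c 0) * (matK b t (D1 ∘ finSumFinEquiv)).det ^ m) = _
        rw [hD1, one_pow, mul_one, mul_one]
      rw [h4]
      exact h2
  · rintro ⟨m, hm, ω, h1, D, hD, h2⟩
    choose c hc hω using fun j => (secK_iff h hd hdK hfd hb hE hG m (ω j)).1 (h1 j)
    have hv : ∀ j D, ω j D = algebraMap F K (c j) * (matK b t (D ∘ finSumFinEquiv)).det ^ m :=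
      fun j D => congrFun (hω j) D
    rw [hv] at hD
    refine ⟨m, hm, fun j => mulLin (k := k) (fun D : Fin d → Derivation k F F =>
      (mat b D).det ^ m) (c j), fun j => ?_, E, ?_, ?_⟩
    · exact (secF_iff hb hE m _).2 ⟨c j, hc j, rfl⟩
    · change c 0 * (mat b E).det ^ m ≠ 0
      rw [hED, one_pow, mul_one]
      intro h0
      exact left_ne_zero_of_mul hD (by rw [h0, map_zero])
    · have h3 : (fun i : Fin r => ω i.succ D / ω 0 D) =
          fun i => algebraMap F K (c i.succ) / algebraMap F K (c 0) := by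
        funext i
        rw [hv, hv, hratio (right_ne_zero_of_mul hD)]
      rw [h3, ← halg] at h2
      have h4 : (fun i : Fin r => mulLin (k := k) (fun D : Fin d → Derivation k F F =>
          (mat b D).det ^ m) (c i.succ) E / mulLin (k := k) (fun D : Fin d → Derivation k F F =>
          (mat b D).det ^ m) (c 0) E) = fun i : Fin r => c i.succ / c 0 := by
        funext i
        change c i.succ * (mat b E).det ^ m / (c 0 * (mat b E).det ^ m) = _
        rw [hED, one_pow, mul_one, mul_one]
      rw [h4]
      exact h2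

end

theorem nosec_iff_kod {k K : Type} [Field k] [Field K] [Algebra k K] (w : ℕ) (δ : Place k K → ℚ) :
    NoSec w δ ↔ ¬ KodQ w δ 0 := by
  constructor
  · rintro h ⟨m, hm, ω, h1, D, hD, -⟩
    exact hD (h m hm (ω 0) (h1 0) D)
  · intro h m hm ω hω D
    by_contra hD
    exact h ⟨m, hm, fun _ => ω, fun _ => hω, D, hD, algebraicIndependent_empty_type⟩

end Pool.Agent.H40.TB
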