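import Pool.Agent.H40.TB.Smo

/-!
The conjecture for all varieties, for quasi-affine varieties and for orbifolds.
-/

set_option autoImplicit false
set_option linter.unusedSectionVars false
set_option linter.overlappingInstances false

open FF MvPolynomial Pool.Agent.TH122.AB

namespace Pool.Agent.H40.TB

theorem linInd_sum_empty {α β M : Type} [IsEmpty β] [AddCommGroup M] [Module ℂ M] {f : α → M}
    (g : β → M) (hf : LinearIndependent ℂ f) : LinearIndependent ℂ (Sum.elim f g) := by
  have h1 : Sum.elim f g = f ∘ (Equiv.sumEmpty α β) := by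
    funext x
    rcases x with x | x
    · rfl
    · exact isEmptyElim x
  rw [h1]
  exact hf.comp _ (Equiv.injective _)

section

variable {F : Type} [Field F] [Algebra ℂ F]

/-- a variety as an orbifold without divisors -/
def QVar.toOrb (V : QVar F) : Orb F where
  toQVar := V
  r := 0
  mult := fun i => i.elim0
  mult_pos := fun i => i.elim0
  τ := fun i => i.elim0
  finτ := fun i => i.elim0
  G := fun i => i.elim0
  degG := fun i => i.elim0
  homG := fun i => i.elim0
  G_ne := fun i => i.elim0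

theorem QVar.toOrb_δ (V : QVar F) : V.toOrb.δ = V.bd := by
  classical
  funext v
  have h1 := (V.toOrb.em_spec v).2 1 one_pos (fun i => i.elim0)
  have h2 := (V.toOrb.em_spec v).1.1
  have h3 : V.toOrb.em v = 1 := by omega
  have h4 : V.toOrb.Cen v ↔ V.Cen v := Iff.rfl
  rw [Orb.δ, QVar.bd]
  by_cases hc : V.Cen v
  · rw [if_pos hc, if_pos (h4.2 hc), h3]
    simp
  · rw [if_neg hc, if_neg (fun h => hc (h4.1 h))]

theorem QVar.toOrb_a1 (V : QVar F) : V.toOrb.OrbA1 ↔ V.A1 := by
  constructor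
  · rintro ⟨n, G, h1, h2, h3⟩
    refine ⟨n, G, h1, h2, fun x hx hxG => ?_⟩
    obtain ⟨T, hT, hT0⟩ := h3 x hx hxG
    exact ⟨T, hT.1, hT0⟩
  · rintro ⟨n, G, h1, h2, h3⟩
    refine ⟨n, G, h1, h2, fun x hx hxG => ?_⟩
    obtain ⟨T, hT, hT0⟩ := h3 x hx hxG
    exact ⟨T, ⟨hT, fun i => i.elim0⟩, hT0⟩

theorem QVar.toOrb_conj (V : QVar F) : V.toOrb.OrbConj ↔ V.Conj := by
  rw [Orb.OrbConj, QVar.Conj, V.toOrb_a1, V.toOrb_δ]
  rfl

theorem QVar.toOrb_snc (V : QVar F) (hV : V.Smooth) : V.toOrb.SNC := by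
  refine ⟨fun i => i.elim0, fun x hx => ?_⟩
  obtain ⟨c, f, n, h1, h2, h3⟩ := hV x hx
  refine ⟨c, f, n, h1, h2, ?_⟩
  have : IsEmpty {p : Σ i, V.toOrb.τ i // aeval x (V.toOrb.G p.1 p.2) = 0} :=
    ⟨fun p => p.1.1.elim0⟩
  exact linInd_sum_empty _ h3

theorem Orb.conj_iff (O : Orb F) {K : Type} [Field K] [Algebra ℂ K] [Algebra F K]
    [IsScalarTower ℂ F K] {t : Fin (O.r + 1) → K} (h : Gens (k := F) t) :
    (O.bundle t h).Conj ↔ O.OrbConj := by
  rw [QVar.Conj, Orb.OrbConj, O.a1_iff h, O.noSec_iff h]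

end

/-- the variables of the field of rational functions -/
noncomputable def vars (F : Type) [Field F] (r : ℕ) (i : Fin r) :
    FractionRing (MvPolynomial (Fin r) F) := algebraMap (MvPolynomial (Fin r) F) _ (X i)

theorem gens_vars (F : Type) [Field F] (r : ℕ) : Gens (k := F) (vars F r) := by
  have h1 : ∀ A : MvPolynomial (Fin r) F, aeval (vars F r) A =
      algebraMap (MvPolynomial (Fin r) F) (FractionRing (MvPolynomial (Fin r) F)) A := by
    intro A
    have h2 : vars F r = fun i => algebraMap (MvPolynomial (Fin r) F)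
        (FractionRing (MvPolynomial (Fin r) F)) (X i) := rfl
    have h3 := MvPolynomial.aeval_algebraMap_apply (R := F)
      (FractionRing (MvPolynomial (Fin r) F)) (X : Fin r → MvPolynomial (Fin r) F) A
    rw [MvPolynomial.aeval_X_left_apply] at h3
    exact h3
  refine ⟨?_, fun z => ?_⟩
  · intro A B hAB
    rw [h1, h1] at hAB
    exact IsFractionRing.injective _ _ hAB
  · obtain ⟨A, B, hB, hz⟩ := IsFractionRing.div_surjective (A := MvPolynomial (Fin r) F) z
    exact ⟨A, B, nonZeroDivisors.ne_zero hB, by rw [h1, h1, hz]⟩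

end Pool.Agent.H40.TB
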