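import Pool.Agent.H40.TB.Divi
import Pool.Agent.H40.TB.Defs
import Pool.Graph.R_seed8.W762.PG.PRES
import Pool.Graph.R_seed8.W240.PG.Frame
import Pool.Graph.R_seed8.W419.PG.DIVR

/-!
Pluricanonical forms with fractional poles; matrices of derivations.
-/

set_option autoImplicit false
set_option linter.unusedSectionVars false
set_option linter.overlappingInstances false

open FF MvPolynomial Pool.Agent.W603.LV Pool.Agent.TH122.AB Pool.Agent.W619.PQ Pool.Agent.W619.TW
  Pool.Agent.W602.GT

namespace Pool.Agent.H40.TB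

theorem pPRES : Pool.Agent.W619.Y.S_PRES.{0, 0} := Pool.Agent.W762.PG.main
theorem pFRAME : Pool.Agent.W619.Y.S_FRAME.{0, 0} := Pool.Agent.W240.PG.Frame.main pPRES
theorem pDIVR : Pool.Agent.W619.Y.S_DIVR.{0, 0} := Pool.Agent.W419.PG.main

section

variable {k K : Type} [Field k] [Field K] [Algebra k K]

/-- zero or of order at least `q` -/
def GeQ (P : Place k K) (q : ℚ) (f : K) : Prop := f = 0 ∨ q ≤ (P.ord f : ℚ)

theorem GeQ.mono {P : Place k K} {q q' : ℚ} {f : K} (h : GeQ P q f) (hq : q' ≤ q) : GeQ P q' f := by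
  rcases h with h | h
  · exact Or.inl h
  · exact Or.inr (hq.trans h)

theorem Ge.toQ {P : Place k K} {n : ℤ} {f : K} (h : Ge P n f) : GeQ P n f := by
  rcases h with h | h
  · exact Or.inl h
  · exact Or.inr (by exact_mod_cast h)

theorem GeQ.mul {P : Place k K} {q q' : ℚ} {f g : K} (hf : GeQ P q f) (hg : GeQ P q' g) :
    GeQ P (q + q') (f * g) := by
  by_cases h1 : f = 0
  · left; rw [h1, zero_mul]
  by_cases h2 : g = 0
  · left; rw [h2, mul_zero]
  right
  rw [P.ord_mul h1 h2]
  push_cast
  exact add_le_add (hf.resolve_left h1) (hg.resolve_left h2)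

theorem GeQ.of_mul {P : Place k K} {q : ℚ} {h f : K} (h0 : h ≠ 0) (hf : GeQ P q (h * f)) :
    GeQ P (q - P.ord h) f := by
  rcases hf with hf | hf
  · left; exact (mul_eq_zero.1 hf).resolve_left h0
  · by_cases h1 : f = 0
    · exact Or.inl h1
    · right
      rw [P.ord_mul h0 h1] at hf
      push_cast at hf
      linarith

theorem sum_apply {ι : Type} [Fintype ι] (c : ι → K) (D : ι → Derivation k K K) (f : K) :
    (∑ j, c j • D j) f = ∑ j, c j * D j f := by
  classical
  have : ∀ s : Finset ι, (∑ j ∈ s, c j • D j) f = ∑ j ∈ s, c j * D j f := by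
    intro s
    induction s using Finset.induction_on with
    | empty => simp
    | insert a s ha ih =>
      rw [Finset.sum_insert ha, Finset.sum_insert ha, ← ih]
      rfl
  exact this _

theorem det_log' {ι : Type} [Fintype ι] [DecidableEq ι] (v : Place k K)
    (D : ι → Derivation k K K) (hD : ∀ j, Pres v (D j)) (z : ι → K) (hz : ∀ i, z i ≠ 0) :
    Ge v (-1) (Matrix.det (Matrix.of fun j i => D j (z i) / z i)) := by
  let e := (Fintype.equivFin ι).symm
  have h := det_log v (fun j => D (e j)) (fun j => hD _) (fun i => z (e i)) (fun i => hz _)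
  rw [← Matrix.det_submatrix_equiv_self e]
  exact h

/-- the form `h det M ^ m` is a section -/
def SecH {ι : Type} [Fintype ι] [DecidableEq ι] (w m : ℕ) (δ : Place k K → ℚ)
    (M : (ι → Derivation k K K) → Matrix ι ι K) (h : K) : Prop :=
  ∀ P : Place k K, Divisorial w P → ∀ D : ι → Derivation k K K, (∀ i, DerReg P (D i)) →
    GeQ P (-(m * δ P)) (h * (M D).det ^ m)

/-- the matrix of the functions `z` -/
def mat {ι : Type} (z : ι → K) (D : ι → Derivation k K K) : Matrix ι ι K :=
  Matrix.of fun j i => D j (z i)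

theorem mat_sum {ι : Type} [Fintype ι] (z : ι → K) (A : Matrix ι ι K) (D : ι → Derivation k K K) :
    mat z (fun i => ∑ j, A i j • D j) = A * mat z D := by
  ext i l
  rw [Matrix.mul_apply]
  simp only [mat, Matrix.of_apply]
  rw [sum_apply]

variable [CharZero k]

/-- the derivations in terms of a frame -/
theorem der_expand {ι : Type} [Fintype ι] [DecidableEq ι] {z : ι → K}
    (hz : IsTranscendenceBasis k z) {E : ι → Derivation k K K}
    (hE : ∀ i j, E i (z j) = if i = j then 1 else 0) (D : Derivation k K K) :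
    D = ∑ l, D (z l) • E l := by
  apply Derivation.ext
  intro f
  have h1 := der_zero (D - ∑ l, D (z l) • E l) z hz (fun j => by
    change D (z j) - (∑ l, D (z l) • E l) (z j) = 0
    rw [sum_apply, Finset.sum_eq_single j]
    · rw [hE, if_pos rfl, mul_one, sub_self]
    · intro l _ hl
      rw [hE, if_neg hl, mul_zero]
    · simp) f
  exact sub_eq_zero.1 h1

theorem pluri_eval {w m : ℕ} {ω : (Fin w → Derivation k K K) → K} (hω : IsPluri m ω)
    {z : Fin w → K} (hz : IsTranscendenceBasis k z) {E : Fin w → Derivation k K K}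
    (hE : ∀ i j, E i (z j) = if i = j then 1 else 0) (D : Fin w → Derivation k K K) :
    ω D = ω E * (mat z D).det ^ m := by
  have h1 : D = fun i => ∑ j, (mat z D) i j • E j := by
    funext i
    exact der_expand hz hE (D i)
  conv_lhs => rw [h1]
  rw [hω, mul_comm]

theorem pluri_mat {w : ℕ} (m : ℕ) (z : Fin w → K) (h : K) :
    IsPluri m (fun D : Fin w → Derivation k K K => h * (mat z D).det ^ m) := by
  intro A D
  simp only
  rw [mat_sum, Matrix.det_mul]
  ring

theorem mat_dual {ι : Type} [Fintype ι] [DecidableEq ι] {z : ι → K} {E : ι → Derivation k K K}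
    (hE : ∀ i j, E i (z j) = if i = j then 1 else 0) : mat z E = 1 := by
  ext i j
  rw [mat, Matrix.of_apply, hE, Matrix.one_apply]

theorem sec_iff {w m : ℕ} {δ : Place k K → ℚ} {ω : (Fin w → Derivation k K K) → K}
    {z : Fin w → K} (hz : IsTranscendenceBasis k z) {E : Fin w → Derivation k K K}
    (hE : ∀ i j, E i (z j) = if i = j then 1 else 0) :
    Sec w m δ ω ↔ ω = (fun D => ω E * (mat z D).det ^ m) ∧ SecH w m δ (mat z) (ω E) := by
  constructor
  · rintro ⟨h1, h2⟩
    have h3 := pluri_eval h1 hz hE
    refine ⟨funext h3, fun P hP D hD => ?_⟩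
    rw [← h3]
    exact h2 P hP D hD
  · rintro ⟨h1, h2⟩
    refine ⟨?_, fun P hP D hD => ?_⟩
    · rw [h1]; exact pluri_mat m z _
    · have := h2 P hP D hD
      rw [h1]
      exact this

end

section

variable {k F K : Type} [Field k] [CharZero k] [Field F] [Field K] [Algebra k F] [Algebra k K]
  [Algebra F K] [IsScalarTower k F K] {s d : ℕ} {t : Fin s → K}

/-- the matrix of `b` and `log t` -/
def matK (b : Fin d → F) (t : Fin s → K) (D : Fin d ⊕ Fin s → Derivation k K K) :
    Matrix (Fin d ⊕ Fin s) (Fin d ⊕ Fin s) K :=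
  Matrix.of fun j => Sum.elim (fun i => D j (algebraMap F K (b i))) (fun l => D j (t l) / t l)

/-- derivations of `K` on `F` -/
theorem der_on {y : Fin d → F} (hy : IsTranscendenceBasis k y) {E : Fin d → Derivation k F F}
    (hE : ∀ i j, E i (y j) = if i = j then 1 else 0) (D : Derivation k K K) (f : F) :
    D (algebraMap F K f) = ∑ l, D (algebraMap F K (y l)) * algebraMap F K (E l f) := by
  have h1 : ∀ f : F, (∑ l, D (algebraMap F K (y l)) •
      ((Algebra.linearMap F K).compDer (E l))) f =
      ∑ l, D (algebraMap F K (y l)) * algebraMap F K (E l f) := by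
    intro f
    have : ∀ s : Finset (Fin d), (∑ l ∈ s, D (algebraMap F K (y l)) •
        ((Algebra.linearMap F K).compDer (E l))) f =
        ∑ l ∈ s, D (algebraMap F K (y l)) * algebraMap F K (E l f) := by
      intro s
      induction s using Finset.induction_on with
      | empty => simp
      | insert a s ha ih =>
        rw [Finset.sum_insert ha, Finset.sum_insert ha, ← ih]
        rfl
    exact this _
  have h2 := der_zero ((D.compAlgebraMap F) - ∑ l, D (algebraMap F K (y l)) •
      ((Algebra.linearMap F K).compDer (E l))) y hy (fun j => by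
    change D (algebraMap F K (y j)) - (∑ l, D (algebraMap F K (y l)) •
      ((Algebra.linearMap F K).compDer (E l))) (y j) = 0
    rw [h1, Finset.sum_eq_single j]
    · rw [hE, if_pos rfl, map_one, mul_one, sub_self]
    · intro l _ hl
      rw [hE, if_neg hl, map_zero, mul_zero]
    · simp) f
  change D (algebraMap F K f) - (∑ l, D (algebraMap F K (y l)) •
      ((Algebra.linearMap F K).compDer (E l))) f = 0 at h2
  rw [h1] at h2
  exact sub_eq_zero.1 h2

/-- change of the basis of `F` -/
theorem matK_base (b : Fin d → F) {y : Fin d → F} (hy : IsTranscendenceBasis k y)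
    {E : Fin d → Derivation k F F} (hE : ∀ i j, E i (y j) = if i = j then 1 else 0)
    (D : Fin d ⊕ Fin s → Derivation k K K) :
    (matK b t D).det = (matK y t D).det * algebraMap F K (mat b E).det := by
  have h1 : matK b t D = matK y t D *
      Matrix.fromBlocks ((algebraMap F K).mapMatrix (mat b E)) 0 0 1 := by
    ext j i
    rw [Matrix.mul_apply, Fintype.sum_sum_type]
    rcases i with i | i
    · simp only [matK, Matrix.of_apply, Sum.elim_inl, Sum.elim_inr, Matrix.fromBlocks_apply₁₁,
        Matrix.fromBlocks_apply₂₁, Matrix.zero_apply, mul_zero, Finset.sum_const_zero, add_zero,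
        RingHom.mapMatrix_apply, Matrix.map_apply, mat]
      exact der_on hy hE (D j) (b i)
    · simp only [matK, Matrix.of_apply, Sum.elim_inl, Sum.elim_inr, Matrix.fromBlocks_apply₁₂,
        Matrix.fromBlocks_apply₂₂, Matrix.zero_apply, mul_zero, Finset.sum_const_zero, zero_add,
        Matrix.one_apply, mul_ite, mul_one]
      rw [Finset.sum_ite_eq' Finset.univ i]
      simp
  rw [h1, Matrix.det_mul, Matrix.det_fromBlocks_zero₂₁, Matrix.det_one, mul_one, RingHom.map_det]

theorem matK_sum (b : Fin d → F) (A : Matrix (Fin d ⊕ Fin s) (Fin d ⊕ Fin s) K)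
    (D : Fin d ⊕ Fin s → Derivation k K K) :
    matK b t (fun i => ∑ j, A i j • D j) = A * matK b t D := by
  ext i l
  rw [Matrix.mul_apply]
  rcases l with l | l
  · simp only [matK, Matrix.of_apply, Sum.elim_inl]
    rw [sum_apply]
  · simp only [matK, Matrix.of_apply, Sum.elim_inr]
    rw [sum_apply, Finset.sum_div]
    refine Finset.sum_congr rfl fun j _ => ?_
    ring

/-- one row replaced by a combination of the rows -/
theorem matK_update (b : Fin d → F) (D : Fin d ⊕ Fin s → Derivation k K K) (i : Fin d ⊕ Fin s)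
    (c : Fin d ⊕ Fin s → K) :
    (matK b t (Function.update D i (∑ j, c j • D j))).det = c i * (matK b t D).det := by
  have h1 : matK b t (Function.update D i (∑ j, c j • D j)) =
      (matK b t D).updateRow i (∑ j, c j • (matK b t D) j) := by
    ext i' l
    by_cases hi : i' = i
    · subst hi
      rw [Matrix.updateRow_self]
      rw [Finset.sum_apply]
      rcases l with l | l
      · simp only [matK, Matrix.of_apply, Sum.elim_inl, Pi.smul_apply, smul_eq_mul]
        rw [Function.update_self, sum_apply]
      · simp only [matK, Matrix.of_apply, Sum.elim_inr, Pi.smul_apply, smul_eq_mul]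
        rw [Function.update_self, sum_apply, Finset.sum_div]
        refine Finset.sum_congr rfl fun j _ => ?_
        ring
    · rw [Matrix.updateRow_ne hi]
      simp only [matK, Matrix.of_apply]
      rw [Function.update_of_ne hi]
  rw [h1, Matrix.det_updateRow_sum, smul_eq_mul]

/-- the frame of `K` -/
theorem matK_frame (h : Gens (k := F) t) (b : Fin d → F) {E : Fin d → Derivation k F F}
    {Et : Fin d → Derivation k K K} {θ : Fin s → Derivation k K K}
    (h1 : ∀ i (f : F), Et i (algebraMap F K f) = algebraMap F K (E i f))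
    (h2 : ∀ i l, Et i (t l) = 0) (h3 : ∀ l (f : F), θ l (algebraMap F K f) = 0)
    (h4 : ∀ l j, θ l (t j) = if l = j then t j else 0) :
    (matK b t (Sum.elim Et θ)).det = algebraMap F K (mat b E).det := by
  have h5 : matK b t (Sum.elim Et θ) =
      Matrix.fromBlocks ((algebraMap F K).mapMatrix (mat b E)) 0 0 1 := by
    ext j i
    rcases j with j | j <;> rcases i with i | i
    · simp [matK, mat, h1]
    · simp [matK, h2]
    · simp [matK, h3]
    · simp only [matK, Matrix.of_apply, Sum.elim_inr, Matrix.fromBlocks_apply₂₂, Matrix.one_apply]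
      rw [h4]
      by_cases hji : j = i
      · rw [if_pos hji, if_pos hji, div_self (Gens.t_ne h i)]
      · rw [if_neg hji, if_neg hji, zero_div]
  rw [h5, Matrix.det_fromBlocks_zero₂₁, Matrix.det_one, mul_one, RingHom.map_det]

/-- a place is trivial on `F` or lies over a place of `F` -/
theorem trivial_or_over' (P : Place k K) :
    (∀ f : F, f ≠ 0 → P.ord (algebraMap F K f) = 0) ∨ ∃ (q : Place k F) (e : ℕ), Over P q e := by
  classical
  by_cases h : ∀ f : F, f ≠ 0 → P.ord (algebraMap F K f) = 0
  · exact Or.inl h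
  right
  push Not at h
  obtain ⟨f0, hf0, h0⟩ := h
  have hφ : ∀ {f : F}, f ≠ 0 → algebraMap F K f ≠ 0 := fun hf => by rwa [Ne, map_eq_zero]
  have hz : ∀ (f : F) (q : ℤ), f ≠ 0 → P.ord (algebraMap F K (f ^ q)) = q * P.ord (algebraMap F K f) := by
    intro f q hf
    rw [map_zpow₀, P.ord_zpow]
  let Q : ℕ → Prop := fun a => 0 < a ∧ ∃ f : F, f ≠ 0 ∧ P.ord (algebraMap F K f) = a
  have hP : ∃ a, Q a := by
    refine ⟨(P.ord (algebraMap F K f0)).natAbs, Int.natAbs_pos.2 h0, ?_⟩
    rcases le_total 0 (P.ord (algebraMap F K f0)) with h | h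
    · exact ⟨f0, hf0, by omega⟩
    · refine ⟨f0 ^ (-1 : ℤ), zpow_ne_zero _ hf0, ?_⟩
      rw [hz f0 (-1) hf0]
      omega
  obtain ⟨ha, g, hg0, hg⟩ : Q (Nat.find hP) := Nat.find_spec hP
  have hmin : ∀ b : ℕ, Q b → Nat.find hP ≤ b := fun b hb => Nat.find_min' hP hb
  generalize Nat.find hP = a at ha hg hmin
  have ha' : (0 : ℤ) < a := by exact_mod_cast ha
  have hdvd : ∀ f : F, (a : ℤ) ∣ P.ord (algebraMap F K f) := by
    intro f
    by_cases hf : f = 0
    · rw [hf, map_zero, P.ord_zero]; exact dvd_zero _
    by_contra hnd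
    have h1 : P.ord (algebraMap F K f) % a ≠ 0 := fun h => hnd (Int.dvd_of_emod_eq_zero h)
    have h2 : 0 ≤ P.ord (algebraMap F K f) % a := Int.emod_nonneg _ ha'.ne'
    have h3 : P.ord (algebraMap F K f) % a < a := Int.emod_lt_of_pos _ ha'
    have h4 := hmin (P.ord (algebraMap F K f) % a).toNat ⟨by omega, f * g ^ (-(P.ord (algebraMap F K f) / a)),
      mul_ne_zero hf (zpow_ne_zero _ hg0), by
        rw [map_mul, P.ord_mul (hφ hf) (hφ (zpow_ne_zero _ hg0)), hz g _ hg0, hg]
        have h5 := Int.emod_add_mul_ediv (P.ord (algebraMap F K f)) a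
        rw [Int.toNat_of_nonneg h2]
        linarith⟩
    omega
  choose o ho using hdvd
  have hcan : ∀ {x y : ℤ}, (a : ℤ) * x = a * y → x = y := fun h => mul_left_cancel₀ ha'.ne' h
  refine ⟨{ ord := o
            ord_zero := ?_
            ord_mul := ?_
            ord_add := ?_
            ord_const := ?_
            surj := ?_ }, a, ha, ho⟩
  · apply hcan
    rw [← ho, map_zero, P.ord_zero, mul_zero]
  · intro f f' hf hf'
    apply hcan
    rw [← ho, map_mul, P.ord_mul (hφ hf) (hφ hf'), ho, ho]
    ring
  · intro f f' hf hf' hff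
    have h1 := P.ord_add (hφ hf) (hφ hf') (by rw [← map_add]; exact hφ hff)
    rw [← map_add, ho, ho, ho] at h1
    have h2 : min ((a : ℤ) * o f) (a * o f') = a * min (o f) (o f') :=
      (mul_min_of_nonneg _ _ ha'.le).symm
    rw [h2] at h1
    exact le_of_mul_le_mul_left h1 ha'
  · intro c hc
    apply hcan
    rw [← ho, ← IsScalarTower.algebraMap_apply, P.ord_const hc, mul_zero]
  · refine ⟨g, hg0, hcan ?_⟩
    rw [← ho, hg, mul_one]

end

end Pool.Agent.H40.TB
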