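import Pool.Agent.H40.TB.AOne
import Pool.Agent.H40.TB.Kap

/-!
Smoothness of the torus bundle.
-/

set_option autoImplicit false
set_option linter.unusedSectionVars false
set_option linter.overlappingInstances false

open FF MvPolynomial Pool.Agent.TH122.AB

namespace Pool.Agent.H40.TB

theorem pderiv_rename' {σ τ : Type} {f : σ → τ} (hf : Function.Injective f) (x : σ)
    (p : MvPolynomial σ ℂ) : pderiv (f x) (rename f p) = rename f (pderiv x p) := by
  classical
  induction p using MvPolynomial.induction_on with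
  | C a => simp
  | add p q hp hq => simp [hp, hq]
  | mul_X p n h =>
    rw [map_mul, rename_X, Derivation.leibniz, Derivation.leibniz, h, pderiv_X, pderiv_X]
    simp only [smul_eq_mul, map_add, map_mul, rename_X]
    congr 2
    by_cases hx : n = x
    · subst hx; simp
    · rw [Pi.single_eq_of_ne (fun h => hx (hf h)), Pi.single_eq_of_ne hx, map_zero]

theorem pderiv_rename_of_notMem {σ τ : Type} {f : σ → τ} {j : τ} (hj : ∀ i, f i ≠ j)
    (p : MvPolynomial σ ℂ) : pderiv j (rename f p) = 0 := by
  classical
  induction p using MvPolynomial.induction_on with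
  | C a => simp
  | add p q hp hq => simp [hp, hq]
  | mul_X p n h =>
    rw [map_mul, rename_X, Derivation.leibniz, h, pderiv_X, Pi.single_eq_of_ne (hj n)]
    simp

namespace Orb

variable {F : Type} [Field F] [Algebra ℂ F] (O : Orb F)
variable {K : Type} [Field K] [Algebra ℂ K] [Algebra F K] [IsScalarTower ℂ F K]
  {t : Fin (O.r + 1) → K} (h : Gens (k := F) t)

/-- the equation of the torus bundle -/
noncomputable def eqn (p : Σ i, O.τ i) : MvPolynomial O.Idx ℂ :=
  rename (fun l => some (Sum.inl l)) (O.G p.1 p.2) * X none ^ (1 + O.mult p.1) -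
    X (some (Sum.inr (Sum.inr p))) * X (some (Sum.inr (Sum.inl p.1))) ^ O.mult p.1 *
      X none ^ O.degG p.1

theorem eqn_hom (p : Σ i, O.τ i) : (O.eqn p).IsHomogeneous (O.degG p.1 + (1 + O.mult p.1)) := by
  refine IsHomogeneous.sub ?_ ?_
  · have h7 := ((O.homG p.1 p.2).rename_isHomogeneous
      (f := fun l => (some (Sum.inl l) : O.Idx))).mul
      (((isHomogeneous_X ℂ (none : O.Idx))).pow (1 + O.mult p.1))
    rwa [one_mul] at h7
  · have h7 := (((isHomogeneous_X ℂ (some (Sum.inr (Sum.inr p)) : O.Idx))).mul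
      (((isHomogeneous_X ℂ (some (Sum.inr (Sum.inl p.1)) : O.Idx))).pow (O.mult p.1))).mul
      (((isHomogeneous_X ℂ (none : O.Idx))).pow (O.degG p.1))
    have h8 : O.degG p.1 + (1 + O.mult p.1) = 1 + 1 * O.mult p.1 + 1 * O.degG p.1 := by ring
    rw [h8]
    exact h7

include h in
theorem eqn_zero (p : Σ i, O.τ i) : aeval (O.cy t) (O.eqn p) = 0 := by
  rw [eqn, map_sub, map_mul, map_mul, map_mul, map_pow, map_pow, map_pow,
    O.aeval_rename_cy t (O.homG p.1 p.2)]
  simp only [aeval_X]
  have h8 : O.cy t none = 1 := rfl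
  have h9 : O.cy t (some (Sum.inr (Sum.inl p.1))) = t p.1.succ := rfl
  have h10 : O.cy t (some (Sum.inr (Sum.inr p))) =
    t 0 ^ O.degG p.1 * algebraMap F K (aeval O.y (O.G p.1 p.2)) / t p.1.succ ^ O.mult p.1 := rfl
  rw [h8, h9, h10, one_pow, one_pow, mul_one, mul_one,
    div_mul_cancel₀ _ (pow_ne_zero _ (Gens.t_ne h p.1.succ)), sub_self]

theorem eqn_z (p : Σ i, O.τ i) (x : O.Idx → ℂ) (l : O.σ) :
    aeval x (pderiv (some (Sum.inl l)) (O.eqn p)) =
      aeval (fun l => x (some (Sum.inl l))) (pderiv l (O.G p.1 p.2)) *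
        x none ^ (1 + O.mult p.1) := by
  classical
  have h1 : Function.Injective (fun l => (some (Sum.inl l) : O.Idx)) := by
    intro a b hab
    simpa using hab
  rw [eqn, map_sub, Derivation.leibniz, Derivation.leibniz, Derivation.leibniz]
  have h2 : pderiv (some (Sum.inl l)) (rename (fun l => (some (Sum.inl l) : O.Idx))
      (O.G p.1 p.2)) = rename (fun l => (some (Sum.inl l) : O.Idx)) (pderiv l (O.G p.1 p.2)) :=
    pderiv_rename' h1 l _
  rw [h2, pderiv_pow, pderiv_pow, pderiv_pow, pderiv_X_of_ne (by simp), pderiv_X_of_ne (by simp),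
    pderiv_X_of_ne (by simp)]
  simp only [smul_eq_mul, mul_zero, zero_add, map_mul, map_pow, aeval_X, aeval_rename, add_zero,
    sub_zero]
  rw [mul_comm]
  rfl

open Classical in
theorem eqn_g (p q : Σ i, O.τ i) (x : O.Idx → ℂ) :
    aeval x (pderiv (some (Sum.inr (Sum.inr q))) (O.eqn p)) =
      if p = q then -(x (some (Sum.inr (Sum.inl p.1))) ^ O.mult p.1 * x none ^ O.degG p.1)
      else 0 := by
  classical
  rw [eqn, map_sub, Derivation.leibniz, Derivation.leibniz, Derivation.leibniz]
  rw [pderiv_rename_of_notMem (by intro l; simp), pderiv_pow, pderiv_pow, pderiv_pow,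
    pderiv_X_of_ne (i := some (Sum.inr (Sum.inr q))) (j := (none : O.Idx)) (by simp),
    pderiv_X_of_ne (i := some (Sum.inr (Sum.inr q))) (j := (some (Sum.inr (Sum.inl p.1)) : O.Idx))
      (by simp)]
  by_cases hpq : p = q
  · subst hpq
    rw [pderiv_X_self, if_pos rfl]
    simp only [smul_eq_mul, mul_zero, zero_add, zero_sub, mul_one, map_neg, map_mul, map_pow,
      aeval_X]
    ring
  · rw [pderiv_X_of_ne (by
      intro h1
      simp only [Option.some.injEq, Sum.inr.injEq] at h1
      exact hpq h1), if_neg hpq]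
    simp

include h in
theorem bundle_smooth (hO : O.SNC) : (O.bundle t h).Smooth := by
  classical
  obtain ⟨hτ, hO⟩ := hO
  intro (x : O.Idx → ℂ) hx
  obtain ⟨hx0, hz, hγ, hrel⟩ := O.isPt_bundle h hx
  obtain ⟨c, f, n, hc, hf, hind⟩ := hO _ hz
  choose j0 hj0 using O.G_ne
  let pp : Fin O.r → Σ i, O.τ i := fun i => ⟨i, j0 i⟩
  have hpp : ∀ p : Σ i, O.τ i, p = pp p.1 := by
    rintro ⟨i, j⟩
    exact Sigma.ext rfl (heq_of_eq (hτ i j _))
  have hcard : Fintype.card (Σ i, O.τ i) = O.r := by
    have h1 : Function.Bijective (fun p : Σ i, O.τ i => p.1) :=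
      ⟨fun p q hpq => by rw [hpp p, hpp q]; exact congrArg pp hpq, fun i => ⟨pp i, rfl⟩⟩
    rw [Fintype.card_of_bijective h1, Fintype.card_fin]
  let e : Fin (c + O.r) ≃ Fin c ⊕ Fin O.r := finSumFinEquiv.symm
  let f' : Fin c ⊕ Fin O.r → MvPolynomial O.Idx ℂ :=
    Sum.elim (fun i => rename (fun l => some (Sum.inl l)) (f i)) (fun i => O.eqn (pp i))
  let n' : Fin c ⊕ Fin O.r → ℕ :=
    Sum.elim n (fun i => O.degG i + (1 + O.mult i))
  have hf' : ∀ i, (f' i).IsHomogeneous (n' i) ∧ aeval (O.cy t) (f' i) = 0 := by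
    rintro (i | i)
    · refine ⟨(hf i).1.rename_isHomogeneous, ?_⟩
      change aeval (O.cy t) (rename (fun l => some (Sum.inl l)) (f i)) = 0
      rw [O.aeval_rename_cy t (hf i).1, (hf i).2, map_zero, mul_zero]
    · exact ⟨O.eqn_hom (pp i), O.eqn_zero h (pp i)⟩
  have hgrad : LinearIndependent ℂ (fun (i : Fin c ⊕ Fin O.r) (j : O.Idx) =>
      aeval x (pderiv j (f' i))) := by
    rw [Fintype.linearIndependent_iff]
    intro g hg
    rw [Fintype.sum_sum_type] at hg
    have hgj : ∀ j : O.Idx, ∑ i, g (Sum.inl i) * aeval x (pderiv j (f' (Sum.inl i))) +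
        ∑ i, g (Sum.inr i) * aeval x (pderiv j (f' (Sum.inr i))) = 0 := by
      intro j
      have h1 := congrFun hg j
      rw [Pi.add_apply, Finset.sum_apply, Finset.sum_apply] at h1
      exact h1
    -- the coordinates of the equations
    have hβ : ∀ i, aeval (fun l => x (some (Sum.inl l))) (O.G i (j0 i)) ≠ 0 →
        g (Sum.inr i) = 0 := by
      intro i hi
      have h1 := hgj (some (Sum.inr (Sum.inr (pp i))))
      rw [Finset.sum_eq_zero (fun i' _ => by
        change g (Sum.inl i') * aeval x (pderiv (some (Sum.inr (Sum.inr (pp i))))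
          (rename (fun l => some (Sum.inl l)) (f i'))) = 0
        rw [pderiv_rename_of_notMem (by intro l; simp), map_zero, mul_zero]), zero_add,
        Finset.sum_eq_single i] at h1
      · change g (Sum.inr i) * aeval x (pderiv (some (Sum.inr (Sum.inr (pp i))))
          (O.eqn (pp i))) = 0 at h1
        rw [O.eqn_g, if_pos rfl] at h1
        refine (mul_eq_zero.1 h1).resolve_right (neg_ne_zero.2 (mul_ne_zero ?_
          (pow_ne_zero _ hx0)))
        have h2 := hrel i (j0 i)
        intro h3
        change x (some (Sum.inr (Sum.inl i))) ^ O.mult i = 0 at h3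
        rw [h3, mul_zero, zero_mul] at h2
        exact mul_ne_zero hi (pow_ne_zero _ hx0) h2
      · intro i' _ hi'
        change g (Sum.inr i') * aeval x (pderiv (some (Sum.inr (Sum.inr (pp i))))
          (O.eqn (pp i'))) = 0
        rw [O.eqn_g, if_neg, mul_zero]
        intro h2
        exact hi' (congrArg Sigma.fst h2)
      · simp
    -- the other coefficients
    have key : ∀ l : O.σ, ∑ i, g (Sum.inl i) * aeval (fun l => x (some (Sum.inl l)))
        (pderiv l (f i)) + ∑ i, (g (Sum.inr i) * x none ^ (1 + O.mult i)) *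
        aeval (fun l => x (some (Sum.inl l))) (pderiv l (O.G i (j0 i))) = 0 := by
      intro l
      have h1 := hgj (some (Sum.inl l))
      rw [← h1]
      congr 1
      · refine Finset.sum_congr rfl fun i _ => ?_
        change _ = g (Sum.inl i) * aeval x (pderiv (some (Sum.inl l))
          (rename (fun l => some (Sum.inl l)) (f i)))
        have h2 : Function.Injective (fun l => (some (Sum.inl l) : O.Idx)) := by
          intro a b hab
          simpa using hab
        have h3 : pderiv (some (Sum.inl l)) (rename (fun l => (some (Sum.inl l) : O.Idx)) (f i)) =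
            rename (fun l => (some (Sum.inl l) : O.Idx)) (pderiv l (f i)) :=
          pderiv_rename' h2 l _
        rw [h3, aeval_rename]
        rfl
      · refine Finset.sum_congr rfl fun i _ => ?_
        change _ = g (Sum.inr i) * aeval x (pderiv (some (Sum.inl l)) (O.eqn (pp i)))
        rw [O.eqn_z]
        change _ = g (Sum.inr i) * (aeval (fun l => x (some (Sum.inl l)))
          (pderiv l (O.G i (j0 i))) * x none ^ (1 + O.mult i))
        ring
    rw [Fintype.linearIndependent_iff] at hind
    let Z : Type := {p : Σ i, O.τ i // aeval (fun l => x (some (Sum.inl l))) (O.G p.1 p.2) = 0}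
    have h4 := hind (Sum.elim (fun i => g (Sum.inl i))
      (fun p => g (Sum.inr p.1.1) * x none ^ (1 + O.mult p.1.1))) (by
        rw [Fintype.sum_sum_type]
        funext l
        rw [Pi.add_apply, Finset.sum_apply, Finset.sum_apply, Pi.zero_apply]
        refine Eq.trans ?_ (key l)
        congr 1
        -- the sum over the vanishing equations
        have h5 : ∑ i, (g (Sum.inr i) * x none ^ (1 + O.mult i)) *
            aeval (fun l => x (some (Sum.inl l))) (pderiv l (O.G i (j0 i))) =
            ∑ p : Σ i, O.τ i, (g (Sum.inr p.1) * x none ^ (1 + O.mult p.1)) *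
            aeval (fun l => x (some (Sum.inl l))) (pderiv l (O.G p.1 p.2)) := by
          rw [Fintype.sum_sigma]
          refine Finset.sum_congr rfl fun i _ => ?_
          rw [Finset.sum_eq_single (j0 i)]
          · intro j _ hj
            exact absurd (hτ i j _) hj
          · simp
        rw [h5]
        have h6 : ∀ p : Σ i, O.τ i, aeval (fun l => x (some (Sum.inl l))) (O.G p.1 p.2) ≠ 0 →
            (g (Sum.inr p.1) * x none ^ (1 + O.mult p.1)) *
            aeval (fun l => x (some (Sum.inl l))) (pderiv l (O.G p.1 p.2)) = 0 := by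
          intro p hp
          have h7 : p.2 = j0 p.1 := hτ _ _ _
          rw [h7] at hp
          rw [hβ p.1 hp, zero_mul, zero_mul]
        rw [← Finset.sum_filter_add_sum_filter_not Finset.univ (fun p : Σ i, O.τ i =>
          aeval (fun l => x (some (Sum.inl l))) (O.G p.1 p.2) = 0),
          Finset.sum_eq_zero (s := Finset.univ.filter fun p : Σ i, O.τ i =>
          ¬ aeval (fun l => x (some (Sum.inl l))) (O.G p.1 p.2) = 0) (fun p hp => by
            rw [Finset.mem_filter] at hp
            exact h6 p hp.2), add_zero]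
        rw [← Finset.sum_subtype_eq_sum_filter, Finset.subtype_univ]
        rfl)
    rintro (i | i)
    · exact h4 (Sum.inl i)
    · by_cases hi : aeval (fun l => x (some (Sum.inl l))) (O.G i (j0 i)) = 0
      · have h5 := h4 (Sum.inr ⟨pp i, hi⟩)
        exact (mul_eq_zero.1 h5).resolve_right (pow_ne_zero _ hx0)
      · exact hβ i hi
  refine ⟨c + O.r, fun i => f' (e i), fun i => n' (e i), ?_, fun i => hf' (e i), ?_⟩
  · rw [O.dim_bundle h]
    change _ = Fintype.card O.Idx
    rw [Fintype.card_option, Fintype.card_sum, Fintype.card_sum, Fintype.card_fin, hcard, ← hc]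
    ring
  · exact hgrad.comp e e.injective

end Orb

end Pool.Agent.H40.TB
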