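import Pool.Agent.H40.TB.Bundle

/-!
The points of the torus bundle.
-/

set_option autoImplicit false
set_option linter.unusedSectionVars false
set_option linter.overlappingInstances false

open FF MvPolynomial Pool.Agent.TH122.AB

namespace Pool.Agent.H40.TB

/-- a polynomial without zeros is constant -/
theorem const_of_ne {p : Polynomial ℂ} (hp : ∀ s : ℂ, p.eval s ≠ 0) (s : ℂ) :
    p.eval s = p.eval 0 := by
  have h1 : p.degree = 0 := by
    by_contra h
    obtain ⟨z, hz⟩ := IsAlgClosed.exists_root p h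
    exact hp z hz
  rw [Polynomial.eq_C_of_degree_eq_zero h1]
  simp

theorem eval_aeval {σ : Type} (T : σ → Polynomial ℂ) (p : MvPolynomial σ ℂ) (s : ℂ) :
    (aeval T p).eval s = aeval (fun i => (T i).eval s) p := by
  have h1 : (Polynomial.aeval s : Polynomial ℂ →ₐ[ℂ] ℂ) (aeval T p) =
      aeval (fun i => (Polynomial.aeval s : Polynomial ℂ →ₐ[ℂ] ℂ) (T i)) p := by
    rw [← MvPolynomial.comp_aeval_apply]
  simpa [Polynomial.coe_aeval_eq_eval] using h1

namespace QVar

variable {F : Type} [Field F] [Algebra ℂ F] (V : QVar F)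

/-- `z` satisfies the homogeneous equations of the closure of `V` -/
def Rel {L : Type} [CommRing L] [Algebra ℂ L] (z : V.σ → L) : Prop :=
  ∀ (n : ℕ) (f : MvPolynomial V.σ ℂ), f.IsHomogeneous n → aeval V.y f = 0 → aeval z f = 0

theorem Rel.smul {V : QVar F} {L : Type} [CommRing L] [Algebra ℂ L] {z : V.σ → L} (hz : V.Rel z)
    (c : L) : V.Rel (fun i => c * z i) := by
  intro n f hf h0
  rw [hom_aeval hf, hz n f hf h0, mul_zero]

theorem IsPt.smul {V : QVar F} {x : V.σ → ℂ} (hx : V.IsPt x) {c : ℂ} (hc : c ≠ 0) :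
    V.IsPt (fun i => c * x i) := by
  obtain ⟨h1, h2, l, hl⟩ := hx
  refine ⟨?_, Rel.smul (V := V) h2 c, l, ?_⟩
  · intro h0
    apply h1
    funext i
    have := congrFun h0 i
    exact (mul_eq_zero.1 this).resolve_left hc
  · rw [hom_aeval (V.hom l)]
    exact mul_ne_zero (pow_ne_zero _ hc) hl

theorem rel_curve {V : QVar F} {T : V.σ → Polynomial ℂ}
    (hT : ∀ s : ℂ, V.IsPt fun i => (T i).eval s) : V.Rel T := by
  intro n f hf h0
  apply Polynomial.funext
  intro s
  rw [eval_aeval, Polynomial.eval_zero]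
  exact (hT s).2.1 n f hf h0

end QVar

namespace Orb

variable {F : Type} [Field F] [Algebra ℂ F] (O : Orb F)

/-- the point with the given coordinates -/
def ev {L : Type} [One L] (z : O.σ → L) (u : Fin O.r → L) (γ : (Σ i, O.τ i) → L) : O.Idx → L
  | none => 1
  | some (Sum.inl l) => z l
  | some (Sum.inr (Sum.inl i)) => u i
  | some (Sum.inr (Sum.inr j)) => γ j

/-- clearing the denominators -/
theorem clear (f : MvPolynomial O.Idx ℂ) : ∃ (N : ℕ) (B : MvPolynomial (O.σ ⊕ Fin O.r) ℂ),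
    ∀ (L : Type) [CommRing L] [Algebra ℂ L] (z : O.σ → L) (u : Fin O.r → L)
      (γ : (Σ i, O.τ i) → L), (∀ i j, aeval z (O.G i j) = u i ^ O.mult i * γ ⟨i, j⟩) →
      aeval (Sum.elim z u) B = (∏ i, u i) ^ N * aeval (O.ev z u γ) f := by
  classical
  induction f using MvPolynomial.induction_on with
  | C a =>
    refine ⟨0, C a, fun L _ _ z u γ _ => ?_⟩
    rw [aeval_C, aeval_C, pow_zero, one_mul]
  | add p q hp hq =>
    obtain ⟨N1, B1, h1⟩ := hp
    obtain ⟨N2, B2, h2⟩ := hq
    refine ⟨N1 + N2, B1 * (∏ i, X (Sum.inr i)) ^ N2 + B2 * (∏ i, X (Sum.inr i)) ^ N1,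
      fun L _ _ z u γ h => ?_⟩
    rw [map_add, map_mul, map_mul, map_pow, map_pow, map_prod, h1 L z u γ h, h2 L z u γ h, map_add]
    simp only [aeval_X, Sum.elim_inr]
    ring
  | mul_X p j hp =>
    obtain ⟨N1, B1, h1⟩ := hp
    rcases j with _ | l | i | ⟨i, j⟩
    · refine ⟨N1, B1, fun L _ _ z u γ h => ?_⟩
      rw [h1 L z u γ h, map_mul, aeval_X]
      change _ = _ * (_ * 1)
      rw [mul_one]
    · refine ⟨N1, B1 * X (Sum.inl l), fun L _ _ z u γ h => ?_⟩
      rw [map_mul, h1 L z u γ h, map_mul, aeval_X, aeval_X]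
      change _ * z l = _ * (_ * z l)
      ring
    · refine ⟨N1, B1 * X (Sum.inr i), fun L _ _ z u γ h => ?_⟩
      rw [map_mul, h1 L z u γ h, map_mul, aeval_X, aeval_X]
      change _ * u i = _ * (_ * u i)
      ring
    · refine ⟨N1 + O.mult i, B1 * (∏ i' ∈ Finset.univ.erase i, X (Sum.inr i')) ^ O.mult i *
        rename Sum.inl (O.G i j), fun L _ _ z u γ h => ?_⟩
      rw [map_mul, map_mul, h1 L z u γ h, map_pow, map_prod, map_mul, aeval_X, aeval_rename]
      have h2 : (Sum.elim z u ∘ Sum.inl : O.σ → L) = z := rfl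
      rw [h2, h]
      change _ = _ * (_ * γ ⟨i, j⟩)
      simp only [aeval_X, Sum.elim_inr]
      have h3 : ∏ i, u i = u i * ∏ i' ∈ Finset.univ.erase i, u i' :=
        (Finset.mul_prod_erase _ _ (Finset.mem_univ i)).symm
      rw [pow_add, h3, mul_pow, mul_pow]
      ring

/-- the components -/
noncomputable def Φ : MvPolynomial (O.σ ⊕ Fin O.r) ℂ →ₐ[ℂ]
    MvPolynomial (Fin (O.r + 1)) (MvPolynomial O.σ ℂ) :=
  aeval (Sum.elim (fun l => X 0 * C (X l)) (fun i => X i.succ))

theorem Φ_hom (B : MvPolynomial (O.σ ⊕ Fin O.r) ℂ) (μ : Fin (O.r + 1) →₀ ℕ) :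
    (coeff μ (O.Φ B)).IsHomogeneous (μ 0) := by
  classical
  revert μ
  induction B using MvPolynomial.induction_on with
  | C a =>
    intro μ
    have h1 : O.Φ (C a) = C (C a) := by
      rw [Φ, aeval_C]
      rfl
    rw [h1, coeff_C]
    split_ifs with h
    · rw [← h]
      exact isHomogeneous_C _ _
    · exact isHomogeneous_zero _ _ _
  | add p q hp hq =>
    intro μ
    rw [map_add, coeff_add]
    exact (hp μ).add (hq μ)
  | mul_X p j hp =>
    intro μ
    rcases j with l | i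
    · have h1 : O.Φ (p * X (Sum.inl l)) = O.Φ p * X 0 * C (X l) := by
        rw [map_mul]
        have : O.Φ (X (Sum.inl l)) = X 0 * C (X l) := by rw [Φ, aeval_X]; rfl
        rw [this, mul_assoc]
      rw [h1, mul_comm, coeff_C_mul, coeff_mul_X']
      split_ifs with h
      · have h2 := (isHomogeneous_X ℂ l).mul (hp (μ - Finsupp.single 0 1))
        have h3 : 1 + (μ - Finsupp.single 0 1 : Fin (O.r + 1) →₀ ℕ) 0 = μ 0 := by
          rw [Finsupp.tsub_apply, Finsupp.single_eq_same]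
          have := Finsupp.mem_support_iff.1 h
          omega
        rwa [h3] at h2
      · rw [mul_zero]
        exact isHomogeneous_zero _ _ _
    · have h1 : O.Φ (p * X (Sum.inr i)) = O.Φ p * X i.succ := by
        rw [map_mul]
        have : O.Φ (X (Sum.inr i)) = X i.succ := by rw [Φ, aeval_X]; rfl
        rw [this]
      rw [h1, coeff_mul_X']
      split_ifs with h
      · have h2 := hp (μ - Finsupp.single i.succ 1)
        have h3 : (μ - Finsupp.single i.succ 1 : Fin (O.r + 1) →₀ ℕ) 0 = μ 0 := by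
          rw [Finsupp.tsub_apply, Finsupp.single_eq_of_ne (Fin.succ_ne_zero i).symm]
          simp
        rwa [h3] at h2
      · exact isHomogeneous_zero _ _ _

theorem Φ_eval {L : Type} [CommRing L] [Algebra ℂ L] (z : O.σ → L) (w : Fin (O.r + 1) → L)
    (B : MvPolynomial (O.σ ⊕ Fin O.r) ℂ) :
    aeval (Sum.elim (fun l => w 0 * z l) (fun i => w i.succ)) B =
      eval₂ ((aeval z : MvPolynomial O.σ ℂ →ₐ[ℂ] L) : MvPolynomial O.σ ℂ →+* L) w (O.Φ B) := by
  induction B using MvPolynomial.induction_on with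
  | C a =>
    have h1 : O.Φ (C a) = C (C a) := by
      rw [Φ, aeval_C]
      rfl
    rw [h1, eval₂_C, aeval_C]
    simp
  | add p q hp hq => rw [map_add, map_add, eval₂_add, hp, hq]
  | mul_X p j hp =>
    rw [map_mul, map_mul, eval₂_mul, hp]
    congr 1
    rcases j with l | i
    · have : O.Φ (X (Sum.inl l)) = X 0 * C (X l) := by rw [Φ, aeval_X]; rfl
      rw [this, eval₂_mul, eval₂_X, eval₂_C, aeval_X]
      simp
    · have : O.Φ (X (Sum.inr i)) = X i.succ := by rw [Φ, aeval_X]; rfl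
      rw [this, eval₂_X, aeval_X]
      rfl

variable {K : Type} [Field K] [Algebra ℂ K] [Algebra F K] [IsScalarTower ℂ F K]
  {t : Fin (O.r + 1) → K} (h : Gens (k := F) t)

include h in
theorem comps {B : MvPolynomial (O.σ ⊕ Fin O.r) ℂ}
    (hB : aeval (Sum.elim (fun l => t 0 * algebraMap F K (O.y l)) (fun i => t i.succ)) B = 0)
    (μ : Fin (O.r + 1) →₀ ℕ) : aeval O.y (coeff μ (O.Φ B)) = 0 := by
  rw [O.Φ_eval (fun l => algebraMap F K (O.y l)) t B] at hB
  have h1 : eval₂ ((aeval (fun l => algebraMap F K (O.y l)) : MvPolynomial O.σ ℂ →ₐ[ℂ] K) :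
      MvPolynomial O.σ ℂ →+* K) t (O.Φ B) =
      aeval t (map ((aeval O.y : MvPolynomial O.σ ℂ →ₐ[ℂ] F) : MvPolynomial O.σ ℂ →+* F)
        (O.Φ B)) := by
    rw [aeval_def, eval₂_map]
    congr 1
    apply MvPolynomial.ringHom_ext
    · intro a
      simp [IsScalarTower.algebraMap_apply ℂ F K]
    · intro l
      simp
  rw [h1] at hB
  have h2 : map ((aeval O.y : MvPolynomial O.σ ℂ →ₐ[ℂ] F) : MvPolynomial O.σ ℂ →+* F)
      (O.Φ B) = 0 := by
    by_contra h3
    exact h.ne h3 hB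
  have h3 := congrArg (coeff μ) h2
  rw [coeff_map, coeff_zero] at h3
  exact h3

include h in
theorem spec {B : MvPolynomial (O.σ ⊕ Fin O.r) ℂ}
    (hB : aeval (Sum.elim (fun l => t 0 * algebraMap F K (O.y l)) (fun i => t i.succ)) B = 0)
    {L : Type} [CommRing L] [Algebra ℂ L] {z : O.σ → L} (hz : O.Rel z) (u : Fin O.r → L) :
    aeval (Sum.elim z u) B = 0 := by
  have h1 := O.Φ_eval z (Fin.cons 1 u) B
  simp only [Fin.cons_zero, one_mul, Fin.cons_succ] at h1
  rw [h1, eval₂_eq']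
  refine Finset.sum_eq_zero fun μ _ => ?_
  have h2 := O.comps h hB μ
  have h3 := hz _ _ (O.Φ_hom B μ) h2
  have h4 : ((aeval z : MvPolynomial O.σ ℂ →ₐ[ℂ] L) : MvPolynomial O.σ ℂ →+* L)
      (coeff μ (O.Φ B)) = 0 := h3
  rw [h4, zero_mul]

theorem cy_eq (t : Fin (O.r + 1) → K) : O.cy t = O.ev (fun l => t 0 * algebraMap F K (O.y l))
    (fun i => t i.succ) (fun j => t 0 ^ O.degG j.1 * algebraMap F K (aeval O.y (O.G j.1 j.2)) /
      t j.1.succ ^ O.mult j.1) := by
  funext i
  rcases i with _ | l | i | j <;> rfl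

include h in
theorem compat (i : Fin O.r) (j : O.τ i) :
    aeval (fun l => t 0 * algebraMap F K (O.y l)) (O.G i j) =
    t i.succ ^ O.mult i * (t 0 ^ O.degG i * algebraMap F K (aeval O.y (O.G i j)) /
      t i.succ ^ O.mult i) := by
  have h2 := Gens.t_ne h i.succ
  rw [mul_div_cancel₀ _ (pow_ne_zero _ h2), hom_aeval (O.homG i j)]
  exact congrArg (t 0 ^ O.degG i * ·) (MvPolynomial.aeval_algebraMap_apply K O.y _)

include h in
/-- the relations of the torus bundle hold at the points given by parameters -/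
theorem rel_ev {L : Type} [CommRing L] [IsDomain L] [Algebra ℂ L] {z : O.σ → L} (hz : O.Rel z)
    {u : Fin O.r → L} (hu : ∀ i, u i ≠ 0) {γ : (Σ i, O.τ i) → L}
    (hγ : ∀ i j, aeval z (O.G i j) = u i ^ O.mult i * γ ⟨i, j⟩) :
    (O.bundle t h).Rel (O.ev z u γ) := by
  intro n f _ h0
  change aeval (O.cy t) f = 0 at h0
  obtain ⟨N, B, hB⟩ := O.clear f
  have h1 := hB K (fun l => t 0 * algebraMap F K (O.y l)) (fun i => t i.succ)
    (fun j => t 0 ^ O.degG j.1 * algebraMap F K (aeval O.y (O.G j.1 j.2)) /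
      t j.1.succ ^ O.mult j.1) (fun i j => O.compat h i j)
  rw [← O.cy_eq t, h0, mul_zero] at h1
  have h2 := O.spec h h1 hz u
  rw [hB L z u γ hγ] at h2
  exact (mul_eq_zero.1 h2).resolve_left
    (pow_ne_zero _ (Finset.prod_ne_zero_iff.2 fun i _ => hu i))

/-- the values of the forms -/
theorem aeval_cQ' {L : Type} [CommRing L] [Algebra ℂ L] (x : O.Idx → L)
    (q : O.ι × O.σ × (∀ i, O.τ i)) :
    aeval x (O.cQ q) = x none * aeval (fun l => x (some (Sum.inl l))) (O.Q q.1) *
      x (some (Sum.inl q.2.1)) * ∏ i, x (some (Sum.inr (Sum.inr ⟨i, q.2.2 i⟩))) := by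
  rw [cQ, map_mul, map_mul, map_mul, aeval_rename, map_prod]
  simp only [aeval_X]
  rfl

/-- the points of the torus bundle -/
theorem isPt_bundle {x : O.Idx → ℂ} (hx : (O.bundle t h).IsPt x) :
    x none ≠ 0 ∧ O.IsPt (fun l => x (some (Sum.inl l))) ∧
      (∀ i, ∃ j, x (some (Sum.inr (Sum.inr ⟨i, j⟩))) ≠ 0) ∧
      ∀ i j, aeval (fun l => x (some (Sum.inl l))) (O.G i j) * x none ^ (1 + O.mult i) =
        x (some (Sum.inr (Sum.inr ⟨i, j⟩))) * x (some (Sum.inr (Sum.inl i))) ^ O.mult i *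
          x none ^ O.degG i := by
  obtain ⟨-, hrel0, q, hq⟩ := hx
  have hrel : ∀ (n : ℕ) (f : MvPolynomial O.Idx ℂ), f.IsHomogeneous n →
      aeval (O.cy t) f = 0 → aeval x f = 0 := hrel0
  change aeval x (O.cQ q) ≠ 0 at hq
  rw [aeval_cQ'] at hq
  have h1 := right_ne_zero_of_mul hq
  have h2 := left_ne_zero_of_mul hq
  have h3 := right_ne_zero_of_mul h2
  have h4 := left_ne_zero_of_mul h2
  have h5 := right_ne_zero_of_mul h4
  have h6 := left_ne_zero_of_mul h4
  refine ⟨h6, ⟨?_, ?_, q.1, h5⟩, fun i => ⟨q.2.2 i, ?_⟩, fun i j => ?_⟩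
  · intro h0
    exact h3 (congrFun h0 q.2.1)
  · intro n f hf hf0
    have h7 := hrel n (rename (fun l => some (Sum.inl l)) f) hf.rename_isHomogeneous (by
      rw [O.aeval_rename_cy t hf, hf0, map_zero, mul_zero])
    rwa [aeval_rename] at h7
  · exact Finset.prod_ne_zero_iff.1 h1 i (Finset.mem_univ i)
  · have hhom : (rename (fun l => some (Sum.inl l)) (O.G i j) * X none ^ (1 + O.mult i) -
        X (some (Sum.inr (Sum.inr ⟨i, j⟩))) * X (some (Sum.inr (Sum.inl i))) ^ O.mult i *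
          X none ^ O.degG i : MvPolynomial O.Idx ℂ).IsHomogeneous
        (O.degG i + (1 + O.mult i)) := by
      refine IsHomogeneous.sub ?_ ?_
      · have h7 := ((O.homG i j).rename_isHomogeneous (f := fun l => (some (Sum.inl l) : O.Idx))).mul
          (((isHomogeneous_X ℂ (none : O.Idx))).pow (1 + O.mult i))
        rwa [one_mul] at h7
      · have h7 := (((isHomogeneous_X ℂ (some (Sum.inr (Sum.inr ⟨i, j⟩)) : O.Idx))).mul
          (((isHomogeneous_X ℂ (some (Sum.inr (Sum.inl i)) : O.Idx))).pow (O.mult i))).mul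
          (((isHomogeneous_X ℂ (none : O.Idx))).pow (O.degG i))
        have h8 : O.degG i + (1 + O.mult i) = 1 + 1 * O.mult i + 1 * O.degG i := by ring
        rw [h8]
        exact h7
    have h7 := hrel _ _ hhom (by
      rw [map_sub, map_mul, map_mul, map_mul, map_pow, map_pow, map_pow,
        O.aeval_rename_cy t (O.homG i j)]
      simp only [aeval_X]
      have h8 : O.cy t none = 1 := rfl
      have h9 : O.cy t (some (Sum.inr (Sum.inl i))) = t i.succ := rfl
      have h10 : O.cy t (some (Sum.inr (Sum.inr ⟨i, j⟩))) =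
        t 0 ^ O.degG i * algebraMap F K (aeval O.y (O.G i j)) / t i.succ ^ O.mult i := rfl
      rw [h8, h9, h10, one_pow, one_pow, mul_one, mul_one,
        div_mul_cancel₀ _ (pow_ne_zero _ (Gens.t_ne h i.succ)), sub_self])
    rw [map_sub, map_mul, map_mul, map_mul, map_pow, map_pow, map_pow, aeval_rename] at h7
    simp only [aeval_X] at h7
    exact sub_eq_zero.1 h7

end Orb

end Pool.Agent.H40.TB
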