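import Pool.Agent.H40.TB.Mat

/-!
Sections on `F` give sections on `K = F(t)`.
-/

set_option autoImplicit false
set_option linter.unusedSectionVars false
set_option linter.overlappingInstances false

open FF MvPolynomial Pool.Agent.W603.LV Pool.Agent.TH122.AB Pool.Agent.W619.PQ Pool.Agent.W619.TW
  Pool.Agent.W602.GT

namespace Pool.Agent.H40.TB

variable {k F K : Type} [Field k] [CharZero k] [Field F] [Field K] [Algebra k F] [Algebra k K]
  [Algebra F K] [IsScalarTower k F K] {s d : ℕ} {t : Fin s → K}

/-- the conditions for the boundary of the torus bundle -/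
structure Good (t : Fin s → K) (d : ℕ) (δF : Place k F → ℚ) (δK : Place k K → ℚ) : Prop where
  ov : ∀ (P : Place k K) (v : Place k F) (e : ℕ), Over P v e → 1 - δK P ≤ e * (1 - δF v)
  triv : ∀ P : Place k K, (∀ f : F, f ≠ 0 → P.ord (algebraMap F K f) = 0) →
    ((∀ l, P.ord (t l) = 0) ∧ 0 ≤ δK P) ∨ 1 ≤ δK P
  ver : ∀ v : Place k F, Divisorial d v → ∃ (e : ℕ) (a : Fin s → ℤ), 0 < e ∧
    (∃ A B : MvPolynomial (Fin s) F, A ≠ 0 ∧ B ≠ 0 ∧
      gval (fun f => (e : ℤ) * v.ord f) a A = gval (fun f => (e : ℤ) * v.ord f) a B + 1) ∧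
    ∀ P : Place k K, IsTor (fun f => (e : ℤ) * v.ord f) a t P → e * (1 - δF v) ≤ 1 - δK P
  hor : ∀ P : Place k K, (∀ f : F, f ≠ 0 → P.ord (algebraMap F K f) = 0) →
    δK P ≤ 1 ∧ ((∀ l, P.ord (t l) = 0) → δK P ≤ 0)

theorem det_units {ι : Type} [Fintype ι] [DecidableEq ι]
    (D : ι → Derivation k K K) (z : ι → K) (hz : ∀ i, z i ≠ 0) :
    (mat z D).det = (Matrix.of fun j i => D j (z i) / z i).det * ∏ i, z i := by
  have h1 : mat z D = (Matrix.of fun j i => D j (z i) / z i) * Matrix.diagonal z := by
    ext j i
    rw [Matrix.mul_diagonal, mat, Matrix.of_apply, Matrix.of_apply, div_mul_cancel₀ _ (hz i)]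
  rw [h1, Matrix.det_mul, Matrix.det_diagonal]

theorem matK_units (D : Fin d ⊕ Fin s → Derivation k K K) (y : Fin d → F) (hy : ∀ i, y i ≠ 0) :
    (matK y t D).det = (Matrix.of fun j i => D j ((Sum.elim (algebraMap F K ∘ y) t :
      Fin d ⊕ Fin s → K) i) / (Sum.elim (algebraMap F K ∘ y) t : Fin d ⊕ Fin s → K) i).det *
      ∏ i, algebraMap F K (y i) := by
  have h1 : matK y t D = (Matrix.of fun j i => D j ((Sum.elim (algebraMap F K ∘ y) t :
      Fin d ⊕ Fin s → K) i) / (Sum.elim (algebraMap F K ∘ y) t : Fin d ⊕ Fin s → K) i) *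
      Matrix.diagonal (Sum.elim (algebraMap F K ∘ y) (fun _ => 1)) := by
    ext j i
    rw [Matrix.mul_diagonal, matK, Matrix.of_apply, Matrix.of_apply]
    rcases i with i | i
    · have : algebraMap F K (y i) ≠ 0 := by rw [Ne, map_eq_zero]; exact hy i
      simp only [Sum.elim_inl, Function.comp_apply]
      rw [div_mul_cancel₀ _ this]
    · simp
  rw [h1, Matrix.det_mul, Matrix.det_diagonal, Fintype.prod_sum_type]
  simp

theorem ord_prod {ι : Type} (P : Place k K) (S : Finset ι) (z : ι → K) (hz : ∀ i ∈ S, z i ≠ 0) :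
    P.ord (∏ i ∈ S, z i) = ∑ i ∈ S, P.ord (z i) := by
  classical
  induction S using Finset.induction_on with
  | empty => simp [P.ord_one]
  | insert a S ha ih =>
    rw [Finset.prod_insert ha, Finset.sum_insert ha, P.ord_mul (hz a (Finset.mem_insert_self a S))
      (Finset.prod_ne_zero_iff.2 fun i hi => hz i (Finset.mem_insert_of_mem hi)),
      ih fun i hi => hz i (Finset.mem_insert_of_mem hi)]

theorem up (h : Gens (k := F) t) (hd : Algebra.trdeg k F = d) (hdK : Algebra.trdeg k K = (d + s : ℕ))
    (hfd : ∀ y : Fin d → F, IsTranscendenceBasis k y →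
      FiniteDimensional (IntermediateField.adjoin k (Set.range y)) F)
    {b : Fin d → F} (hb : IsTranscendenceBasis k b) {m : ℕ} {δF : Place k F → ℚ}
    {δK : Place k K → ℚ} (hG : Good t d δF δK) {c : F} (hc : SecH d m δF (mat b) c) :
    SecH (d + s) m δK (matK b t) (algebraMap F K c) := by
  classical
  intro P hP D hD
  have hm0 : (0 : ℚ) ≤ m := by positivity
  by_cases hc0 : c = 0
  · left; rw [hc0, map_zero, zero_mul]
  rcases trivial_or_over' (F := F) P with hT | ⟨v, e, hv⟩
  · have hb0 : ∀ i, b i ≠ 0 := fun i => hb.1.ne_zero i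
    have hcK : GeQ P 0 (algebraMap F K c) := Or.inr (by rw [hT c hc0]; simp)
    have hbP : P.ord (∏ i, algebraMap F K (b i)) = 0 := by
      rw [ord_prod P _ _ fun i _ => by rw [Ne, map_eq_zero]; exact hb0 i]
      exact Finset.sum_eq_zero fun i _ => hT _ (hb0 i)
    rcases hG.triv P hT with ⟨h1, h2⟩ | h1
    · have h3 : Ge P 0 (matK b t D).det := by
        refine ge_det P _ fun j i => ?_
        rcases i with i | i
        · simp only [matK, Matrix.of_apply, Sum.elim_inl]
          exact hD j _ (Or.inr (hT _ (hb0 i)).ge)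
        · simp only [matK, Matrix.of_apply, Sum.elim_inr]
          exact der_unit (hD j) (h1 i)
      have h4 := hcK.mul (Ge.toQ (h3.pow m))
      refine h4.mono ?_
      push_cast
      have := mul_nonneg hm0 h2
      linarith
    · have h3 : Ge P (-1) (matK b t D).det := by
        rw [matK_units D b hb0]
        have h4 := det_log' P D hD (Sum.elim (algebraMap F K ∘ b) t) (by
          rintro (i | i)
          · simpa using hb0 i
          · exact Gens.t_ne h i)
        have h5 : Ge P 0 (∏ i, algebraMap F K (b i)) := Or.inr hbP.ge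
        simpa using h4.mul h5
      have h4 := hcK.mul (Ge.toQ (h3.pow m))
      refine h4.mono ?_
      push_cast
      have := mul_le_mul_of_nonneg_left h1 hm0
      linarith
  · have hvd : Divisorial d v := pDIVR k F K d (d + s) v P e hd hdK hv hP
    obtain ⟨y0, E, i0, hy0, hE, hi0, hreg, hpres⟩ := pFRAME k F d hd hfd v hvd
    let y : Fin d → F := fun i => if i = i0 ∨ v.ord (y0 i) = 0 then y0 i else y0 i + 1
    have hy0ne : ∀ i, y0 i ≠ 0 := fun i => hy0.1.ne_zero i
    have hyo : ∀ i, y i ≠ 0 ∧ v.ord (y i) = if i = i0 then 1 else 0 := by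
      intro i
      simp only [y]
      by_cases h1 : i = i0
      · rw [if_pos (Or.inl h1), if_pos h1, h1]
        exact ⟨hy0ne i0, hi0⟩
      · rw [if_neg h1]
        by_cases h2 : v.ord (y0 i) = 0
        · rw [if_pos (Or.inr h2)]
          exact ⟨hy0ne i, h2⟩
        · rw [if_neg (by tauto)]
          have h3 : 0 ≤ v.ord (y0 i) := (v.reg_iff (hy0ne i)).1 (hreg i)
          have h4 : (0 : ℤ) < v.ord (y0 i) := lt_of_le_of_ne h3 (Ne.symm h2)
          have h5 : y0 i + 1 ≠ 0 := by
            intro h6
            have h7 : y0 i = algebraMap k F (-1) := by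
              rw [map_neg, map_one]
              exact eq_neg_of_add_eq_zero_left h6
            rw [h7, v.ord_const (by simp)] at h4
            exact lt_irrefl _ h4
          refine ⟨h5, ?_⟩
          have h6 := v.ord_add (hy0ne i) one_ne_zero h5
          rw [v.ord_one] at h6
          have h7 : 0 ≤ v.ord (y0 i + 1) := by
            rw [min_eq_right h3] at h6
            exact h6
          have h8 := v.ord_add (f := y0 i + 1) (g := -y0 i) h5 (neg_ne_zero.2 (hy0ne i)) (by
            simp)
          rw [v.ord_neg] at h8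
          have h9 : y0 i + 1 + -y0 i = 1 := by ring
          rw [h9, v.ord_one] at h8
          rcases min_le_iff.1 h8 with h10 | h10 <;> omega
    have hDy : ∀ (D : Derivation k K K) i, D (algebraMap F K (y i)) = D (algebraMap F K (y0 i)) := by
      intro D i
      simp only [y]
      by_cases h1 : i = i0 ∨ v.ord (y0 i) = 0
      · rw [if_pos h1]
      · rw [if_neg h1, map_add, map_one, map_add, D.map_one_eq_zero, add_zero]
    have hmat : matK y t D = matK y0 t D := by
      ext j i
      rcases i with i | i
      · simp only [matK, Matrix.of_apply, Sum.elim_inl]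
        exact hDy _ _
      · simp only [matK, Matrix.of_apply, Sum.elim_inr]
    have hprod : P.ord (∏ i, algebraMap F K (y i)) = e := by
      rw [ord_prod P _ _ fun i _ => by rw [Ne, map_eq_zero]; exact (hyo i).1]
      rw [Finset.sum_congr rfl fun i _ => hv.2 (y i), ← Finset.mul_sum,
        Finset.sum_congr rfl fun i _ => (hyo i).2, Finset.sum_ite_eq' Finset.univ i0]
      simp
    have h3 : Ge P (-1 + e) (matK y t D).det := by
      rw [matK_units D y fun i => (hyo i).1]
      have h4 := det_log' P D hD (Sum.elim (algebraMap F K ∘ y) t) (by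
        rintro (i | i)
        · simpa using (hyo i).1
        · exact Gens.t_ne h i)
      have h5 : Ge P e (∏ i, algebraMap F K (y i)) := Or.inr hprod.ge
      exact h4.mul h5
    have h4 := hc v hvd E hpres
    have h5 : GeQ P (e * (-(m * δF v))) (algebraMap F K (c * (mat b E).det ^ m)) := by
      rcases h4 with h4 | h4
      · left; rw [h4, map_zero]
      · right
        rw [hv.2]
        push_cast
        exact mul_le_mul_of_nonneg_left h4 (by positivity)
    have h6 : algebraMap F K c * (matK b t D).det ^ m =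
        algebraMap F K (c * (mat b E).det ^ m) * (matK y t D).det ^ m := by
      rw [matK_base b hy0 hE D, hmat, map_mul, map_pow]
      ring
    rw [h6]
    refine (h5.mul (Ge.toQ (h3.pow m))).mono ?_
    push_cast
    have h7 := hG.ov P v e hv
    have h8 := mul_le_mul_of_nonneg_left h7 hm0
    linarith

end Pool.Agent.H40.TB
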